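import Pool.Agent.N202.M4.Defs
import Pool.Agent.N202.QR.Pos

/-!
# The pairing of primitive classes in terms of the words
-/

set_option autoImplicit false
set_option linter.unusedSectionVars false
set_option linter.unusedVariables false

namespace Pool.Agent.N202.M4

open NumberField Pool.Agent.H204R3.CM Pool.Agent.W547.KB Pool.Agent.W547.LD Pool.Agent.W547.HR
  Pool.Agent.W495.TA Module Pool.Agent.W976.TA Equiv Pool.Agent.TH117.PO Pool.Agent.N202.QR
open scoped TensorProduct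

noncomputable section

/-! ### Exchange of the blocks -/

section swap

variable {B : Type}

/-- The square root of the permutation which exchanges the blocks. -/
def rootP (r : ℕ) (B : Type) : Perm ((Fin r × Fin 2) ⊕ ((Fin r × Fin 2) ⊕ B)) where
  toFun x := match x with
    | Sum.inl (i, 0) => Sum.inl (i, 1)
    | Sum.inl (i, 1) => Sum.inr (Sum.inl (i, 0))
    | Sum.inr (Sum.inl (i, 0)) => Sum.inr (Sum.inl (i, 1))
    | Sum.inr (Sum.inl (i, 1)) => Sum.inl (i, 0)
    | Sum.inr (Sum.inr b) => Sum.inr (Sum.inr b)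
  invFun x := match x with
    | Sum.inl (i, 1) => Sum.inl (i, 0)
    | Sum.inr (Sum.inl (i, 0)) => Sum.inl (i, 1)
    | Sum.inr (Sum.inl (i, 1)) => Sum.inr (Sum.inl (i, 0))
    | Sum.inl (i, 0) => Sum.inr (Sum.inl (i, 1))
    | Sum.inr (Sum.inr b) => Sum.inr (Sum.inr b)
  left_inv := by
    rintro (⟨i, k⟩ | ⟨i, k⟩ | b)
    · fin_cases k <;> rfl
    · fin_cases k <;> rfl
    · rfl
  right_inv := by
    rintro (⟨i, k⟩ | ⟨i, k⟩ | b)
    · fin_cases k <;> rfl
    · fin_cases k <;> rfl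
    · rfl

theorem rootP_sq_inl (r : ℕ) (B : Type) (x : Fin r × Fin 2) :
    (rootP r B * rootP r B) (Sum.inl x) = Sum.inr (Sum.inl x) := by
  obtain ⟨i, k⟩ := x
  fin_cases k <;> rfl

theorem rootP_sq_inr (r : ℕ) (B : Type) (x : Fin r × Fin 2) :
    (rootP r B * rootP r B) (Sum.inr (Sum.inl x)) = Sum.inl x := by
  obtain ⟨i, k⟩ := x
  fin_cases k <;> rfl

theorem rootP_sq_b (r : ℕ) (B : Type) (b : B) :
    (rootP r B * rootP r B) (Sum.inr (Sum.inr b)) = Sum.inr (Sum.inr b) := rfl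

/-- Exchange of two blocks of even size. -/
theorem altSum_exch {H R : Type} [CommRing R] {r : ℕ} [Fintype B] [DecidableEq B]
    (f g : ((Fin r × Fin 2) → H) → R) (h : (B → H) → R)
    (v : (Fin r × Fin 2) ⊕ ((Fin r × Fin 2) ⊕ B) → H) :
    altSum (times g (times f h)) v = altSum (times f (times g h)) v := by
  set P := rootP r B * rootP r B with hP
  have hs : Perm.sign P = 1 := by
    rw [hP, map_mul]
    exact Int.units_mul_self _
  unfold altSum
  refine Fintype.sum_equiv (Equiv.mulRight P) _ _ fun σ => ?_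
  have h1 : Perm.sign ((Equiv.mulRight P) σ) = Perm.sign σ := by
    change Perm.sign (σ * P) = _
    rw [map_mul, hs, mul_one]
  rw [h1]
  congr 1
  change g (fun p => v (σ (Sum.inl p))) * (f (fun p => v (σ (Sum.inr (Sum.inl p)))) *
    h fun p => v (σ (Sum.inr (Sum.inr p)))) =
    f (fun p => v (σ (P (Sum.inl p)))) * (g (fun p => v (σ (P (Sum.inr (Sum.inl p))))) *
      h fun p => v (σ (P (Sum.inr (Sum.inr p)))))
  have e1 : (fun p => v (σ (P (Sum.inl p)))) = fun p => v (σ (Sum.inr (Sum.inl p))) :=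
    funext fun p => by rw [hP, rootP_sq_inl]
  have e2 : (fun p => v (σ (P (Sum.inr (Sum.inl p))))) = fun p => v (σ (Sum.inl p)) :=
    funext fun p => by rw [hP, rootP_sq_inr]
  have e3 : (fun p => v (σ (P (Sum.inr (Sum.inr p))))) = fun p => v (σ (Sum.inr (Sum.inr p))) :=
    funext fun p => by rw [hP, rootP_sq_b]
  rw [e1, e2, e3]
  ring

end swap

variable {p : ℕ} [Fact p.Prime] {ν : PadicAlgCl p ≃+* ℂ} {Ω : Type} [Field Ω] [CharZero Ω]
  {C : (Y : RedAV p ν) → (κ : Type) → ((TM Ω Y) [⋀^κ]→ₗ[Ω] Ω) → Prop}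
  {L : Type} [Field L] [NumberField L] [IsCMField L] [IsGalois ℚ L]
  {jO : L →+* Ω} {j : L →+* ℂ}

/-- The positive constant. -/
def cD (r m : ℕ) : ℚ := (m.factorial : ℕ) * (Fintype.card (Perm (Fin r × Fin 2)) : ℕ) /
    (((m + len r).factorial : ℕ) * 2 ^ (len r))

theorem cD_pos (r m : ℕ) : 0 < cD r m := by
  unfold cD
  have e1 : 0 < ((m.factorial : ℕ) : ℚ) := Nat.cast_pos.2 (Nat.factorial_pos _)
  have e2 : 0 < ((Fintype.card (Perm (Fin r × Fin 2)) : ℕ) : ℚ) :=
    Nat.cast_pos.2 Fintype.card_pos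
  have e3 : 0 < (((m + len r).factorial : ℕ) : ℚ) := Nat.cast_pos.2 (Nat.factorial_pos _)
  positivity

theorem cst_eq (r m : ℕ) (x : Ω) : RK.cst r m x = (cD r m : Ω) * x := by
  unfold RK.cst cD
  push_cast
  ring

section

variable {Y : RedAV p ν} (e : Basis (Wt Y.X L) Ω (TM Ω Y))

variable (jO) in
/-- The sum over the words, with weights. -/
def S1 (α : Y.X.H1) {κ : Type} [Fintype κ] [DecidableEq κ] (f : (κ → Wt Y.X L) → Ω)
    (z w : (TM Ω Y) [⋀^κ]→ₗ[Ω] Ω) : Ω :=
  ∑ s : κ → Wt Y.X L, (z fun k => e (s k)) * (w fun k => e (bar (s k))) *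
    jO (∏ k, ev α (s k))⁻¹ * f s

theorem S1_bar {α : Y.X.H1} (hα : IsPolar Y.X α) (j : L →+* ℂ) {r : ℕ}
    (f : (Fin r × Fin 2 → Wt Y.X L) → Ω) (z w : (TM Ω Y) [⋀^Fin r × Fin 2]→ₗ[Ω] Ω) :
    S1 jO e α f z w = S1 jO e α (fun s => f fun k => bar (s k)) w z := by
  classical
  unfold S1
  let E : Perm (Fin r × Fin 2 → Wt Y.X L) := Function.Involutive.toPerm
    (fun s k => bar (s k)) fun s => funext fun k => bar_bar (s k)
  refine Fintype.sum_equiv E _ _ fun s => ?_
  have h7 : ∏ k, ev α (bar (s k)) = ∏ k, ev α (s k) := by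
    rw [Fintype.prod_prod_type, Fintype.prod_prod_type]
    refine Finset.prod_congr rfl fun i _ => ?_
    rw [Fin.prod_univ_two, Fin.prod_univ_two, ev_bar_polar j hα, ev_bar_polar j hα]
    ring
  have h8 : (fun k => bar (bar (s k))) = s := funext fun k => bar_bar _
  have h9 : (fun k => e (bar (bar (s k)))) = fun k => e (s k) := funext fun k => by rw [bar_bar]
  change _ = (w fun k => e (bar (s k))) * (z fun k => e (bar (bar (s k)))) *
    jO (∏ k, ev α (bar (s k)))⁻¹ * f fun k => bar (bar (s k))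
  rw [h7, h8, h9]
  ring

theorem S1_add_left (α : Y.X.H1) {κ : Type} [Fintype κ] [DecidableEq κ] (f : (κ → Wt Y.X L) → Ω)
    (z z' w : (TM Ω Y) [⋀^κ]→ₗ[Ω] Ω) :
    S1 jO e α f (z + z') w = S1 jO e α f z w + S1 jO e α f z' w := by
  classical
  unfold S1
  rw [← Finset.sum_add_distrib]
  refine Finset.sum_congr rfl fun s _ => ?_
  rw [AlternatingMap.add_apply]
  ring

theorem S1_add_right (α : Y.X.H1) {κ : Type} [Fintype κ] [DecidableEq κ] (f : (κ → Wt Y.X L) → Ω)
    (z w w' : (TM Ω Y) [⋀^κ]→ₗ[Ω] Ω) :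
    S1 jO e α f z (w + w') = S1 jO e α f z w + S1 jO e α f z w' := by
  classical
  unfold S1
  rw [← Finset.sum_add_distrib]
  refine Finset.sum_congr rfl fun s _ => ?_
  rw [AlternatingMap.add_apply]
  ring

theorem S1_smul_left (α : Y.X.H1) {κ : Type} [Fintype κ] [DecidableEq κ] (f : (κ → Wt Y.X L) → Ω) (a : Ω)
    (z w : (TM Ω Y) [⋀^κ]→ₗ[Ω] Ω) :
    S1 jO e α f (a • z) w = a * S1 jO e α f z w := by
  classical
  unfold S1
  rw [Finset.mul_sum]
  refine Finset.sum_congr rfl fun s _ => ?_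
  rw [AlternatingMap.smul_apply, smul_eq_mul]
  ring

theorem S1_smul_right (α : Y.X.H1) {κ : Type} [Fintype κ] [DecidableEq κ] (f : (κ → Wt Y.X L) → Ω) (a : Ω)
    (z w : (TM Ω Y) [⋀^κ]→ₗ[Ω] Ω) :
    S1 jO e α f z (a • w) = a * S1 jO e α f z w := by
  classical
  unfold S1
  rw [Finset.mul_sum]
  refine Finset.sum_congr rfl fun s _ => ?_
  rw [AlternatingMap.smul_apply, smul_eq_mul]
  ring

theorem S1_wt_sum (α : Y.X.H1) {κ ι : Type} [Fintype κ] [DecidableEq κ] (T : Finset ι) (a : ι → Ω)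
    (f : ι → (κ → Wt Y.X L) → Ω) (z w : (TM Ω Y) [⋀^κ]→ₗ[Ω] Ω) :
    S1 jO e α (fun s => ∑ t ∈ T, a t * f t s) z w = ∑ t ∈ T, a t * S1 jO e α (f t) z w := by
  classical
  unfold S1
  have h1 : ∀ t ∈ T, a t * ∑ s : κ → Wt Y.X L, (z fun k => e (s k)) *
      (w fun k => e (bar (s k))) * jO (∏ k, ev α (s k))⁻¹ * f t s =
      ∑ s : κ → Wt Y.X L, (z fun k => e (s k)) *
      (w fun k => e (bar (s k))) * jO (∏ k, ev α (s k))⁻¹ * (a t * f t s) := by
    intro t _
    rw [Finset.mul_sum]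
    exact Finset.sum_congr rfl fun s _ => by ring
  rw [Finset.sum_congr rfl h1, Finset.sum_comm]
  refine Finset.sum_congr rfl fun s _ => ?_
  rw [Finset.mul_sum]

end

section

variable {Y : RedAV p ν}
  (e : Basis (Wt Y.X L) Ω (TM Ω Y)) (h1 : ∀ w, co jO w (e w) = 1)
  (h0 : ∀ w w', w ≠ w' → co jO w (e w') = 0)

include h1 h0 in
/-- **The pairing of two primitive classes.** -/
theorem pair_formula (hB : Big Y.X j) {α : Y.X.H1} (hα : IsPolar Y.X α) {r m : ℕ}
    {z w : (TM Ω Y) [⋀^Fin r × Fin 2]→ₗ[Ω] Ω} (hz : IsPrim α m z) (hw : IsPrim α m w)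
    (v : (Fin r × Fin 2) ⊕ ((Fin r × Fin 2) ⊕ (Fin m × Fin 2)) → Y.X.H1) :
    (-1) ^ r * altSum (times (res z) (times (res w)
      (powE (castE Ω (riemannForm Y.X α)) m))) v =
    (cD r m : Ω) * S1 jO e α (fun _ => 1) z w *
      altSum (times (powE (castE Ω (riemannForm Y.X α)) r)
        (times (powE (castE Ω (riemannForm Y.X α)) r)
          (powE (castE Ω (riemannForm Y.X α)) m))) v := by
  classical
  obtain ⟨θ, hθ⟩ := exists_theta (jO := jO) j hα
  have hθr := res_theta j hB hθ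
  have hθ1 : ∀ x y : Y.X.H1, θ ![(1 : Ω) ⊗ₜ[ℚ] x, (1 : Ω) ⊗ₜ[ℚ] y] =
      castE Ω (riemannForm Y.X α) x y := by
    intro x y
    rw [castE, ← hθr]
    unfold res
    congr 1
    funext k
    fin_cases k <;> rfl
  have hpow : ∀ (k : ℕ) (v : Fin k × Fin 2 → Y.X.H1),
      powE (fun x y => θ ![x, y]) k (fun i => (1 : Ω) ⊗ₜ[ℚ] v i) =
        powE (castE Ω (riemannForm Y.X α)) k v := by
    intro k v
    unfold powE
    exact Finset.prod_congr rfl fun i _ => hθ1 _ _
  -- the primitivity over `Ω`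
  have hprim : ∀ z : (TM Ω Y) [⋀^Fin r × Fin 2]→ₗ[Ω] Ω, IsPrim α m z →
      ∀ v, altSum (times z (powE (fun x y => θ ![x, y]) (m + 1))) v = 0 := by
    intro z hz
    have h2 : (times z (powE (fun x y => θ ![x, y]) (m + 1)) : _ → Ω) =
        RK.mulM z.toMultilinearMap (RK.pw θ.toMultilinearMap (m + 1)) := by
      funext v
      rw [RK.mulM_apply, RK.pw_apply]
      unfold times powE
      congr 1
      refine Finset.prod_congr rfl fun i _ => ?_
      change θ _ = θ _
      congr 1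
      funext k
      fin_cases k <;> rfl
    rw [h2]
    refine ext_altSum _ fun v => ?_
    rw [← h2, ← hz v]
    unfold altSum
    refine Finset.sum_congr rfl fun σ _ => ?_
    congr 1
    unfold times
    rw [hpow]
    rfl
  have hS : ∀ z w : (TM Ω Y) [⋀^Fin r × Fin 2]→ₗ[Ω] Ω,
      ∑ s : Fin r × Fin 2 → Wt Y.X L, (z fun k => e (s k)) *
        (w fun k => JJ jO e α (e (s k))) = S1 jO e α (fun _ => 1) z w := by
    intro z w
    unfold S1
    refine Finset.sum_congr rfl fun s _ => ?_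
    rw [x_JJ e h1 h0, map_inv₀, map_prod]
    ring
  have hmain : ∀ z : (TM Ω Y) [⋀^Fin r × Fin 2]→ₗ[Ω] Ω, IsPrim α m z → ∀ v,
      (-1) ^ r * altSum (times z (times z (powE (fun a b => θ ![a, b]) m))) v =
      (cD r m : Ω) * S1 jO e α (fun _ => 1) z z *
        altSum (times (powE (fun a b => θ ![a, b]) r)
          (times (powE (fun a b => θ ![a, b]) r) (powE (fun a b => θ ![a, b]) m))) v := by
    intro z hz v
    have h2 := RK.hr_basis e θ (JJ jO e α)
      (fun u w => JJ_spec e h1 h0 hα (fun w => ev_polar_ne j hα w) hθ u w) r m z (hprim z hz) v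
    rw [hS, cst_eq] at h2
    exact h2
  -- the sum
  have hzw : IsPrim α m (z + w) := by
    intro v
    have h2 : altSum (times (res (z + w)) (powE (castE Ω (riemannForm Y.X α)) (m + 1))) v =
        altSum (times (res z) (powE (castE Ω (riemannForm Y.X α)) (m + 1))) v +
          altSum (times (res w) (powE (castE Ω (riemannForm Y.X α)) (m + 1))) v := by
      unfold altSum
      rw [← Finset.sum_add_distrib]
      refine Finset.sum_congr rfl fun σ _ => ?_
      unfold times res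
      rw [AlternatingMap.add_apply]
      ring
    rw [h2, hz v, hw v, add_zero]
  set u : (Fin r × Fin 2) ⊕ ((Fin r × Fin 2) ⊕ (Fin m × Fin 2)) → TM Ω Y :=
    fun i => (1 : Ω) ⊗ₜ[ℚ] v i with hu
  have m1 := hmain z hz u
  have m2 := hmain w hw u
  have m3 := hmain (z + w) hzw u
  have h4 : altSum (times (z + w) (times (z + w) (powE (fun a b => θ ![a, b]) m))) u =
      altSum (times z (times z (powE (fun a b => θ ![a, b]) m))) u +
      altSum (times z (times w (powE (fun a b => θ ![a, b]) m))) u +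
      altSum (times w (times z (powE (fun a b => θ ![a, b]) m))) u +
      altSum (times w (times w (powE (fun a b => θ ![a, b]) m))) u := by
    unfold altSum
    rw [← Finset.sum_add_distrib, ← Finset.sum_add_distrib, ← Finset.sum_add_distrib]
    refine Finset.sum_congr rfl fun σ _ => ?_
    unfold times
    rw [AlternatingMap.add_apply, AlternatingMap.add_apply]
    ring
  have h5 : altSum (times w (times z (powE (fun a b => θ ![a, b]) m))) u =
      altSum (times z (times w (powE (fun a b => θ ![a, b]) m))) u :=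
    altSum_exch (⇑z) (⇑w) _ u
  have h6 : S1 jO e α (fun _ => 1) (z + w) (z + w) = S1 jO e α (fun _ => 1) z z +
      2 * S1 jO e α (fun _ => 1) z w + S1 jO e α (fun _ => 1) w w := by
    rw [S1_add_left, S1_add_right, S1_add_right, S1_bar e hα j (fun _ => 1) w z]
    ring
  rw [h4, h5, h6] at m3
  have h7 : (-1) ^ r * altSum (times z (times w (powE (fun a b => θ ![a, b]) m))) u =
      (cD r m : Ω) * S1 jO e α (fun _ => 1) z w *
        altSum (times (powE (fun a b => θ ![a, b]) r)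
          (times (powE (fun a b => θ ![a, b]) r) (powE (fun a b => θ ![a, b]) m))) u := by
    have h8 : (2 : Ω) ≠ 0 := two_ne_zero
    apply mul_left_cancel₀ h8
    linear_combination m3 - m1 - m2
  have e1 : altSum (times z (times w (powE (fun a b => θ ![a, b]) m))) u =
      altSum (times (res z) (times (res w) (powE (castE Ω (riemannForm Y.X α)) m))) v := by
    unfold altSum
    refine Finset.sum_congr rfl fun σ _ => ?_
    congr 1
    unfold times
    rw [hpow]
    rfl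
  have e2 : altSum (times (powE (fun a b => θ ![a, b]) r)
        (times (powE (fun a b => θ ![a, b]) r) (powE (fun a b => θ ![a, b]) m))) u =
      altSum (times (powE (castE Ω (riemannForm Y.X α)) r)
      (times (powE (castE Ω (riemannForm Y.X α)) r)
        (powE (castE Ω (riemannForm Y.X α)) m))) v := by
    unfold altSum
    refine Finset.sum_congr rfl fun σ _ => ?_
    congr 1
    unfold times
    rw [hpow, hpow, hpow]
  rw [e1, e2] at h7
  exact h7

/-- The volume. -/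
theorem exists_vol {α : Y.X.H1} (hα : IsPolar Y.X α) {r m : ℕ}
    (hrm : 2 * (2 * r + m) = finrank ℚ Y.X.H1) :
    ∃ (v0 : (Fin r × Fin 2) ⊕ ((Fin r × Fin 2) ⊕ (Fin m × Fin 2)) → Y.X.H1) (V0 : ℚ), V0 ≠ 0 ∧
      altSum (times (powE (castE Ω (riemannForm Y.X α)) r)
        (times (powE (castE Ω (riemannForm Y.X α)) r)
          (powE (castE Ω (riemannForm Y.X α)) m))) v0 = (V0 : Ω) := by
  obtain ⟨v0, hv0⟩ := exists_vol_rat (isPolarization hα) r m hrm
  refine ⟨v0, _, hv0, ?_⟩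
  have h2 := altSum_cast (Q := Unit) (Rat.castHom Ω) (times (powE (riemannForm Y.X α) r)
    (times (powE (riemannForm Y.X α) r) (powE (riemannForm Y.X α) m))) v0
  rw [Rat.coe_castHom] at h2
  rw [h2]
  congr 1
  funext w
  have h3 : ∀ (k : ℕ) (u : Fin k × Fin 2 → Y.X.H1),
      powE (castE Ω (riemannForm Y.X α)) k u = ((powE (riemannForm Y.X α) k u : ℚ) : Ω) :=
    fun k u => (powE_cast (Rat.castHom Ω) (riemannForm Y.X α) k u).symm
  unfold times
  rw [h3, h3, h3, Rat.cast_mul, Rat.cast_mul]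

include h1 h0 in
/-- The pairing in terms of the words. -/
theorem hasPairing_iff (hB : Big Y.X j) {α : Y.X.H1} (hα : IsPolar Y.X α) {r m : ℕ}
    (hrm : 2 * (2 * r + m) = finrank ℚ Y.X.H1)
    {z w : (TM Ω Y) [⋀^Fin r × Fin 2]→ₗ[Ω] Ω} (hz : IsPrim α m z) (hw : IsPrim α m w) (q : ℚ) :
    HasPairing α m z w q ↔ (cD r m : Ω) * S1 jO e α (fun _ => 1) z w = q := by
  constructor
  · intro h
    obtain ⟨v0, V0, hV0, hv0⟩ := exists_vol (Ω := Ω) hα hrm
    have h2 := h v0
    rw [pair_formula e h1 h0 hB hα hz hw, hv0] at h2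
    exact mul_right_cancel₀ (Rat.cast_ne_zero.2 hV0) h2
  · intro h v
    rw [pair_formula e h1 h0 hB hα hz hw, h]

include h1 h0 in
/-- The pairing is rational. -/
theorem pair_rat (hC : IsCycleSystem Ω C) (hB : Big Y.X j) {α : Y.X.H1} (hα : IsPolar Y.X α)
    {r m : ℕ} (hrm : 2 * (2 * r + m) = finrank ℚ Y.X.H1)
    {z w : (TM Ω Y) [⋀^Fin r × Fin 2]→ₗ[Ω] Ω} (hz : IsPrim α m z) (hw : IsPrim α m w)
    (hzC : C Y _ z) (hwC : C Y _ w) :
    ∃ q : ℚ, (cD r m : Ω) * S1 jO e α (fun _ => 1) z w = q := by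
  classical
  obtain ⟨θ, hθ⟩ := exists_theta (jO := jO) j hα
  have hθr := res_theta j hB hθ
  have hCθ : C Y (Fin 2) θ := theta_mem hC hα hθr
  have hθ1 : ∀ x y : Y.X.H1, θ ![(1 : Ω) ⊗ₜ[ℚ] x, (1 : Ω) ⊗ₜ[ℚ] y] =
      castE Ω (riemannForm Y.X α) x y := by
    intro x y
    rw [castE, ← hθr]
    unfold res
    congr 1
    funext k
    fin_cases k <;> rfl
  have hpow : ∀ (k : ℕ) (v : Fin k × Fin 2 → Y.X.H1),
      powE (fun x y => θ ![x, y]) k (fun i => (1 : Ω) ⊗ₜ[ℚ] v i) =
        powE (castE Ω (riemannForm Y.X α)) k v := by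
    intro k v
    unfold powE
    exact Finset.prod_congr rfl fun i _ => hθ1 _ _
  obtain ⟨v0, V0, hV0, hvol⟩ := exists_vol (Ω := Ω) hα hrm
  obtain ⟨Θ, a, ha, hΘ, hΘv⟩ := power_mem hC hCθ m
  have hW : C Y _ (cupO z (cupO w Θ)) :=
    hC.cup z _ hzC (hC.cup w Θ hwC hΘ _ fun v => cupO_apply w Θ v) _ fun v =>
      cupO_apply z (cupO w Θ) v
  obtain ⟨b, hb⟩ := hC.top (cupO z (cupO w Θ)) (by
    rw [← hrm, Nat.card_eq_fintype_card]
    simp only [Fintype.card_prod, Fintype.card_fin, Fintype.card_sum]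
    ring) hW v0
  have hWv : ∀ x : (Fin r × Fin 2) ⊕ ((Fin r × Fin 2) ⊕ (Fin m × Fin 2)) → TM Ω Y,
      cupO z (cupO w Θ) x = ((Fintype.card (Perm ((Fin r × Fin 2) ⊕ (Fin m × Fin 2))) : ℕ) : Ω) *
        ((a : Ω) * ((Fintype.card (Perm (Fin m × Fin 2)) : ℕ) : Ω)) *
          altSum (times z (times w (powE (fun a b => θ ![a, b]) m))) x := by
    intro x
    have h2 : ∀ u, cupO w Θ u = (a : Ω) * ((Fintype.card (Perm (Fin m × Fin 2)) : ℕ) : Ω) *
        altSum (times w (powE (fun a b => θ ![a, b]) m)) u := by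
      intro u
      rw [cupO_apply, mul_assoc, ← altSum_absorb, ← altSum_const_mul]
      congr 1
      funext x
      unfold times
      rw [hΘv]
      ring
    rw [cupO_apply, mul_comm ((Fintype.card (Perm ((Fin r × Fin 2) ⊕ (Fin m × Fin 2))) : ℕ) : Ω),
      mul_assoc, ← altSum_absorb, ← altSum_const_mul]
    congr 1
    funext x
    unfold times
    rw [h2]
    unfold times
    ring
  have e0 : res (cupO z (cupO w Θ)) v0 =
      ((Fintype.card (Perm ((Fin r × Fin 2) ⊕ (Fin m × Fin 2))) : ℕ) : Ω) *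
        ((a : Ω) * ((Fintype.card (Perm (Fin m × Fin 2)) : ℕ) : Ω)) *
          altSum (times (res z) (times (res w)
        (powE (castE Ω (riemannForm Y.X α)) m))) v0 := by
    change cupO z (cupO w Θ) (fun i => (1 : Ω) ⊗ₜ[ℚ] v0 i) = _
    rw [hWv]
    congr 1
    unfold altSum
    refine Finset.sum_congr rfl fun σ _ => ?_
    congr 1
    unfold times
    rw [hpow]
    rfl
  set N : ℚ := (Fintype.card (Perm ((Fin r × Fin 2) ⊕ (Fin m × Fin 2))) : ℕ) *
    (a * (Fintype.card (Perm (Fin m × Fin 2)) : ℕ)) with hN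
  have hN0 : N ≠ 0 := mul_ne_zero (Nat.cast_ne_zero.2 Fintype.card_ne_zero)
    (mul_ne_zero ha (Nat.cast_ne_zero.2 Fintype.card_ne_zero))
  have hmm := pair_formula e h1 h0 hB hα hz hw v0
  rw [hvol] at hmm
  refine ⟨(-1) ^ r * b / (N * V0), ?_⟩
  have e1 : ((N : ℚ) : Ω) ≠ 0 := Rat.cast_ne_zero.2 hN0
  have e3 : ((V0 : ℚ) : Ω) ≠ 0 := Rat.cast_ne_zero.2 hV0
  rw [hb] at e0
  have e4 : (b : Ω) = (N : Ω) * altSum (times (res z) (times (res w)
      (powE (castE Ω (riemannForm Y.X α)) m))) v0 := by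
    rw [e0, hN]
    push_cast
    ring
  push_cast
  rw [e4]
  field_simp
  linear_combination (-1 : Ω) * hmm

end

end

end Pool.Agent.N202.M4
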