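import Pool.Agent.N202.M4.Ind
import Pool.Agent.N202.M4.Pair

/-!
# Pull-back of classes along endomorphisms of norm one
-/

set_option autoImplicit false
set_option linter.unusedSectionVars false
set_option linter.unusedVariables false

namespace Pool.Agent.N202.M4

open NumberField Pool.Agent.H204R3.CM Pool.Agent.W547.KB Pool.Agent.W547.LD Pool.Agent.W547.HR
  Pool.Agent.W495.TA Module Pool.Agent.W976.TA Equiv Pool.Agent.TH117.PO Pool.Agent.N202.QR
open scoped TensorProduct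

noncomputable section

section chars

variable {L : Type} [Field L] [NumberField L] [IsCMField L] [IsGalois ℚ L] {X : CMAV}
  {κ : Type} [Fintype κ]

theorem uu_mul (x y : (X.H1)ˣ) : uu (x * y) = uu x * uu y := by
  funext i
  change (x * y : (X.H1)ˣ).1 i * (IsCMField.complexConj (X.factor i).E ((x * y : (X.H1)ˣ).1 i))⁻¹ =
    (x.1 i * (IsCMField.complexConj (X.factor i).E (x.1 i))⁻¹) *
      (y.1 i * (IsCMField.complexConj (X.factor i).E (y.1 i))⁻¹)
  have h1 : (x * y : (X.H1)ˣ).1 i = x.1 i * y.1 i := rfl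
  rw [h1, map_mul, mul_inv]
  ring

theorem uu_one : uu (1 : (X.H1)ˣ) = 1 := by
  funext i
  change (1 : (X.factor i).E) * (IsCMField.complexConj (X.factor i).E (1 : (X.factor i).E))⁻¹ = 1
  rw [map_one, inv_one, mul_one]

theorem chr_uu_mul (t : κ → Wt X L) (x y : (X.H1)ˣ) :
    chr t (uu (x * y)) = chr t (uu x) * chr t (uu y) := by
  rw [uu_mul, map_mul]

theorem chr_uu_one (t : κ → Wt X L) : chr t (uu (1 : (X.H1)ˣ)) = 1 := by
  rw [uu_one, map_one]

theorem chr_bar_uu (j : L →+* ℂ) (t : κ → Wt X L) (x : (X.H1)ˣ) :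
    chr (fun k => bar (t k)) (uu x) = chr t (uu x⁻¹) := by
  rw [chr_apply, chr_apply]
  refine Finset.prod_congr rfl fun k _ => ?_
  rw [ev_uu j, ev_uu j, bar_bar]
  have h1 : ∀ w : Wt X L, ev ((x⁻¹ : (X.H1)ˣ) : X.H1) w = (ev (x : X.H1) w)⁻¹ := by
    intro w
    rw [eq_comm, inv_eq_iff_eq_inv]
    have h2 : ev ((x : X.H1) * ((x⁻¹ : (X.H1)ˣ) : X.H1)) w = 1 := by
      rw [Units.mul_inv]
      exact map_one w.2
    have h3 : ev ((x : X.H1) * ((x⁻¹ : (X.H1)ˣ) : X.H1)) w = ev (x : X.H1) w *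
      ev ((x⁻¹ : (X.H1)ˣ) : X.H1) w := map_mul w.2 _ _
    rw [h3] at h2
    exact eq_inv_of_mul_eq_one_left h2
  rw [h1, h1, inv_inv, mul_comm]

/-- The character of the conjugate word is the conjugate of the character. -/
theorem chr_bar_cc (t : κ → Wt X L) (x : X.H1) :
    chr (fun k => bar (t k)) x = cc L (chr t x) := by
  rw [chr_apply, chr_apply, map_prod]
  rfl

end chars

variable {p : ℕ} [Fact p.Prime] {ν : PadicAlgCl p ≃+* ℂ} {Ω : Type} [Field Ω] [CharZero Ω]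
  {C : (Y : RedAV p ν) → (κ : Type) → ((TM Ω Y) [⋀^κ]→ₗ[Ω] Ω) → Prop}
  {L : Type} [Field L] [NumberField L] [IsCMField L] [IsGalois ℚ L]
  {jO : L →+* Ω} {j : L →+* ℂ} {Y : RedAV p ν}

/-- Pull-back along the multiplication with `a`. -/
def pb {κ : Type} (a : Y.X.H1) (z : (TM Ω Y) [⋀^κ]→ₗ[Ω] Ω) : (TM Ω Y) [⋀^κ]→ₗ[Ω] Ω :=
  z.compLinearMap ((mulA a).baseChange Ω)

theorem co_mulA (a : Y.X.H1) (w : Wt Y.X L) (v : TM Ω Y) :
    co jO w ((mulA a).baseChange Ω v) = jO (ev a w) * co jO w v := by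
  induction v using TensorProduct.induction_on with
  | zero => rw [map_zero, map_zero, mul_zero]
  | tmul c x =>
    rw [LinearMap.baseChange_tmul, Pool.Agent.W495.TA.co_tmul, Pool.Agent.W495.TA.co_tmul]
    have h1 : w.2 (mulA a x w.1) = ev a w * w.2 (x w.1) := map_mul w.2 _ _
    rw [h1, map_mul]
    ring
  | add u v hu hv => rw [map_add, map_add, map_add, hu, hv, mul_add]

theorem pb_mem (hC : IsCycleSystem Ω C) {κ : Type} (a : Y.X.H1)
    {z : (TM Ω Y) [⋀^κ]→ₗ[Ω] Ω} (hz : C Y κ z) : C Y κ (pb a z) :=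
  hC.pull (mulA a) (isHom_mulA a) z hz

theorem riemann_uu (α : Y.X.H1) (x : (Y.X.H1)ˣ) (u v : Y.X.H1) :
    riemannForm Y.X α (mulA (uu x) u) (mulA (uu x) v) = riemannForm Y.X α u v := by
  unfold riemannForm
  refine Finset.sum_congr rfl fun i _ => ?_
  congr 1
  change α i * IsCMField.complexConj (Y.X.factor i).E (uu x i * u i) * (uu x i * v i) = _
  rw [map_mul]
  linear_combination (α i * IsCMField.complexConj (Y.X.factor i).E (u i) * v i) * cj_uu x i

theorem pb_prim {α : Y.X.H1} {m : ℕ} {κ : Type} [Fintype κ] [DecidableEq κ] (x : (Y.X.H1)ˣ)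
    {z : (TM Ω Y) [⋀^κ]→ₗ[Ω] Ω} (hz : IsPrim α m z) : IsPrim α m (pb (uu x) z) := by
  intro v
  rw [← hz fun k => mulA (uu x) (v k)]
  unfold altSum
  refine Finset.sum_congr rfl fun σ _ => ?_
  congr 1
  unfold times
  congr 1
  unfold powE castE
  refine Finset.prod_congr rfl fun i _ => ?_
  rw [riemann_uu]

section

variable (e : Basis (Wt Y.X L) Ω (TM Ω Y)) (h1 : ∀ w, co jO w (e w) = 1)
  (h0 : ∀ w w', w ≠ w' → co jO w (e w') = 0)

include h1 h0

theorem mulA_e (a : Y.X.H1) (w : Wt Y.X L) :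
    (mulA a).baseChange Ω (e w) = jO (ev a w) • e w := by
  refine e.ext_elem fun v => ?_
  rw [map_smul, Finsupp.smul_apply, Pool.Agent.TH117.BL.repr_eq jO e h1 h0,
    Pool.Agent.TH117.BL.repr_eq jO e h1 h0, co_mulA, smul_eq_mul]
  by_cases hv : v = w
  · rw [hv]
  · rw [h0 _ _ hv, mul_zero, mul_zero]

theorem pb_e {κ : Type} [Fintype κ] [DecidableEq κ] (a : Y.X.H1)
    (z : (TM Ω Y) [⋀^κ]→ₗ[Ω] Ω) (s : κ → Wt Y.X L) :
    (pb a z fun k => e (s k)) = jO (chr s a) * z fun k => e (s k) := by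
  change (z fun k => (mulA a).baseChange Ω (e (s k))) = _
  have h2 : (fun k => (mulA a).baseChange Ω (e (s k))) = fun k => jO (ev a (s k)) • e (s k) :=
    funext fun k => mulA_e e h1 h0 a (s k)
  have h3 := z.toMultilinearMap.map_smul_univ (fun k => jO (ev a (s k))) fun k => e (s k)
  rw [h2, chr_apply, map_prod]
  exact h3

theorem S1_pb_left (α : Y.X.H1) {κ : Type} [Fintype κ] [DecidableEq κ]
    (f : (κ → Wt Y.X L) → Ω) (a : Y.X.H1) (z w : (TM Ω Y) [⋀^κ]→ₗ[Ω] Ω) :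
    S1 jO e α f (pb a z) w = S1 jO e α (fun s => jO (chr s a) * f s) z w := by
  unfold S1
  refine Finset.sum_congr rfl fun s _ => ?_
  rw [pb_e e h1 h0]
  ring

theorem S1_pb_right (j : L →+* ℂ) (α : Y.X.H1) {κ : Type} [Fintype κ] [DecidableEq κ]
    (f : (κ → Wt Y.X L) → Ω) (x : (Y.X.H1)ˣ) (z w : (TM Ω Y) [⋀^κ]→ₗ[Ω] Ω) :
    S1 jO e α f z (pb (uu x⁻¹) w) = S1 jO e α (fun s => jO (chr s (uu x)) * f s) z w := by
  unfold S1
  refine Finset.sum_congr rfl fun s _ => ?_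
  rw [pb_e e h1 h0 (uu x⁻¹) w fun k => bar (s k), chr_bar_uu j, inv_inv]
  ring

end

end

end Pool.Agent.N202.M4
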