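import Pool.Agent.N202.QR.Word

/-!
# Equivariant functions on finite sets of characters
-/

set_option autoImplicit false
set_option linter.unusedSectionVars false
set_option linter.unusedVariables false

namespace Pool.Agent.N202.M4

open Module Pool.Agent.N202.QR

noncomputable section

section

variable {M : Type} [Monoid M] {L : Type} [Field L] {Ψ : Type} [Fintype Ψ]
  (ψ : Ψ → M →* L) (hψ : Function.Injective ψ)

include hψ in
/-- The vectors of the values of finitely many different characters span. -/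
theorem span_chars : Submodule.span L (Set.range fun (x : M) (a : Ψ) => ψ a x) = ⊤ := by
  classical
  by_contra hne
  obtain ⟨f, hf, hle⟩ := Submodule.exists_le_ker_of_lt_top _ (lt_top_iff_ne_top.2 hne)
  apply hf
  have h1 : LinearIndependent L fun a : Ψ => ((ψ a : M →* L) : M → L) :=
    (linearIndependent_monoidHom M L).comp ψ hψ
  rw [Fintype.linearIndependent_iff] at h1
  have h2 := h1 (fun a => f (Pi.single a 1)) (by
    funext x
    rw [Finset.sum_apply, Pi.zero_apply]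
    have h3 : f (fun a => ψ a x) = 0 := hle (Submodule.subset_span ⟨x, rfl⟩)
    have h4 : (fun a => ψ a x) = ∑ a, ψ a x • (Pi.single a (1 : L) : Ψ → L) := by
      funext a
      rw [Finset.sum_apply, Finset.sum_eq_single a]
      · simp
      · intro b _ hb
        simp [Ne.symm hb]
      · intro h
        exact absurd (Finset.mem_univ _) h
    rw [h4, map_sum] at h3
    rw [← h3]
    refine Finset.sum_congr rfl fun a _ => ?_
    rw [map_smul, Pi.smul_apply, smul_eq_mul, smul_eq_mul, mul_comm])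
  refine LinearMap.pi_ext' fun a => LinearMap.ext_ring ?_
  exact h2 a

include hψ in
theorem exists_coef (f : Ψ → L) : ∃ (S : Finset M) (m : M → L), ∀ a, ∑ x ∈ S, m x * ψ a x = f a := by
  have h1 : f ∈ Submodule.span L (Set.range fun (x : M) (a : Ψ) => ψ a x) := by
    rw [span_chars ψ hψ]
    exact Submodule.mem_top
  obtain ⟨c, hc⟩ := (Finsupp.mem_span_range_iff_exists_finsupp).1 h1
  refine ⟨c.support, c, fun a => ?_⟩
  rw [← hc, Finsupp.sum, Finset.sum_apply]
  rfl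

end

section

variable {M : Type} [Monoid M] {L : Type} [Field L] [NumberField L] [IsGalois ℚ L]
  {Ψ : Type} [Fintype Ψ] [MulAction (L ≃ₐ[ℚ] L) Ψ] (ψ : Ψ → M →* L)
  (hψ : Function.Injective ψ) (hact : ∀ (σ : L ≃ₐ[ℚ] L) a x, ψ (σ • a) x = σ (ψ a x))

include hψ hact in
/-- Equivariant functions are rational combinations of the values. -/
theorem exists_rat (f : Ψ → L) (hf : ∀ (σ : L ≃ₐ[ℚ] L) a, f (σ • a) = σ (f a)) :
    ∃ (S : Finset M) (d : M → ℚ), ∀ a, ∑ x ∈ S, (d x : L) * ψ a x = f a := by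
  classical
  obtain ⟨S, m, hm⟩ := exists_coef ψ hψ f
  set N : ℚ := (Fintype.card (L ≃ₐ[ℚ] L) : ℚ) with hN
  have hN0 : N ≠ 0 := Nat.cast_ne_zero.2 Fintype.card_ne_zero
  refine ⟨S, fun x => N⁻¹ * Algebra.trace ℚ L (m x), fun a => ?_⟩
  have h1 : ∀ σ : L ≃ₐ[ℚ] L, ∑ x ∈ S, σ (m x) * ψ a x = f a := by
    intro σ
    have h2 := hm (σ⁻¹ • a)
    have h3 := congrArg σ h2
    rw [map_sum, hf] at h3
    have h4 : σ (σ⁻¹ (f a)) = f a := σ.apply_symm_apply (f a)
    rw [h4] at h3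
    rw [← h3]
    refine Finset.sum_congr rfl fun x _ => ?_
    rw [map_mul, ← hact, smul_inv_smul]
  have h2 : ∑ σ : L ≃ₐ[ℚ] L, ∑ x ∈ S, σ (m x) * ψ a x = (N : L) * f a := by
    rw [Finset.sum_congr rfl fun σ _ => h1 σ, Finset.sum_const, Finset.card_univ, nsmul_eq_mul, hN]
    push_cast
    rfl
  rw [Finset.sum_comm] at h2
  have h3 : ∀ x ∈ S, ∑ σ : L ≃ₐ[ℚ] L, σ (m x) * ψ a x =
      (Algebra.trace ℚ L (m x) : L) * ψ a x := by
    intro x _
    rw [← Finset.sum_mul]
    congr 1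
    have h5 := trace_eq_sum_automorphisms (K := ℚ) (L := L) (m x)
    rw [← h5, eq_ratCast]
  rw [Finset.sum_congr rfl h3] at h2
  have hN1 : (N : L) ≠ 0 := Rat.cast_ne_zero.2 hN0
  have h4 : ∑ x ∈ S, (((N⁻¹ * Algebra.trace ℚ L (m x) : ℚ)) : L) * ψ a x =
      (N : L)⁻¹ * ∑ x ∈ S, (Algebra.trace ℚ L (m x) : L) * ψ a x := by
    rw [Finset.mul_sum]
    refine Finset.sum_congr rfl fun x _ => ?_
    push_cast
    ring
  rw [h4, h2, ← mul_assoc, inv_mul_cancel₀ hN1, one_mul]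

variable {Ω : Nat.Primes → Type} [∀ l, Field (Ω l)] [∀ l, CharZero (Ω l)]
  [∀ l : Nat.Primes, Algebra ℚ_[(l : ℕ)] (Ω l)] (jO : ∀ l, L →+* Ω l)

/-- Functions which are combinations of the values, with `l`-adic coefficients. -/
def IsRep (l : Nat.Primes) (c : Ψ → Ω l) : Prop :=
  ∃ (S : Finset M) (d : M → ℚ_[(l : ℕ)]), ∀ a,
    ∑ x ∈ S, algebraMap ℚ_[(l : ℕ)] (Ω l) (d x) * jO l (ψ a x) = c a

theorem IsRep.zero (l : Nat.Primes) : IsRep ψ jO l 0 :=
  ⟨∅, 0, fun a => by simp⟩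

theorem IsRep.add {l : Nat.Primes} {c c' : Ψ → Ω l} (h : IsRep ψ jO l c) (h' : IsRep ψ jO l c') :
    IsRep ψ jO l (c + c') := by
  classical
  obtain ⟨S, d, hd⟩ := h
  obtain ⟨S', d', hd'⟩ := h'
  refine ⟨S ∪ S', fun x => (if x ∈ S then d x else 0) + if x ∈ S' then d' x else 0, fun a => ?_⟩
  rw [Pi.add_apply, ← hd, ← hd']
  have h1 : ∀ x ∈ S ∪ S', algebraMap ℚ_[(l : ℕ)] (Ω l) ((if x ∈ S then d x else 0) +
      if x ∈ S' then d' x else 0) * jO l (ψ a x) =
      (if x ∈ S then algebraMap ℚ_[(l : ℕ)] (Ω l) (d x) * jO l (ψ a x) else 0) +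
        if x ∈ S' then algebraMap ℚ_[(l : ℕ)] (Ω l) (d' x) * jO l (ψ a x) else 0 := by
    intro x _
    split_ifs <;> simp [add_mul]
  rw [Finset.sum_congr rfl h1, Finset.sum_add_distrib, ← Finset.sum_filter, ← Finset.sum_filter]
  congr 1
  · refine Finset.sum_congr ?_ fun _ _ => rfl
    ext x
    simp only [Finset.mem_filter, Finset.mem_union]
    tauto
  · refine Finset.sum_congr ?_ fun _ _ => rfl
    ext x
    simp only [Finset.mem_filter, Finset.mem_union]
    tauto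

theorem IsRep.smul {l : Nat.Primes} {c : Ψ → Ω l} (q : ℚ_[(l : ℕ)]) (h : IsRep ψ jO l c) :
    IsRep ψ jO l fun a => algebraMap ℚ_[(l : ℕ)] (Ω l) q * c a := by
  obtain ⟨S, d, hd⟩ := h
  refine ⟨S, fun x => q * d x, fun a => ?_⟩
  dsimp only
  rw [← hd, Finset.mul_sum]
  refine Finset.sum_congr rfl fun x _ => ?_
  rw [map_mul]
  ring

theorem IsRep.sum {l : Nat.Primes} {ι : Type} (s : Finset ι) {c : ι → Ψ → Ω l}
    (h : ∀ i ∈ s, IsRep ψ jO l (c i)) : IsRep ψ jO l (∑ i ∈ s, c i) := by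
  classical
  induction s using Finset.induction_on with
  | empty => exact IsRep.zero ψ jO l
  | insert i s hi ih =>
    rw [Finset.sum_insert hi]
    exact IsRep.add ψ jO (h i (Finset.mem_insert_self i s))
      (ih fun k hk => h k (Finset.mem_insert_of_mem hk))

include hψ hact in
/-- Functions with orbits in the combinations of conjugates. -/
theorem isRep_of {l : Nat.Primes} (c : Ψ → Ω l) (hc : ∀ a, (fun σ : L ≃ₐ[ℚ] L => c (σ • a)) ∈ SS jO l) :
    IsRep ψ jO l c := by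
  classical
  have key : ∀ (a0 : Ψ) (y : (L ≃ₐ[ℚ] L) → Ω l), y ∈ SS jO l →
      IsRep ψ jO l fun a => ∑ σ : L ≃ₐ[ℚ] L, if σ • a0 = a then y σ else 0 := by
    intro a0 y hy
    induction hy using AddSubgroup.closure_induction with
    | mem y hy =>
      obtain ⟨m, q, h⟩ := hy
      have hf : ∀ (τ : L ≃ₐ[ℚ] L) (a : Ψ), (∑ σ : L ≃ₐ[ℚ] L, if σ • a0 = τ • a then σ m else 0) =
          τ (∑ σ : L ≃ₐ[ℚ] L, if σ • a0 = a then σ m else 0) := by
        intro τ a
        rw [map_sum]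
        refine Fintype.sum_equiv (Equiv.mulLeft τ⁻¹) _ _ fun σ => ?_
        have h1 : (Equiv.mulLeft τ⁻¹) σ = τ⁻¹ * σ := rfl
        rw [h1, mul_smul, inv_smul_eq_iff, apply_ite τ, map_zero]
        have h2 : τ ((τ⁻¹ * σ) m) = σ m := by
          change (τ * (τ⁻¹ * σ)) m = σ m
          rw [mul_inv_cancel_left]
        rw [h2]
      obtain ⟨S, d, hd⟩ := exists_rat ψ hψ hact
        (fun a => ∑ σ : L ≃ₐ[ℚ] L, if σ • a0 = a then σ m else 0) hf
      refine ⟨S, fun x => q * (d x : ℚ_[(l : ℕ)]), fun a => ?_⟩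
      have h1 := congrArg (jO l) (hd a)
      rw [map_sum, map_sum] at h1
      have h2 : ∀ σ : L ≃ₐ[ℚ] L, (if σ • a0 = a then y σ else 0) =
          algebraMap ℚ_[(l : ℕ)] (Ω l) q * jO l (if σ • a0 = a then σ m else 0) := by
        intro σ
        split_ifs
        · rw [h, mul_comm]
        · simp
      dsimp only
      rw [Finset.sum_congr rfl fun σ _ => h2 σ, ← Finset.mul_sum, ← h1, Finset.mul_sum]
      refine Finset.sum_congr rfl fun x _ => ?_
      rw [map_mul, map_mul, map_ratCast, map_ratCast]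
      ring
    | zero =>
      have h : (fun a => ∑ σ : L ≃ₐ[ℚ] L, if σ • a0 = a then (0 : (L ≃ₐ[ℚ] L) → Ω l) σ else 0) =
          (0 : Ψ → Ω l) := by
        funext a
        simp
      rw [h]
      exact IsRep.zero ψ jO l
    | add x y _ _ h1 h2 =>
      have h : (fun a => ∑ σ : L ≃ₐ[ℚ] L, if σ • a0 = a then (x + y) σ else 0) =
          (fun a => ∑ σ : L ≃ₐ[ℚ] L, if σ • a0 = a then x σ else 0) +
            fun a => ∑ σ : L ≃ₐ[ℚ] L, if σ • a0 = a then y σ else 0 := by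
        funext a
        rw [Pi.add_apply, ← Finset.sum_add_distrib]
        refine Finset.sum_congr rfl fun σ _ => ?_
        split_ifs <;> simp
      rw [h]
      exact IsRep.add ψ jO h1 h2
    | neg x _ h1 =>
      have h : (fun a => ∑ σ : L ≃ₐ[ℚ] L, if σ • a0 = a then (-x) σ else 0) =
          fun a => algebraMap ℚ_[(l : ℕ)] (Ω l) (-1) *
            ∑ σ : L ≃ₐ[ℚ] L, if σ • a0 = a then x σ else 0 := by
        funext a
        rw [Finset.mul_sum]
        refine Finset.sum_congr rfl fun σ _ => ?_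
        split_ifs <;> simp
      rw [h]
      exact IsRep.smul ψ jO (-1) h1
  have h1 := IsRep.sum ψ jO Finset.univ fun a0 _ => key a0 _ (hc a0)
  set N : ℚ_[(l : ℕ)] := (Fintype.card (L ≃ₐ[ℚ] L) : ℚ_[(l : ℕ)]) with hN
  have hN0 : N ≠ 0 := Nat.cast_ne_zero.2 Fintype.card_ne_zero
  have h2 := IsRep.smul ψ jO N⁻¹ h1
  have h3 : (fun a => algebraMap ℚ_[(l : ℕ)] (Ω l) N⁻¹ * (∑ a0 : Ψ, fun a =>
      ∑ σ : L ≃ₐ[ℚ] L, if σ • a0 = a then c (σ • a0) else 0) a) = c := by
    funext a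
    rw [Finset.sum_apply, Finset.sum_comm]
    have h4 : ∀ σ : L ≃ₐ[ℚ] L, (∑ a0 : Ψ, if σ • a0 = a then c (σ • a0) else 0) = c a := by
      intro σ
      rw [Finset.sum_eq_single (σ⁻¹ • a)]
      · rw [smul_inv_smul, if_pos rfl]
      · intro b _ hb
        rw [if_neg]
        intro h
        apply hb
        rw [← h, inv_smul_smul]
      · intro h
        exact absurd (Finset.mem_univ _) h
    rw [Finset.sum_congr rfl fun σ _ => h4 σ, Finset.sum_const, Finset.card_univ, nsmul_eq_mul]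
    have h5 : ((Fintype.card (L ≃ₐ[ℚ] L) : ℕ) : Ω l) = algebraMap ℚ_[(l : ℕ)] (Ω l) N := by
      rw [hN, map_natCast]
    rw [h5, ← mul_assoc, ← map_mul, inv_mul_cancel₀ hN0, map_one, one_mul]
  rw [h3] at h2
  exact h2

end

end

end Pool.Agent.N202.M4
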