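import Pool.Agent.N202.QR.Defs

/-!
# Pairings of primitive classes, stable spaces, orthogonal bases, local isometries: definitions
-/

set_option autoImplicit false

namespace Pool.Agent.N202.M4

open NumberField Pool.Agent.H204R3.CM Pool.Agent.W547.KB Pool.Agent.W547.LD Pool.Agent.W547.HR
  Pool.Agent.W495.TA Module Pool.Agent.TH117.PO Pool.Agent.N202.QR
open scoped TensorProduct

variable {p : ℕ} [Fact p.Prime] {ν : PadicAlgCl p ≃+* ℂ}

/-- The cohomology classes of codimension `r` on `Y`. -/
abbrev HCl (Ω : Type) [Field Ω] [CharZero Ω] (Y : RedAV p ν) (r : ℕ) : Type :=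
  (TM Ω Y) [⋀^Fin r × Fin 2]→ₗ[Ω] Ω

/-- For `z`, `w` in `H^{2r}(Y)`, `dim Y = 2 r + m`: the class `(-1)^r z ∪ w ∪ E^m` is `q` times the top
power `E^{2 r + m}` of the class `E` of the polarization given by `α` (both up to positive factors that
depend only on `r` and `m`, the same as in `IsPosClass`). So `q` is the pairing of `z` and `w`. -/
def HasPairing {Ω : Type} [Field Ω] [CharZero Ω] {Y : RedAV p ν} (α : Y.X.H1) {r : ℕ} (m : ℕ)
    (z w : HCl Ω Y r) (q : ℚ) : Prop :=
  ∀ v, (-1) ^ r * altSum (times (res z) (times (res w)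
      (powE (castE Ω (riemannForm Y.X α)) m))) v =
    (q : Ω) * altSum (times (powE (castE Ω (riemannForm Y.X α)) r)
      (times (powE (castE Ω (riemannForm Y.X α)) r)
        (powE (castE Ω (riemannForm Y.X α)) m))) v

/-- `P` is a rational vector space of primitive classes of codimension `r` in the system `C`, which is
stable under the pull-backs along the multiplications by the elements `a` of the CM algebra of the
lifting with `conj a * a = 1` (these are automorphisms up to isogeny which preserve the polarization).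
For example `P` consists of all primitive classes of codimension `r` in `C`. -/
structure IsStableSpace {Ω : Type} [Field Ω] [CharZero Ω]
    (C : (Y : RedAV p ν) → (κ : Type) → ((TM Ω Y) [⋀^κ]→ₗ[Ω] Ω) → Prop) {Y : RedAV p ν}
    (α : Y.X.H1) {r : ℕ} (m : ℕ) (P : HCl Ω Y r → Prop) : Prop where
  mem : ∀ z, P z → C Y (Fin r × Fin 2) z
  prim : ∀ z, P z → IsPrim α m z
  zero : P 0
  add : ∀ z w, P z → P w → P (z + w)
  smul : ∀ (a : ℚ) z, P z → P ((a : Ω) • z)
  pull : ∀ (a : Y.X.H1) (h : Y.X.H1 →ₗ[ℚ] Y.X.H1), (∀ x i, h x i = a i * x i) →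
    (∀ i, IsCMField.complexConj (Y.X.factor i).E (a i) * a i = 1) →
      ∀ z, P z → P (z.compLinearMap (h.baseChange Ω))

/-- The classes `z i` are an orthogonal basis of the space `P` of primitive classes, modulo the
classes in `P` which are orthogonal to `P`, and `⟨z i, z i⟩ = q i ≠ 0`. -/
structure IsOrthBasis {Ω : Type} [Field Ω] [CharZero Ω] {Y : RedAV p ν} (α : Y.X.H1) {r : ℕ} (m : ℕ)
    (P : HCl Ω Y r → Prop) {n : ℕ} (z : Fin n → HCl Ω Y r) (q : Fin n → ℚ) : Prop where
  mem : ∀ i, P (z i)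
  ne : ∀ i, q i ≠ 0
  pair : ∀ i k, HasPairing α m (z i) (z k) (if i = k then q i else 0)
  max : ∀ w, P w → (∀ i, HasPairing α m w (z i) 0) → ∀ w', P w' → HasPairing α m w w' 0

/-- The diagonal forms `∑ q i x_i ^ 2` and `∑ b i x_i ^ 2` are isometric over the field of `l`-adic
numbers, for all prime numbers `l`. -/
def IsLocallyIsometric {n : ℕ} (q b : Fin n → ℚ) : Prop :=
  ∀ l : Nat.Primes, ∃ T : Matrix (Fin n) (Fin n) ℚ_[(l : ℕ)],
    T * Matrix.diagonal (fun i => (b i : ℚ_[(l : ℕ)])) * T.transpose =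
      Matrix.diagonal fun i => (q i : ℚ_[(l : ℕ)])

/-- All classes in the space `P` which are not numerically equivalent to zero are positive: the
standard conjecture of Hodge type for `P`. -/
def IsPosSpace {Ω : Type} [Field Ω] [CharZero Ω]
    (C : (Y : RedAV p ν) → (κ : Type) → ((TM Ω Y) [⋀^κ]→ₗ[Ω] Ω) → Prop) {Y : RedAV p ν}
    (α : Y.X.H1) {r : ℕ} (m : ℕ) (P : HCl Ω Y r → Prop) : Prop :=
  ∀ w, P w → ¬ IsNumTrivial Ω C w → IsPosClass α m w

/-- Properties of the squares `q i` of the orthogonal bases of the space `P`: they are everywhere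
locally isometric to positive rational squares, and the number of the negative ones is divisible by
four. -/
def HasLocalSquares {Ω : Type} [Field Ω] [CharZero Ω] {Y : RedAV p ν} (α : Y.X.H1) {r : ℕ} (m : ℕ)
    (P : HCl Ω Y r → Prop) : Prop :=
  ∀ (n : ℕ) (z : Fin n → HCl Ω Y r) (q : Fin n → ℚ), IsOrthBasis α m P z q →
    (∃ b : Fin n → ℚ, (∀ i, 0 < b i) ∧ IsLocallyIsometric q b) ∧ 4 ∣ Nat.card {i // q i < 0}

end Pool.Agent.N202.M4
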