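import Pool.Agent.N202.M4.Char
import Pool.Agent.N202.QR.Quad

/-!
# Characters of the norm one elements
-/

set_option autoImplicit false
set_option linter.unusedSectionVars false
set_option linter.unusedVariables false

namespace Pool.Agent.N202.M4

open NumberField Pool.Agent.H204R3.CM Pool.Agent.W547.KB Pool.Agent.W547.LD Pool.Agent.W547.HR
  Pool.Agent.W495.TA Module Pool.Agent.TH117.PO Pool.Agent.W976.TA Pool.Agent.N202.QR

noncomputable section

variable {L : Type} [Field L] [NumberField L] [IsCMField L] [IsGalois ℚ L] {X : CMAV}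

theorem ev_unit_ne (u : (X.H1)ˣ) (w : Wt X L) : ev (u : X.H1) w ≠ 0 := by
  intro h
  have h1 : ev ((u : X.H1) * ((u⁻¹ : (X.H1)ˣ) : X.H1)) w = 1 := by
    rw [Units.mul_inv]
    exact map_one w.2
  have h2 : ev ((u : X.H1) * ((u⁻¹ : (X.H1)ˣ) : X.H1)) w = ev (u : X.H1) w *
      ev ((u⁻¹ : (X.H1)ˣ) : X.H1) w := map_mul w.2 _ _
  rw [h2, h, zero_mul] at h1
  exact zero_ne_one h1

/-- The character with given exponents. -/
def psi [Fintype (Wt X L)] (o : Wt X L → ℤ) : (X.H1)ˣ →* L where
  toFun u := ∏ w, ev (u : X.H1) w ^ o w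
  map_one' := Finset.prod_eq_one fun w _ => by
    have h : ev ((1 : (X.H1)ˣ) : X.H1) w = 1 := map_one w.2
    rw [h, one_zpow]
  map_mul' u v := by
    rw [← Finset.prod_mul_distrib]
    refine Finset.prod_congr rfl fun w _ => ?_
    have h : ev ((u * v : (X.H1)ˣ) : X.H1) w = ev (u : X.H1) w * ev (v : X.H1) w :=
      map_mul w.2 _ _
    rw [h, mul_zpow]

theorem psi_apply [Fintype (Wt X L)] (o : Wt X L → ℤ) (u : (X.H1)ˣ) :
    psi o u = ∏ w, ev (u : X.H1) w ^ o w := rfl

/-- The weights are multiplicatively independent. -/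
theorem ind [Fintype (Wt X L)] (k : Wt X L → ℤ)
    (h : ∀ u : (X.H1)ˣ, ∏ w, ev (u : X.H1) w ^ k w = 1) : k = 0 := by
  classical
  obtain ⟨x, hx⟩ := exists_separating (L := L) X
  let P : (Wt X L → ℕ) → Polynomial L := fun n => ∏ w, (Polynomial.X - Polynomial.C (ev x w)) ^ n w
  have hev : ∀ (n : Wt X L → ℕ) (a : L), (P n).eval a = ∏ w, (a - ev x w) ^ n w := by
    intro n a
    simp only [P, Polynomial.eval_prod, Polynomial.eval_pow, Polynomial.eval_sub,
      Polynomial.eval_X, Polynomial.eval_C]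
  have heq : P (fun w => (k w).toNat) = P fun w => (-k w).toNat := by
    refine Polynomial.eq_of_infinite_eval_eq _ _ ?_
    have hinf : (Set.range (Nat.cast : ℕ → L) \ Set.range fun w : Wt X L => ev x w).Infinite :=
      (Set.infinite_range_of_injective (Nat.cast_injective (R := L))).sdiff (Set.finite_range _)
    refine Set.Infinite.mono ?_ hinf
    rintro _ ⟨⟨n, rfl⟩, hn⟩
    have h2 : ∀ w : Wt X L, ev ((n : ℚ) • (1 : X.H1) - x) w = (n : L) - ev x w := by
      intro w
      have h3 := (evLin w).map_sub ((n : ℚ) • (1 : X.H1)) x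
      rw [LinearMap.map_smul] at h3
      have h4 : evLin w (1 : X.H1) = 1 := map_one w.2
      rw [h4, Rat.smul_def, mul_one, Rat.cast_natCast] at h3
      exact h3
    have hne : ∀ i, ((n : ℚ) • (1 : X.H1) - x) i ≠ 0 ∨ IsEmpty ((X.factor i).E →+* L) := by
      intro i
      by_cases hE : IsEmpty ((X.factor i).E →+* L)
      · exact Or.inr hE
      · left
        intro h0
        rw [not_isEmpty_iff] at hE
        obtain ⟨φ⟩ := hE
        have h5 := h2 ⟨i, φ⟩
        have h6 : ev ((n : ℚ) • (1 : X.H1) - x) ⟨i, φ⟩ = φ 0 := congrArg φ h0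
        rw [h6, map_zero] at h5
        exact hn ⟨⟨i, φ⟩, (sub_eq_zero.1 h5.symm).symm⟩
    -- a unit with the same values
    let y : X.H1 := fun i => if ((n : ℚ) • (1 : X.H1) - x) i = 0 then 1 else
      ((n : ℚ) • (1 : X.H1) - x) i
    have hy : ∀ i, y i ≠ 0 := by
      intro i
      change (if ((n : ℚ) • (1 : X.H1) - x) i = 0 then (1 : (X.factor i).E) else
        ((n : ℚ) • (1 : X.H1) - x) i) ≠ 0
      split_ifs with h0
      · exact one_ne_zero
      · exact h0
    let u : (X.H1)ˣ := ⟨y, fun i => (y i)⁻¹, funext fun i => mul_inv_cancel₀ (hy i),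
      funext fun i => inv_mul_cancel₀ (hy i)⟩
    have hu : ∀ w : Wt X L, ev (u : X.H1) w = (n : L) - ev x w := by
      intro w
      rw [← h2]
      change w.2 (y w.1) = w.2 _
      congr 1
      change (if ((n : ℚ) • (1 : X.H1) - x) w.1 = 0 then (1 : (X.factor w.1).E) else
        ((n : ℚ) • (1 : X.H1) - x) w.1) = _
      rw [if_neg]
      rcases hne w.1 with h0 | h0
      · exact h0
      · exact (h0.false w.2).elim
    have h7 := h u
    change (P _).eval _ = (P _).eval _
    rw [hev, hev]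
    have h8 : ∀ w : Wt X L, (n : L) - ev x w ≠ 0 := fun w => by
      rw [← hu]
      exact ev_unit_ne u w
    have h9 : ∏ w, ((n : L) - ev x w) ^ (k w).toNat =
        (∏ w, ((n : L) - ev x w) ^ (-k w).toNat) * ∏ w, ev (u : X.H1) w ^ k w := by
      rw [← Finset.prod_mul_distrib]
      refine Finset.prod_congr rfl fun w _ => ?_
      rw [hu, ← zpow_natCast, ← zpow_natCast, ← zpow_add₀ (h8 w)]
      congr 1
      omega
    rw [h9, h7, mul_one]
  have hroot : ∀ (n : Wt X L → ℕ) (w0 : Wt X L), (P n).eval (ev x w0) = 0 ↔ n w0 ≠ 0 := by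
    intro n w0
    rw [hev, Finset.prod_eq_zero_iff]
    constructor
    · rintro ⟨w, -, hw⟩
      have h1 : n w ≠ 0 := by
        intro h0
        rw [h0, pow_zero] at hw
        exact one_ne_zero hw
      have h2 : ev x w0 - ev x w = 0 := (pow_eq_zero_iff h1).1 hw
      have h3 : w0 = w := hx (sub_eq_zero.1 h2)
      rw [h3]
      exact h1
    · intro h1
      refine ⟨w0, Finset.mem_univ _, ?_⟩
      rw [sub_self, zero_pow h1]
  funext w
  rw [Pi.zero_apply]
  have h1 := hroot (fun w => (k w).toNat) w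
  have h2 := hroot (fun w => (-k w).toNat) w
  rw [heq] at h1
  have h3 := h1.symm.trans h2
  by_contra hk
  rcases lt_or_gt_of_ne hk with h4 | h4
  · have h5 : (-k w).toNat ≠ 0 := by omega
    have h6 := h3.2 h5
    omega
  · have h5 : (k w).toNat ≠ 0 := by omega
    have h6 := h3.1 h5
    omega

theorem psi_injective [Fintype (Wt X L)] :
    Function.Injective (psi : (Wt X L → ℤ) → ((X.H1)ˣ →* L)) := by
  intro o o' h
  have h1 : o - o' = 0 := by
    refine ind _ fun u => ?_
    have h2 := DFunLike.congr_fun h u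
    rw [psi_apply, psi_apply] at h2
    have h3 : ∏ w, ev (u : X.H1) w ^ (o - o') w =
        (∏ w, ev (u : X.H1) w ^ o w) * (∏ w, ev (u : X.H1) w ^ o' w)⁻¹ := by
      rw [← Finset.prod_inv_distrib, ← Finset.prod_mul_distrib]
      refine Finset.prod_congr rfl fun w _ => ?_
      rw [Pi.sub_apply, zpow_sub₀ (ev_unit_ne u w), div_eq_mul_inv]
    rw [h3, h2, mul_inv_cancel₀]
    exact Finset.prod_ne_zero_iff.2 fun w _ => zpow_ne_zero _ (ev_unit_ne u w)
  exact sub_eq_zero.1 h1

/-- The action of the Galois group on exponents. -/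
def actO (σ : L ≃ₐ[ℚ] L) (o : Wt X L → ℤ) : Wt X L → ℤ := fun w => o (sw σ⁻¹ w)

theorem psi_actO [Fintype (Wt X L)] (σ : L ≃ₐ[ℚ] L) (o : Wt X L → ℤ) (u : (X.H1)ˣ) :
    psi (actO σ o) u = σ (psi o u) := by
  rw [psi_apply, psi_apply, map_prod]
  refine Fintype.prod_equiv (swE X σ) _ _ fun w => ?_
  change ev (u : X.H1) w ^ o (sw σ⁻¹ w) = σ (ev (u : X.H1) (sw σ⁻¹ w) ^ o (sw σ⁻¹ w))
  rw [map_zpow₀, ← ev_sw, ← sw_mul, mul_inv_cancel, sw_one]

open Classical in
/-- The exponents of a word, modulo pairs of conjugate weights. -/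
def oc {κ : Type} [Fintype κ] (t : κ → Wt X L) (w : Wt X L) : ℤ :=
  ∑ k, ((if t k = w then 1 else 0) - if t k = bar w then 1 else 0)

theorem sw_bar (j : L →+* ℂ) (σ : L ≃ₐ[ℚ] L) (w : Wt X L) : sw σ (bar w) = bar (sw σ w) := by
  have h2 : bar w = sw (cc L) w := rfl
  have h3 : bar (sw σ w) = sw (cc L) (sw σ w) := rfl
  rw [h2, h3, ← sw_mul, ← sw_mul, cc_comm j]

theorem oc_sw (j : L →+* ℂ) {κ : Type} [Fintype κ] (σ : L ≃ₐ[ℚ] L) (t : κ → Wt X L) :
    oc (fun k => sw σ (t k)) = actO σ (oc t) := by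
  classical
  funext w
  unfold oc actO
  refine Finset.sum_congr rfl fun k _ => ?_
  have h1 : ∀ v : Wt X L, sw σ (t k) = v ↔ t k = sw σ⁻¹ v := by
    intro v
    constructor
    · rintro rfl
      rw [← sw_mul, inv_mul_cancel, sw_one]
    · intro h
      rw [h, ← sw_mul, mul_inv_cancel, sw_one]
  simp only [h1, sw_bar j]

theorem oc_bar {κ : Type} [Fintype κ] (t : κ → Wt X L) :
    oc (fun k => bar (t k)) = fun w => oc t (bar w) := by
  classical
  funext w
  unfold oc
  refine Finset.sum_congr rfl fun k _ => ?_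
  have h1 : ∀ v : Wt X L, bar (t k) = v ↔ t k = bar v := by
    intro v
    constructor
    · rintro rfl
      rw [bar_bar]
    · intro h
      rw [h, bar_bar]
  simp only [h1]

/-- The conjugate element. -/
def cj (x : X.H1) : X.H1 := fun i => IsCMField.complexConj (X.factor i).E (x i)

theorem ev_cj (j : L →+* ℂ) (x : X.H1) (w : Wt X L) : ev (cj x) w = ev x (bar w) :=
  emb_complexConj j w.2 (x w.1)

/-- The norm one element `x / conj x`. -/
def uu (x : (X.H1)ˣ) : X.H1 := fun i =>
  (x : X.H1) i * (IsCMField.complexConj (X.factor i).E ((x : X.H1) i))⁻¹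

theorem ev_uu (j : L →+* ℂ) (x : (X.H1)ˣ) (w : Wt X L) :
    ev (uu x) w = ev (x : X.H1) w * (ev (x : X.H1) (bar w))⁻¹ := by
  change w.2 ((x : X.H1) w.1 * (IsCMField.complexConj (X.factor w.1).E ((x : X.H1) w.1))⁻¹) = _
  rw [map_mul, map_inv₀, emb_complexConj j]
  rfl

theorem unit_ne (x : (X.H1)ˣ) (i : X.I) : (x : X.H1) i ≠ 0 := by
  intro h
  have h1 := congrFun (Units.mul_inv x) i
  have h2 : (x : X.H1) i * ((x⁻¹ : (X.H1)ˣ) : X.H1) i = 1 := h1
  rw [h, zero_mul] at h2
  exact zero_ne_one h2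

theorem cj_uu (x : (X.H1)ˣ) (i : X.I) :
    IsCMField.complexConj (X.factor i).E (uu x i) * uu x i = 1 := by
  have h1 := unit_ne x i
  have h2 : IsCMField.complexConj (X.factor i).E ((x : X.H1) i) ≠ 0 :=
    (map_ne_zero _).2 h1
  change IsCMField.complexConj (X.factor i).E ((x : X.H1) i *
    (IsCMField.complexConj (X.factor i).E ((x : X.H1) i))⁻¹) * ((x : X.H1) i *
    (IsCMField.complexConj (X.factor i).E ((x : X.H1) i))⁻¹) = 1
  rw [map_mul, map_inv₀, IsCMField.complexConj_apply_apply]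
  field_simp

theorem zsum {a : L} (ha : a ≠ 0) {ι : Type} (s : Finset ι) (f : ι → ℤ) :
    ∏ i ∈ s, a ^ f i = a ^ ∑ i ∈ s, f i := by
  classical
  induction s using Finset.induction_on with
  | empty => simp
  | insert i s hi ih => rw [Finset.prod_insert hi, Finset.sum_insert hi, ih, zpow_add₀ ha]

/-- The value of the character of a word. -/
theorem chr_uu (j : L →+* ℂ) [Fintype (Wt X L)] {κ : Type} [Fintype κ] (t : κ → Wt X L)
    (x : (X.H1)ˣ) : chr t (uu x) = psi (oc t) x := by
  classical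
  rw [chr_apply, psi_apply]
  have h1 : ∀ w : Wt X L, ev (x : X.H1) w ^ oc t w =
      ∏ k, (ev (x : X.H1) w ^ (if t k = w then (1 : ℤ) else 0) *
        (ev (x : X.H1) w ^ (if t k = bar w then (1 : ℤ) else 0))⁻¹) := by
    intro w
    have h0 := ev_unit_ne x w
    unfold oc
    rw [← zsum h0]
    refine Finset.prod_congr rfl fun k _ => ?_
    rw [zpow_sub₀ h0, div_eq_mul_inv]
  rw [Finset.prod_congr rfl fun w _ => h1 w, Finset.prod_comm]
  refine Finset.prod_congr rfl fun k _ => ?_
  rw [Finset.prod_mul_distrib, Finset.prod_inv_distrib, ev_uu j]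
  congr 1
  · rw [Finset.prod_eq_single (t k)]
    · rw [if_pos rfl, zpow_one]
    · intro w _ hw
      rw [if_neg (Ne.symm hw), zpow_zero]
    · intro h
      exact absurd (Finset.mem_univ _) h
  · rw [Finset.prod_eq_single (bar (t k))]
    · rw [if_pos (bar_bar _).symm, zpow_one]
    · intro w _ hw
      rw [if_neg, zpow_zero]
      intro h
      apply hw
      rw [h, bar_bar]
    · intro h
      exact absurd (Finset.mem_univ _) h

end

end Pool.Agent.N202.M4
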