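import Mathlib
import Pool.Agent.W313.BMX.Stm

/-!
# The number of negative squares modulo four: statements of the parts
-/

set_option autoImplicit false

namespace Pool.Agent.N202.M4

open Pool.Agent.W313.BMX (Splits)

/-- The product of the symbols `h a b` over all pairs of entries of a list. -/
def hasse {F : Type} (h : F → F → ℤ) : List F → ℤ
  | [] => 1
  | a :: l => (l.map (h a)).prod * hasse h l

/-- A symbol on a field: symmetric, bimultiplicative, with values `1` and `-1`, and trivial on the
pairs `a, b` for which `1` is represented by the form `a x² + b y²`. -/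
structure IsSymbol {F : Type} [Field F] (h : F → F → ℤ) : Prop where
  pm : ∀ a b, h a b = 1 ∨ h a b = -1
  symm : ∀ a b, h a b = h b a
  mul : ∀ a b c, a ≠ 0 → b ≠ 0 → c ≠ 0 → h a (b * c) = h a b * h a c
  one : ∀ a b x y, a ≠ 0 → b ≠ 0 → a * x ^ 2 + b * y ^ 2 = 1 → h a b = 1

/-- The Hilbert symbol. -/
noncomputable def hil (F : Type) [Field F] (a b : F) : ℤ := by
  classical exact if Splits a b then 1 else -1

/-- Part HAS: the invariant of a diagonal form does not depend on the orthogonal basis. -/
def S_HAS : Prop := ∀ (F : Type) [Field F] [CharZero F] (h : F → F → ℤ), IsSymbol h →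
  ∀ (n : ℕ) (q b : Fin n → F), (∀ i, q i ≠ 0) → (∀ i, b i ≠ 0) →
    (∃ T : Matrix (Fin n) (Fin n) F,
      T * Matrix.diagonal b * T.transpose = Matrix.diagonal q) →
    hasse h (List.ofFn q) = hasse h (List.ofFn b)

/-- Part SYM: the Hilbert symbol on the field of `l`-adic numbers is a symbol. -/
def S_SYM : Prop := ∀ (l : ℕ) [Fact l.Prime], IsSymbol (hil ℚ_[l])

/-- Part MOD: a rational diagonal form which is over all fields of `l`-adic numbers isometric to a
positive definite rational form has a number of negative squares divisible by four. -/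
def S_MOD : Prop := ∀ (n : ℕ) (q b : Fin n → ℚ), (∀ i, q i ≠ 0) → (∀ i, 0 < b i) →
  (∀ (l : ℕ) [Fact l.Prime], ∃ T : Matrix (Fin n) (Fin n) ℚ_[l],
    T * Matrix.diagonal (fun i => (b i : ℚ_[l])) * T.transpose =
      Matrix.diagonal fun i => (q i : ℚ_[l])) →
  4 ∣ Nat.card {i // q i < 0}

/-- The values `1` (for the elements of `T`) and `-1`. -/
noncomputable def pmT {G : Type} (T : Set G) (σ : G) : ℤ := by
  classical exact if σ ∈ T then 1 else -1

/-- Part DEC: a function on a finite group, odd under a central involution `c`, invariant on the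
right under a subgroup `N` which does not contain `c`, with vanishing sums over the cosets `D σ` of
a subgroup `D`, is half of a sum of functions `pmT T` of half systems, which are invariant under `N`
on the right and which come in pairs whose sums over the cosets of `D` cancel. -/
def S_DEC : Prop := ∀ (G : Type) [Group G] [Fintype G] (c : G), (∀ σ, c * σ = σ * c) → c * c = 1 →
  ∀ (N D : Subgroup G), c ∉ N → ∀ g : G → ℤ, (∀ σ, ∀ n ∈ N, g (σ * n) = g σ) →
    (∀ σ, g (c * σ) = -g σ) → (∀ σ, ∑ᶠ d : D, g (d * σ) = 0) →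
    ∃ (m : ℕ) (T : Fin m × Bool → Set G), (∀ i σ, σ ∈ T i ↔ c * σ ∉ T i) ∧
      (∀ i σ, ∀ n ∈ N, σ * n ∈ T i ↔ σ ∈ T i) ∧
      (∀ σ, ∑ i, pmT (T i) σ = 2 * g σ) ∧
      ∀ i σ, ∑ᶠ d : D, (pmT (T (i, true)) (d * σ) + pmT (T (i, false)) (d * σ)) = 0

end Pool.Agent.N202.M4
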