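import Pool.Agent.N202.M4.Ind
import Pool.Agent.N202.M4.Stm
import Pool.Agent.N202.QR.Sgn

/-!
# Words of Hodge type with given exponents
-/

set_option autoImplicit false
set_option linter.unusedSectionVars false
set_option linter.unusedVariables false

namespace Pool.Agent.N202.M4

open NumberField Pool.Agent.H204R3.CM Pool.Agent.W547.KB Pool.Agent.W547.LD Pool.Agent.W547.HR
  Pool.Agent.W495.TA Module Pool.Agent.TH117.PO Pool.Agent.W976.TA Pool.Agent.W417.TA
  Pool.Agent.TH117.BL Pool.Agent.W495.TC Pool.Agent.W495.TB Pool.Agent.TH117.F5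
  Pool.Agent.N202.QR
open scoped TensorProduct

noncomputable section

variable {p : ℕ} [Fact p.Prime] {ν : PadicAlgCl p ≃+* ℂ}
  {L : Type} [Field L] [NumberField L] [IsCMField L] [IsGalois ℚ L] {j : L →+* ℂ}

/-- The functions of the weights of a word. -/
def fw (p : ℕ) [Fact p.Prime] (ν : PadicAlgCl p ≃+* ℂ) (j : L →+* ℂ) {X : CMAV} {κ : Type}
    (t : κ → Wt X L) (k : κ) : (L ≃ₐ[ℚ] L) → ℤ := tf p ν j (St j (t k))

/-- A word whose functions cancel in pairs is algebraic. -/
theorem alg_of_dcnt {Ω : Type} [Field Ω] [CharZero Ω] (jO : L →+* Ω) {P : RedAV p ν}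
    (hP : Big P.X j) {κ : Type} [Fintype κ] [DecidableEq κ] {K : κ → Wt P.X L}
    (heven : Even (Fintype.card κ)) (hd : dcnt (fw p ν j K) = 0) : Alg Ω P κ (monoO jO K) := by
  classical
  have hclosed := closedM (p := p) (ν := ν) j jO
  have h1 : AlgM p ν j jO κ (fw p ν j K) := by
    refine @of_genD _ _ (Set.range (tw p ν j P.X)) hclosed ?_ κ _ (fw p ν j K) ?_ ?_ ?_
    · rintro f ⟨l, rfl⟩
      exact cancel_nn j jO (P.X.factor l.1) l.2
    · intro k
      exact ⟨K k, (tf_nn P.X (K k).1 (K k).2).symm⟩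
    · rw [Nat.card_eq_fintype_card]
      exact heven
    · rw [hd]
      exact GenD.zero
  exact @h1 _ _ P hP K fun k => rfl

theorem dcnt_elim {G κ κ' : Type} [Finite κ] [Finite κ'] (t : κ → G → ℤ) (t' : κ' → G → ℤ) :
    dcnt (Sum.elim t t') = dcnt t + dcnt t' := by
  classical
  have := Fintype.ofFinite κ
  have := Fintype.ofFinite κ'
  funext f
  rw [Pi.add_apply]
  unfold dcnt
  rw [card_eq_sum, card_eq_sum, card_eq_sum, card_eq_sum, card_eq_sum, card_eq_sum,
    Fintype.sum_sum_type, Fintype.sum_sum_type]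
  simp only [Sum.elim_inl, Sum.elim_inr]
  ring_nf

theorem dcnt_neg {G κ : Type} (t : κ → G → ℤ) : dcnt (fun k => -t k) = -dcnt t := by
  funext f
  rw [Pi.neg_apply]
  unfold dcnt
  have h1 : Nat.card {k // -t k = f} = Nat.card {k // t k = -f} :=
    Nat.card_congr (Equiv.subtypeEquivRight fun k => neg_eq_iff_eq_neg)
  have h2 : Nat.card {k // -t k = -f} = Nat.card {k // t k = f} :=
    Nat.card_congr (Equiv.subtypeEquivRight fun k => neg_inj)
  rw [h1, h2]
  ring

/-- Pairs cancel. -/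
theorem dcnt_pairs {G ι : Type} [Finite ι] (t : ι × Bool → G → ℤ)
    (h : ∀ i, t (i, false) = -t (i, true)) : dcnt t = 0 := by
  classical
  have := Fintype.ofFinite ι
  funext f
  rw [Pi.zero_apply]
  unfold dcnt
  rw [card_eq_sum, card_eq_sum, Fintype.sum_prod_type, Fintype.sum_prod_type,
    ← Finset.sum_sub_distrib]
  refine Finset.sum_eq_zero fun i _ => ?_
  rw [Fintype.sum_bool, Fintype.sum_bool, h]
  simp only [neg_eq_iff_eq_neg, neg_neg]
  ring

section DDl

variable {X : CMAV} [Fintype (Wt X L)]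

/-- Symmetric multiplicities do not count. -/
theorem DD_sym (T : Wt X L → (L ≃ₐ[ℚ] L) → ℤ) (hT : ∀ w, T (bar w) = -T w) (e : Wt X L → ℤ)
    (he : ∀ w, e (bar w) = e w) : DD T e = 0 := by
  have h1 := DD_conj T bar bar_bar hT e
  have h2 : (fun l => e (bar l)) = e := funext he
  rw [h2] at h1
  funext f
  have h3 := congrFun h1 f
  rw [Pi.neg_apply] at h3
  rw [Pi.zero_apply]
  omega

open Classical in
/-- The counting function of a word depends on the exponents modulo pairs only. -/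
theorem dcnt_fw {κ : Type} [Fintype κ] (t : κ → Wt X L) :
    dcnt (fw p ν j t) = DD (fun w => tf p ν j (St j w)) fun w => ((oc t w).toNat : ℤ) := by
  classical
  let T : Wt X L → (L ≃ₐ[ℚ] L) → ℤ := fun w => tf p ν j (St j w)
  have hT : ∀ w, T (bar w) = -T w := by
    intro w
    change tf p ν j (St j (bar w)) = -tf p ν j (St j w)
    have h1 : bar w = cc L • w := rfl
    rw [h1]
    funext σ
    exact tf_cc_wt j X w σ
  have h1 : fw p ν j t = fun k => ext0 T (some (t k)) := rfl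
  rw [h1, dcnt_eq_DD T fun k => some (t k)]
  have h2 : Pool.Agent.TH117.BL.cnt (fun k => some (t k)) =
      (fun w => ((oc t w).toNat : ℤ)) + fun w =>
        min (Pool.Agent.TH117.BL.cnt (fun k => some (t k)) w)
          (Pool.Agent.TH117.BL.cnt (fun k => some (t k)) (bar w)) := by
    funext w
    rw [Pi.add_apply]
    have h3 : oc t w = Pool.Agent.TH117.BL.cnt (fun k => some (t k)) w -
        Pool.Agent.TH117.BL.cnt (fun k => some (t k)) (bar w) := by
      unfold oc Pool.Agent.TH117.BL.cnt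
      rw [card_eq_sum, card_eq_sum, ← Finset.sum_sub_distrib]
      refine Finset.sum_congr rfl fun k _ => ?_
      simp only [Option.some.injEq]
    rw [h3]
    omega
  rw [h2, DD_add, DD_sym T hT (fun w => min (Pool.Agent.TH117.BL.cnt (fun k => some (t k)) w)
          (Pool.Agent.TH117.BL.cnt (fun k => some (t k)) (bar w))) (fun w => by
    rw [bar_bar, min_comm]), add_zero]

end DDl

theorem tf_smul' {X : CMAV} (w : Wt X L) (σ h : L ≃ₐ[ℚ] L) :
    tf p ν j (St j (sw σ w)) h = tf p ν j (St j w) (h * σ) := tf_smul_wt j X w σ h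

/-- Translation of the counting function. -/
theorem dcnt_sw {X : CMAV} {κ : Type} (σ : L ≃ₐ[ℚ] L) (t : κ → Wt X L) (f : (L ≃ₐ[ℚ] L) → ℤ) :
    dcnt (fw p ν j fun k => sw σ (t k)) f = dcnt (fw p ν j t) fun h => f (h * σ⁻¹) := by
  unfold dcnt
  have h1 : ∀ (g : (L ≃ₐ[ℚ] L) → ℤ) (k : κ), fw p ν j (fun k => sw σ (t k)) k = g ↔
      fw p ν j t k = fun h => g (h * σ⁻¹) := by
    intro g k
    constructor
    · rintro rfl
      funext h
      change _ = tf p ν j (St j (sw σ (t k))) (h * σ⁻¹)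
      rw [tf_smul', inv_mul_cancel_right]
      rfl
    · intro h2
      funext h
      change tf p ν j (St j (sw σ (t k))) h = g h
      rw [tf_smul']
      have h3 := congrFun h2 (h * σ)
      rw [mul_inv_cancel_right] at h3
      exact h3
  rw [Nat.card_congr (Equiv.subtypeEquivRight fun k => h1 f k),
    Nat.card_congr (Equiv.subtypeEquivRight fun k => h1 (-f) k)]
  rfl

theorem pmT_St {X : CMAV} (w : Wt X L) (σ : L ≃ₐ[ℚ] L) [Decidable (σ ∈ St j w)] :
    pmT (St j w) σ = if σ ∈ St j w then 1 else -1 := by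
  unfold pmT
  split_ifs <;> rfl

open Classical in
theorem tf_pmT (S : Set (L ≃ₐ[ℚ] L)) (σ : L ≃ₐ[ℚ] L) :
    tf p ν j S σ = ∑ d : L ≃ₐ[ℚ] L, if d ∈ Dec p ν j then pmT S (d * σ) else 0 := by
  unfold tf
  refine Finset.sum_congr rfl fun d _ => ?_
  unfold pmT
  split_ifs <;> rfl

open Classical in
theorem finsum_dec (F : (L ≃ₐ[ℚ] L) → ℤ) :
    (∑ᶠ d : Dec p ν j, F d) = ∑ d : L ≃ₐ[ℚ] L, if d ∈ Dec p ν j then F d else 0 := by
  rw [finsum_eq_sum_of_fintype, ← Finset.sum_filter]
  refine (Finset.sum_subtype (Finset.univ.filter fun d => d ∈ Dec p ν j) (fun d => ?_) F).symm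
  simp

open Classical in
/-- **The word of Hodge type belonging to exponents.** -/
theorem exists_Jg (hdec : S_DEC) (ν : PadicAlgCl p ≃+* ℂ) (j : L →+* ℂ) {X : CMAV}
    [Fintype (Wt X L)] (N : Subgroup (L ≃ₐ[ℚ] L)) (hN : cc L ∉ N) (n : Wt X L → ℕ)
    (hn : ∀ σ ∈ N, ∀ w, n (sw σ w) = n w)
    (hrel : ∀ g, ∑ w, (n w : ℤ) * tf p ν j (St j w) g = 0) (heven : Even (∑ w, n w)) :
    ∃ (m : ℕ) (Y' : RedAV p ν) (_ : Big Y'.X j)
      (J : (Σ l, Fin (n l)) ⊕ (Fin m × Bool) → Wt Y'.X L), Function.Injective J ∧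
      Balanced (fun k => St j (J k)) ∧
      (∀ σ ∈ N, ∃ π : Equiv.Perm ((Σ l, Fin (n l)) ⊕ (Fin m × Bool)),
        ∀ k, sw σ (J k) = J (π k)) ∧
      dcnt (fw p ν j J) = DD (fun w => tf p ν j (St j w)) fun w => (n w : ℤ) := by
  classical
  let G0 : (L ≃ₐ[ℚ] L) → ℤ := fun σ => ∑ w, (n w : ℤ) * pmT (St j w) σ
  have hpm : ∀ (T : Set (L ≃ₐ[ℚ] L)) σ, pmT T σ = 1 ∨ pmT T σ = -1 := by
    intro T σ
    unfold pmT
    split_ifs
    · exact Or.inl rfl
    · exact Or.inr rfl
  have hG1 : ∀ σ, ∀ τ ∈ N, G0 (σ * τ) = G0 σ := by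
    intro σ τ hτ
    have h1 : ∀ w : Wt X L, pmT (St j w) (σ * τ) = pmT (St j (sw τ w)) σ := by
      intro w
      rw [St_sw]
      unfold pmT
      simp only [mem_tr]
    change ∑ w, (n w : ℤ) * pmT (St j w) (σ * τ) = ∑ w, (n w : ℤ) * pmT (St j w) σ
    refine Fintype.sum_equiv (swE X τ).symm _ _ fun w => ?_
    change (n w : ℤ) * pmT (St j w) (σ * τ) = (n (sw τ w) : ℤ) * pmT (St j (sw τ w)) σ
    rw [h1, hn τ hτ]
  have hG2 : ∀ σ, G0 (cc L * σ) = -G0 σ := by
    intro σ
    change ∑ w, (n w : ℤ) * pmT (St j w) (cc L * σ) = -∑ w, (n w : ℤ) * pmT (St j w) σ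
    rw [← Finset.sum_neg_distrib]
    refine Finset.sum_congr rfl fun w _ => ?_
    have h1 := isHalf_St j w σ
    unfold pmT
    by_cases h2 : σ ∈ St j w
    · rw [if_pos h2, if_neg (h1.1 h2)]
      ring
    · rw [if_neg h2, if_pos (by
        by_contra h3
        exact h2 (h1.2 h3))]
      ring
  have hG3 : ∀ σ, ∃ k, G0 σ = 2 * k := by
    intro σ
    have h1 : ∀ w : Wt X L, ∃ k : ℤ, (n w : ℤ) * pmT (St j w) σ = n w + 2 * k := by
      intro w
      rcases hpm (St j w) σ with h | h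
      · exact ⟨0, by rw [h]; ring⟩
      · exact ⟨-n w, by rw [h]; ring⟩
    choose k hk using h1
    obtain ⟨e, he⟩ := heven
    refine ⟨e + ∑ w, k w, ?_⟩
    change ∑ w, (n w : ℤ) * pmT (St j w) σ = _
    rw [Finset.sum_congr rfl fun w _ => hk w, Finset.sum_add_distrib, ← Finset.mul_sum]
    have h2 : (∑ w, (n w : ℤ)) = 2 * e := by
      have h3 : ((∑ w, n w : ℕ) : ℤ) = ((e + e : ℕ) : ℤ) := by rw [he]
      push_cast at h3
      linarith
    rw [h2]
    ring
  choose g hg using hG3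
  have hG4 : ∀ σ, ∑ d : L ≃ₐ[ℚ] L, (if d ∈ Dec p ν j then G0 (d * σ) else 0) = 0 := by
    intro σ
    have h1 : ∀ w : Wt X L, (n w : ℤ) * tf p ν j (St j w) σ =
        ∑ d : L ≃ₐ[ℚ] L, if d ∈ Dec p ν j then (n w : ℤ) * pmT (St j w) (d * σ) else 0 := by
      intro w
      rw [tf_pmT, Finset.mul_sum]
      exact Finset.sum_congr rfl fun d _ => by rw [mul_ite, mul_zero]
    have h0 := hrel σ
    rw [Finset.sum_congr rfl fun w _ => h1 w, Finset.sum_comm] at h0
    refine Eq.trans (Finset.sum_congr rfl fun d _ => ?_) h0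
    by_cases hd : d ∈ Dec p ν j
    · rw [if_pos hd]
      refine Eq.trans ?_ (Finset.sum_congr rfl fun w _ => (if_pos hd).symm)
      rfl
    · rw [if_neg hd]
      exact (Finset.sum_eq_zero fun w _ => if_neg hd).symm
  obtain ⟨m, T, hT1, hT2, hT3, hT4⟩ := hdec (L ≃ₐ[ℚ] L) (cc L) (fun σ => cc_comm j σ) cc_cc N
    (Dec p ν j) hN (fun σ => -g σ) (fun σ τ hτ => by
      have h1 := hG1 σ τ hτ
      rw [hg, hg] at h1
      omega) (fun σ => by
      have h1 := hG2 σ
      rw [hg, hg] at h1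
      omega) (fun σ => by
      rw [finsum_dec (p := p) (ν := ν) (j := j) fun d => -g (d * σ)]
      have h1 := hG4 σ
      have h2 : ∀ d : L ≃ₐ[ℚ] L, (if d ∈ Dec p ν j then G0 (d * σ) else 0) =
          -2 * if d ∈ Dec p ν j then -g (d * σ) else 0 := by
        intro d
        split_ifs
        · rw [hg]
          ring
        · ring
      rw [Finset.sum_congr rfl fun d _ => h2 d, ← Finset.mul_sum] at h1
      omega)
  let y : (Σ l, Fin (n l)) ⊕ (Fin m × Bool) → Set (L ≃ₐ[ℚ] L) := Sum.elim (fun k => St j k.1) T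
  have hy : ∀ k, IsHalf (y k) := by
    rintro (k | k)
    · exact isHalf_St j k.1
    · exact fun σ => hT1 k σ
  obtain ⟨Y', hY', J, hJ, hJy, hJN⟩ := exists_word ν j N y hy (by
    intro τ hτ
    refine ⟨Sum.map (fun k => ⟨sw τ k.1, Fin.cast (hn τ hτ k.1).symm k.2⟩) id, ?_, ?_⟩
    · refine Function.Injective.sumMap ?_ Function.injective_id
      rintro ⟨l, i⟩ ⟨l', i'⟩ h
      obtain ⟨h1, h2⟩ := Sigma.mk.inj_iff.1 h
      have h3 : l = l' := (swE X τ).symm.injective h1
      subst h3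
      have h4 : i = i' := Fin.cast_injective _ (eq_of_heq h2)
      rw [h4]
    · rintro (k | k)
      · exact St_sw τ k.1
      · change T k = tr τ (T k)
        ext σ
        rw [mem_tr]
        exact (hT2 k σ τ hτ).symm)
  refine ⟨m, Y', hY', J, hJ, ?_, fun σ hσ => hJN σ hσ, ?_⟩
  · intro σ
    have h1 : ∑ k, (if σ ∈ St j (J k) then (1 : ℤ) else -1) = ∑ k, pmT (y k) σ := by
      refine Finset.sum_congr rfl fun k _ => ?_
      rw [← hJy, pmT_St]
    have h2 : ∑ k : (Σ l, Fin (n l)), pmT (y (Sum.inl k)) σ = G0 σ := by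
      rw [Fintype.sum_sigma]
      refine Finset.sum_congr rfl fun l _ => ?_
      change ∑ i : Fin (n l), pmT (St j l) σ = (n l : ℤ) * pmT (St j l) σ
      rw [Finset.sum_const, Finset.card_univ, Fintype.card_fin, nsmul_eq_mul]
    have h3 : ∑ k : Fin m × Bool, pmT (y (Sum.inr k)) σ = 2 * -g σ := hT3 σ
    rw [h1, Fintype.sum_sum_type, h2, h3, hg]
    ring
  · have h1 : fw p ν j J = Sum.elim (fun k : (Σ l, Fin (n l)) => tf p ν j (St j k.1))
        fun k => tf p ν j (T k) := by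
      funext k
      unfold fw
      rw [hJy]
      rcases k with k | k <;> rfl
    rw [h1, dcnt_elim, dcnt_pairs (fun k => tf p ν j (T k)), add_zero]
    · have h2 : (fun k : (Σ l, Fin (n l)) => tf p ν j (St j k.1)) = fun k =>
          ext0 (fun w => tf p ν j (St j w)) ((fun k : (Σ l, Fin (n l)) => some k.1) k) := rfl
      rw [h2, dcnt_eq_DD]
      congr 1
      funext w
      have h3 := congrFun (cnt_fl' n 0) w
      rw [← h3]
      unfold Pool.Agent.TH117.BL.cnt
      congr 1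
      refine Nat.card_congr ?_
      refine (Equiv.subtypeEquiv (Equiv.sumEmpty _ (Fin 0)).symm fun k => ?_)
      rfl
    · intro i
      funext σ
      rw [Pi.neg_apply, tf_pmT, tf_pmT, ← Finset.sum_neg_distrib]
      have h2 := hT4 i σ
      rw [finsum_dec (p := p) (ν := ν) (j := j) fun d => pmT (T (i, true)) (d * σ) +
        pmT (T (i, false)) (d * σ)] at h2
      have h3 : ∑ d : L ≃ₐ[ℚ] L, ((if d ∈ Dec p ν j then pmT (T (i, true)) (d * σ) else 0) +
          if d ∈ Dec p ν j then pmT (T (i, false)) (d * σ) else 0) = 0 := by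
        refine Eq.trans (Finset.sum_congr rfl fun d _ => ?_) h2
        by_cases hd : d ∈ Dec p ν j
        · rw [if_pos hd, if_pos hd, if_pos hd]
        · rw [if_neg hd, if_neg hd, if_neg hd, add_zero]
      rw [Finset.sum_add_distrib] at h3
      rw [Finset.sum_neg_distrib]
      omega

end

end Pool.Agent.N202.M4
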