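import Mathlib

/-!
# Matrices of a commutative algebra of endomorphisms
-/

set_option autoImplicit false

namespace Pool.Agent.N202.M4

open Matrix

/-- The product of the combinations. -/
theorem mat_comb {M : Type} [Group M] {n : ℕ} (Φ : M → Fin n → Fin n → ℚ) (q : Fin n → ℚ)
    (hT : ∀ x i k, Φ x i k = Φ x⁻¹ k i)
    (hmul : ∀ x y i k, ∑ a, Φ x i a * (q a)⁻¹ * Φ y a k = Φ (x * y) i k)
    {K : Type} [Field K] [CharZero K] (S : Finset M) (d : M → ℚ) (S' : Finset M) (d' : M → K)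
    (G T : Matrix (Fin n) (Fin n) K)
    (hG : G = Matrix.of fun i k => ∑ x ∈ S, (d x : K) * (Φ x i k : K))
    (hTT : T = Matrix.of fun i k => ∑ x ∈ S', d' x * ((Φ x i k * (q k)⁻¹ : ℚ) : K)) (i k : Fin n) :
    (T * G * T.transpose) i k = ∑ t ∈ S' ×ˢ (S ×ˢ S'), d' t.1 * (d t.2.1 : K) * d' t.2.2 *
      (Φ (t.1 * t.2.1 * t.2.2⁻¹) i k : K) := by
  classical
  let P : M → Matrix (Fin n) (Fin n) ℚ := fun x => Matrix.of (Φ x)
  let Q' : Matrix (Fin n) (Fin n) ℚ := Matrix.diagonal fun a => (q a)⁻¹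
  let c : ℚ →+* K := Rat.castHom K
  have hP : ∀ x y, P x * Q' * P y = P (x * y) := by
    intro x y
    ext i k
    rw [Matrix.mul_apply]
    have h1 : ∀ a, (P x * Q') i a = Φ x i a * (q a)⁻¹ := by
      intro a
      rw [Matrix.mul_diagonal]
      rfl
    rw [Finset.sum_congr rfl fun a _ => by rw [h1]]
    exact hmul x y i k
  have hPt : ∀ x, (P x)ᵀ = P x⁻¹ := by
    intro x
    ext i k
    exact hT x k i
  have key : ∀ x w y, P x * Q' * P w * (P y * Q')ᵀ = P (x * w * y⁻¹) := by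
    intro x w y
    rw [Matrix.transpose_mul, hPt, Matrix.diagonal_transpose, hP, ← Matrix.mul_assoc, hP]
  have hG' : G = ∑ w ∈ S, (d w : K) • (P w).map c := by
    rw [hG]
    ext a b
    rw [Matrix.sum_apply]
    rfl
  have hT' : T = ∑ x ∈ S', d' x • (P x * Q').map c := by
    rw [hTT]
    ext a b
    rw [Matrix.sum_apply]
    refine Finset.sum_congr rfl fun x _ => ?_
    rw [Matrix.smul_apply, Matrix.map_apply, Matrix.mul_diagonal, smul_eq_mul]
    rfl
  have hTt : Tᵀ = ∑ y ∈ S', d' y • ((P y * Q')ᵀ).map c := by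
    rw [hT', Matrix.transpose_sum]
    refine Finset.sum_congr rfl fun x _ => ?_
    rw [Matrix.transpose_smul, Matrix.transpose_map]
  have hprod : ∀ x w y, (P x * Q').map c * (P w).map c * ((P y * Q')ᵀ).map c =
      (P (x * w * y⁻¹)).map c := by
    intro x w y
    rw [← Matrix.map_mul, ← Matrix.map_mul, key]
  have hfin : T * G * Tᵀ = ∑ t ∈ S' ×ˢ (S ×ˢ S'), (d' t.1 * (d t.2.1 : K) * d' t.2.2) •
      (P (t.1 * t.2.1 * t.2.2⁻¹)).map c := by
    rw [hTt, hT', hG', Finset.sum_mul_sum, Finset.sum_product, Finset.sum_mul]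
    refine Finset.sum_congr rfl fun x _ => ?_
    rw [Finset.sum_product, Finset.sum_mul]
    refine Finset.sum_congr rfl fun w _ => ?_
    rw [Finset.mul_sum]
    refine Finset.sum_congr rfl fun y _ => ?_
    rw [smul_mul_smul_comm, smul_mul_smul_comm, hprod]
  rw [hfin, Matrix.sum_apply]
  rfl

end Pool.Agent.N202.M4
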