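import Pool.Agent.N202.M4.Place2

/-!
# The local data for all words
-/

set_option autoImplicit false
set_option linter.unusedSectionVars false
set_option linter.unusedVariables false

namespace Pool.Agent.N202.M4

open NumberField Pool.Agent.H204R3.CM Pool.Agent.W547.KB Pool.Agent.W547.LD Pool.Agent.W547.HR
  Pool.Agent.W495.TA Module Pool.Agent.TH117.PO Pool.Agent.W976.TA Pool.Agent.W417.TA
  Pool.Agent.TH117.BL Pool.Agent.W495.TC Pool.Agent.W495.TB Pool.Agent.TH117.F5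
  Pool.Agent.N202.QR
open scoped TensorProduct

noncomputable section

variable {p : ℕ} [Fact p.Prime] {ν : PadicAlgCl p ≃+* ℂ}
  {L : Type} [Field L] [NumberField L] [IsCMField L] [IsGalois ℚ L]

/-- The exponents of words. -/
abbrev Exps (L : Type) [Field L] [NumberField L] [IsCMField L] [IsGalois ℚ L] (X : CMAV)
    (κ : Type) [Fintype κ] : Type := {o : Wt X L → ℤ // ∃ t : κ → Wt X L, oc t = o}

/-- The action of the Galois group on the exponents of words. -/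
@[reducible] def expsAct (j : L →+* ℂ) (X : CMAV) (κ : Type) [Fintype κ] :
    MulAction (L ≃ₐ[ℚ] L) (Exps L X κ) where
  smul σ a := ⟨actO σ a.1, by
    obtain ⟨t, ht⟩ := a.2
    exact ⟨fun k => sw σ (t k), by rw [oc_sw j, ht]⟩⟩
  one_smul a := Subtype.ext (actO_one a.1)
  mul_smul σ τ a := Subtype.ext (actO_mul σ τ a.1)

variable {Ω : Nat.Primes → Type} [∀ l, Field (Ω l)] [∀ l, CharZero (Ω l)]
  [∀ l : Nat.Primes, Algebra ℚ_[(l : ℕ)] (Ω l)] [∀ l, IsAlgClosed (Ω l)]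
  {C : (Y : RedAV p ν) → (κ : Type) → FCl Ω Y κ → Prop} {j : L →+* ℂ}

/-- **The local data for all words.** -/
theorem exists_cdata (hdec : S_DEC) (hC : IsCompatible Ω C) (l0 : Nat.Primes)
    (hR : IsRosatiPositive (Ω l0) (atPrime C l0)) (jO : ∀ l, L →+* Ω l)
    {Y : RedAV p ν} (hY : Big Y.X j) [Fintype (Wt Y.X L)]
    {κ : Type} [Fintype κ] [DecidableEq κ] (heven : Even (Fintype.card κ))
    (hT : ∀ t : κ → Wt Y.X L, Function.Injective t → ∀ c c' : Ω l0,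
      Ln (jO l0) (atPrime C l0) Y t c c' → c ≠ 0 → ∀ g, ∑ k, tf p ν j (St j (t k)) g = 0) :
    ∃ (c : ∀ l, (κ → Wt Y.X L) → Ω l) (μ : (κ → Wt Y.X L) → L), (∀ t, μ t ≠ 0) ∧
      (∀ l t, c l t * c l (fun k => bar (t k)) = jO l (μ t)) ∧
      (∃ (S : Finset (Y.X.H1)ˣ) (d : (Y.X.H1)ˣ → ℚ), ∀ t : κ → Wt Y.X L,
        ∑ x ∈ S, (d x : L) * chr t (uu x) = (μ t)⁻¹) ∧
      (∀ l : Nat.Primes, ∃ (S : Finset (Y.X.H1)ˣ) (d : (Y.X.H1)ˣ → ℚ_[(l : ℕ)]), ∀ t : κ → Wt Y.X L,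
        ∑ x ∈ S, algebraMap ℚ_[(l : ℕ)] (Ω l) (d x) * jO l (chr t (uu x)) = c l t) ∧
      ∀ t : κ → Wt Y.X L, Function.Injective t → ∀ b b' : Ω l0,
        Ln (jO l0) (atPrime C l0) Y t b b' → b * b' ≠ 0 → ∃ m : L, b * b' = jO l0 m ∧
          PosC (j m * (∏ k, Pool.Agent.TH117.PO.sgn j (t k)) * j (μ t)) := by
  classical
  let Ψ : Type := Exps L Y.X κ
  let act : MulAction (L ≃ₐ[ℚ] L) Ψ := expsAct j Y.X κ
  have hfin : Finite Ψ := Set.finite_range (fun t : κ → Wt Y.X L => oc t)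
  let : Fintype Ψ := Fintype.ofFinite Ψ
  have hP : ∀ a : Ψ, Nonempty (PData C j jO l0 Y κ a.1) := fun a =>
    exists_pdata hdec hC l0 hR jO hY heven hT a.1
  let P : ∀ a : Ψ, PData C j jO l0 Y κ a.1 := fun a => Classical.choice (hP a)
  let X : ∀ l, Ψ → (L ≃ₐ[ℚ] L) → Ω l := fun l a => (P a).x l
  let M : Ψ → L := fun a => (P a).μ
  let r : Ψ → Ψ := fun a => Quotient.out (Quotient.mk (MulAction.orbitRel (L ≃ₐ[ℚ] L) Ψ) a)
  have hr : ∀ a, ∃ g : L ≃ₐ[ℚ] L, g • r a = a := by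
    intro a
    have h1 : MulAction.orbitRel (L ≃ₐ[ℚ] L) Ψ (r a) a := Quotient.mk_out (s :=
      MulAction.orbitRel (L ≃ₐ[ℚ] L) Ψ) a
    have h2 := (MulAction.orbitRel (L ≃ₐ[ℚ] L) Ψ).symm h1
    exact h2
  choose g hg using hr
  have hrs : ∀ (σ : L ≃ₐ[ℚ] L) a, r (σ • a) = r a := by
    intro σ a
    have h1 : Quotient.mk (MulAction.orbitRel (L ≃ₐ[ℚ] L) Ψ) (σ • a) =
        Quotient.mk (MulAction.orbitRel (L ≃ₐ[ℚ] L) Ψ) a := Quotient.sound ⟨σ, rfl⟩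
    change Quotient.out _ = Quotient.out _
    rw [h1]
  have hgs : ∀ (σ : L ≃ₐ[ℚ] L) a, ∃ τ : L ≃ₐ[ℚ] L, actO τ (r a).1 = (r a).1 ∧
      g (σ • a) = σ * g a * τ := by
    intro σ a
    refine ⟨(σ * g a)⁻¹ * g (σ • a), ?_, (mul_inv_cancel_left _ _).symm⟩
    have h1 : ((σ * g a)⁻¹ * g (σ • a)) • r a = r a := by
      have h2 : g (σ • a) • r a = (σ * g a) • r a := by
        have h3 := hg (σ • a)
        rw [hrs] at h3
        rw [h3, mul_smul, hg]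
      rw [mul_smul, h2, inv_smul_smul]
    exact congrArg Subtype.val h1
  have hX : ∀ l (σ : L ≃ₐ[ℚ] L) a, X l (r (σ • a)) (g (σ • a)) = X l (r a) (σ * g a) := by
    intro l σ a
    obtain ⟨τ, h1, h2⟩ := hgs σ a
    rw [hrs, h2]
    exact (P (r a)).inv l _ τ h1
  have hM : ∀ (σ : L ≃ₐ[ℚ] L) a, (g (σ • a)) (M (r (σ • a))) = σ ((g a) (M (r a))) := by
    intro σ a
    obtain ⟨τ, h1, h2⟩ := hgs σ a
    rw [hrs, h2]
    exact (P (r a)).fix _ τ h1
  let q : (κ → Wt Y.X L) → Ψ := fun t => ⟨oc t, t, rfl⟩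
  have hqb : ∀ t, q (fun k => bar (t k)) = cc L • q t := fun t =>
    Subtype.ext (actO_cc j t).symm
  let ψ : Ψ → (Y.X.H1)ˣ →* L := fun a => psi a.1
  have hψ : Function.Injective ψ := fun a b h => Subtype.ext (psi_injective h)
  have hact : ∀ (σ : L ≃ₐ[ℚ] L) a x, ψ (σ • a) x = σ (ψ a x) := fun σ a x => psi_actO σ a.1 x
  have hM0 : ∀ a, (g a) (M (r a)) ≠ 0 := fun a => (map_ne_zero (g a)).2 (P (r a)).ne
  refine ⟨fun l t => X l (r (q t)) (g (q t)), fun t => (g (q t)) (M (r (q t))),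
    fun t => hM0 _, ?_, ?_, ?_, ?_⟩
  · intro l t
    dsimp only
    rw [hqb, hX]
    exact (P (r (q t))).mul l (g (q t))
  · obtain ⟨S, d, hd⟩ := exists_rat ψ hψ hact (fun a => ((g a) (M (r a)))⁻¹) (fun σ a => by
      rw [hM, map_inv₀])
    refine ⟨S, d, fun t => ?_⟩
    dsimp only
    rw [← hd (q t)]
    exact Finset.sum_congr rfl fun x _ => by rw [chr_uu j]
  · intro l
    obtain ⟨S, d, hd⟩ := isRep_of ψ hψ hact jO (l := l) (fun a => X l (r a) (g a)) (fun a => by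
      have h1 : (fun σ : L ≃ₐ[ℚ] L => X l (r (σ • a)) (g (σ • a))) = fun σ =>
        X l (r a) (σ * g a) := funext fun σ => hX l σ a
      rw [h1]
      exact SS_right jO l (g a) ((P (r a)).mem l))
    refine ⟨S, d, fun t => ?_⟩
    refine Eq.trans ?_ (hd (q t))
    exact Finset.sum_congr rfl fun x _ => by rw [chr_uu j]
  · intro t ht b b' hL hbb
    have h1 : actO (g (q t)) (r (q t)).1 = oc t := congrArg Subtype.val (hg (q t))
    exact (P (r (q t))).sign (g (q t)) t ht h1.symm b b' hL hbb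

end

end Pool.Agent.N202.M4
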