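import Pool.Agent.N202.M4.Orth
import Pool.Agent.N202.M4.Mat
import Pool.Agent.N202.M4.Place3

/-!
# The local isometries and the positive definite form
-/

set_option autoImplicit false
set_option linter.unusedSectionVars false
set_option linter.unusedVariables false

namespace Pool.Agent.N202.M4

open NumberField Pool.Agent.H204R3.CM Pool.Agent.W547.KB Pool.Agent.W547.LD Pool.Agent.W547.HR
  Pool.Agent.W495.TA Module Pool.Agent.W976.TA Equiv Pool.Agent.TH117.PO Pool.Agent.N202.QR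
open scoped TensorProduct

noncomputable section

variable {p : ℕ} [Fact p.Prime] {ν : PadicAlgCl p ≃+* ℂ}
  {L : Type} [Field L] [NumberField L] [IsCMField L] [IsGalois ℚ L] {j : L →+* ℂ}
  {Ω : Nat.Primes → Type} [∀ l, Field (Ω l)] [∀ l, CharZero (Ω l)]
  [∀ l : Nat.Primes, Algebra ℚ_[(l : ℕ)] (Ω l)]
  {C : (Y : RedAV p ν) → (κ : Type) → FCl Ω Y κ → Prop}
  {jO : ∀ l, L →+* Ω l} {Y : RedAV p ν}

section

variable (hC : IsCompatible Ω C) (hY : Big Y.X j)
  (e : ∀ l, Basis (Wt Y.X L) (Ω l) (TM (Ω l) Y))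
  (h1 : ∀ l w, co (jO l) w (e l w) = 1) (h0 : ∀ l w w', w ≠ w' → co (jO l) w (e l w') = 0)

include hC hY h1 h0 in
/-- The products of coefficients do not depend on the prime number. -/
theorem exists_lam {κ : Type} [Fintype κ] [DecidableEq κ] {Z W : FCl Ω Y κ} (hZ : C Y κ Z)
    (hW : C Y κ W) (s : κ → Wt Y.X L) :
    ∃ a : L, ∀ l, (Z l fun k => e l (s k)) * (W l fun k => e l (bar (s k))) = jO l a := by
  by_cases hs : Function.Injective s
  · have hs' : Function.Injective fun k => bar (s k) := fun k k' hk => hs (bar_injective hk)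
    have : Nonempty Nat.Primes := ⟨⟨2, Nat.prime_two⟩⟩
    exact two_linesF hC.toIsFam j hY hs (LnF_coef hC.toIsFam j hY e h1 h0 hZ hs)
      (LnF_coef hC.toIsFam j hY e h1 h0 hW hs')
  · refine ⟨0, fun l => ?_⟩
    rw [map_zero]
    obtain ⟨k, k', h2, h3⟩ : ∃ k k', s k = s k' ∧ k ≠ k' := by
      by_contra hcon
      push Not at hcon
      exact hs fun k k' h => hcon k k' h
    have h4 : (Z l fun k => e l (s k)) = 0 := (Z l).map_eq_zero_of_eq _ (by rw [h2]) h3
    rw [h4, zero_mul]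

include hC hY h1 h0 in
/-- Rational values of the sums over the words do not depend on the prime number. -/
theorem transfer {α : Y.X.H1} {κ : Type} [Fintype κ] [DecidableEq κ] {Z W : FCl Ω Y κ}
    (hZ : C Y κ Z) (hW : C Y κ W) (g : (κ → Wt Y.X L) → L) (l0 : Nat.Primes) (a b : ℚ)
    (h : (b : Ω l0) * S1 (jO l0) (e l0) α (fun s => jO l0 (g s)) (Z l0) (W l0) = a)
    (l : Nat.Primes) :
    (b : Ω l) * S1 (jO l) (e l) α (fun s => jO l (g s)) (Z l) (W l) = a := by
  choose lam hlam using exists_lam (jO := jO) hC hY e h1 h0 hZ hW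
  have h2 : ∀ l, S1 (jO l) (e l) α (fun s => jO l (g s)) (Z l) (W l) =
      jO l (∑ s, lam s * (∏ k, ev α (s k))⁻¹ * g s) := by
    intro l
    unfold S1
    rw [map_sum]
    refine Finset.sum_congr rfl fun s _ => ?_
    rw [map_mul, map_mul, hlam]
  rw [h2] at h ⊢
  have h3 : (b : L) * (∑ s, lam s * (∏ k, ev α (s k))⁻¹ * g s) = (a : L) := by
    apply (jO l0).injective
    rw [map_mul, map_ratCast, map_ratCast, h]
  rw [← map_ratCast (jO l) b, ← map_mul, h3, map_ratCast]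

end

/-- The sums over the words with the squares of the coefficients. -/
theorem term_pos' {l0 : Nat.Primes} (e : Basis (Wt Y.X L) (Ω l0) (TM (Ω l0) Y))
    {α : Y.X.H1} (hα : IsPolar Y.X α) {r : ℕ} {s : Fin r × Fin 2 → Wt Y.X L} {a μ : L}
    (hμ : μ ≠ 0) (hreal : cc L μ = μ)
    (hpos : PosC (j a * (∏ k, Pool.Agent.TH117.PO.sgn j (s k)) * j μ)) :
    PosC (j (a * (∏ k, ev α (s k))⁻¹ * μ⁻¹)) := by
  have h6 : PosC (∏ k, (j (ev α (bar (s k))) * Pool.Agent.TH117.PO.sgn j (s k))) :=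
    PosC.prod _ _ fun k _ => polar_sign j hα (s k)
  rw [Finset.prod_mul_distrib] at h6
  have h7 : ∏ k, j (ev α (bar (s k))) = ∏ k, j (ev α (s k)) := by
    rw [Fintype.prod_prod_type, Fintype.prod_prod_type]
    refine Finset.prod_congr rfl fun i _ => ?_
    rw [Fin.prod_univ_two, Fin.prod_univ_two, ev_bar_polar j hα, ev_bar_polar j hα, map_neg,
      map_neg]
    ring
  rw [h7] at h6
  have h8 := (hpos.mul h6.inv).mul (PosC.norm j hμ).inv
  have h9 : j (a * (∏ k, ev α (s k))⁻¹ * μ⁻¹) =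
      (j a * (∏ k, Pool.Agent.TH117.PO.sgn j (s k)) * j μ) *
      ((∏ k, j (ev α (s k))) * ∏ k, Pool.Agent.TH117.PO.sgn j (s k))⁻¹ * (j (μ * cc L μ))⁻¹ := by
    have e1 : ∏ k, Pool.Agent.TH117.PO.sgn j (s k) ≠ 0 :=
      Finset.prod_ne_zero_iff.2 fun k _ => sgn_ne j (s k)
    have e2 : j μ ≠ 0 := (map_ne_zero j).2 hμ
    rw [hreal, map_mul, map_mul, map_inv₀, map_inv₀, map_prod, mul_inv, map_mul j μ]
    field_simp
  rw [h9]
  exact h8

variable [∀ l, IsAlgClosed (Ω l)]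

/-- **The number of negative squares is divisible by four.** -/
theorem mod_four_words (hdec : S_DEC) (hC : IsCompatible Ω C) (l0 : Nat.Primes)
    (hR : IsRosatiPositive (Ω l0) (atPrime C l0)) (jO : ∀ l, L →+* Ω l)
    (hY : Big Y.X j) (e : ∀ l, Basis (Wt Y.X L) (Ω l) (TM (Ω l) Y))
    (h1 : ∀ l w, co (jO l) w (e l w) = 1) (h0 : ∀ l w w', w ≠ w' → co (jO l) w (e l w') = 0)
    {α : Y.X.H1} (hα : IsPolar Y.X α) {r m : ℕ} (hrm : 2 * (2 * r + m) = finrank ℚ Y.X.H1)
    (hT : ∀ t : Fin r × Fin 2 → Wt Y.X L, Function.Injective t → ∀ c c' : Ω l0,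
      Ln (jO l0) (atPrime C l0) Y t c c' → c ≠ 0 → ∀ g, ∑ k, tf p ν j (St j (t k)) g = 0)
    {P : ((TM (Ω l0) Y) [⋀^Fin r × Fin 2]→ₗ[Ω l0] Ω l0) → Prop}
    (hP : IsStableSpace (atPrime C l0) α m P)
    {n : ℕ} {z : Fin n → (TM (Ω l0) Y) [⋀^Fin r × Fin 2]→ₗ[Ω l0] Ω l0} {q : Fin n → ℚ}
    (h : IsOrthBasis α m P z q) :
    ∃ G : Matrix (Fin n) (Fin n) ℚ, G.transpose = G ∧
      (∀ v : Fin n → ℚ, v ≠ 0 → 0 < ∑ i, ∑ k, v i * G i k * v k) ∧
      (∀ w, P w → ¬ IsNumTrivial (Ω l0) (atPrime C l0) w → ¬ ∀ y, P y → HasPairing α m w y 0) ∧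
      ∀ l : Nat.Primes, ∃ T : Matrix (Fin n) (Fin n) ℚ_[(l : ℕ)],
        T * G.map (fun x => (x : ℚ_[(l : ℕ)])) * T.transpose =
          Matrix.diagonal fun i => (q i : ℚ_[(l : ℕ)]) := by
  classical
  have hC0 := hC.cycle l0
  have heven : Even (Fintype.card (Fin r × Fin 2)) := by
    rw [Fintype.card_prod, Fintype.card_fin, Fintype.card_fin]
    exact even_two.mul_left r
  obtain ⟨c, μ, hμ0, hcc, ⟨S, d, hd⟩, hrep, hsign⟩ :=
    exists_cdata hdec hC l0 hR jO hY heven hT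
  obtain ⟨Φ, hΦ, hΦ1, hΦt, hΦm⟩ := exists_phi hC0 hP hY (e l0) (h1 l0) (h0 l0) hα hrm h
  choose Z hZ hZz using fun i => hP.mem _ (h.mem i)
  have hbb : ∀ s : Fin r × Fin 2 → Wt Y.X L, (fun k => bar (bar (s k))) = s := fun s =>
    funext fun k => bar_bar _
  -- the function `μ` is real
  have hμb : ∀ s, μ (fun k => bar (s k)) = μ s := by
    intro s
    apply (jO l0).injective
    rw [← hcc, ← hcc, hbb, mul_comm]
  have hμr : ∀ s, cc L (μ s) = μ s := by
    intro s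
    have h2 := congrArg (cc L) (hd s)
    rw [map_sum, map_inv₀] at h2
    have h3 : ∀ x ∈ S, cc L ((d x : L) * chr s (uu x)) =
        (d x : L) * chr (fun k => bar (s k)) (uu x) := by
      intro x _
      rw [map_mul, map_ratCast, chr_bar_cc]
    rw [Finset.sum_congr rfl h3, hd, hμb] at h2
    exact (inv_injective h2).symm
  -- the values for all primes
  have hΦl : ∀ (l : Nat.Primes) x i k, (cD r m : Ω l) *
      S1 (jO l) (e l) α (fun s => jO l (chr s (uu x))) (Z i l) (Z k l) = (Φ x i k : Ω l) := by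
    intro l x i k
    refine transfer hC hY e h1 h0 (hZ i) (hZ k) (fun s => chr s (uu x)) l0 (Φ x i k) (cD r m) ?_ l
    rw [hZz, hZz]
    exact hΦ x i k
  let G : Matrix (Fin n) (Fin n) ℚ := Matrix.of fun i k => ∑ x ∈ S, d x * Φ x i k
  have hGv : ∀ i k, (G i k : Ω l0) = (cD r m : Ω l0) *
      S1 (jO l0) (e l0) α (fun s => jO l0 (μ s)⁻¹) (z i) (z k) := by
    intro i k
    have h2 : (fun s : Fin r × Fin 2 → Wt Y.X L => jO l0 (μ s)⁻¹) =
        fun s => ∑ x ∈ S, (d x : Ω l0) * jO l0 (chr s (uu x)) := by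
      funext s
      rw [← hd s, map_sum]
      refine Finset.sum_congr rfl fun x _ => ?_
      rw [map_mul, map_ratCast]
    rw [h2, S1_wt_sum, Finset.mul_sum]
    change ((∑ x ∈ S, d x * Φ x i k : ℚ) : Ω l0) = _
    rw [Rat.cast_sum]
    refine Finset.sum_congr rfl fun x _ => ?_
    rw [Rat.cast_mul, ← hΦ]
    ring
  -- positivity of the modified form
  have hposw : ∀ w, P w → (∃ s : Fin r × Fin 2 → Wt Y.X L,
      (w fun k => e l0 (s k)) * (w fun k => e l0 (bar (s k))) ≠ 0) → ∃ γ : L, PosC (j γ) ∧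
        jO l0 γ = (cD r m : Ω l0) * S1 (jO l0) (e l0) α (fun s => jO l0 (μ s)⁻¹) w w := by
    intro w hwP hexs
    obtain ⟨s0, hs0⟩ := hexs
    have key : ∀ s : Fin r × Fin 2 → Wt Y.X L, ∃ a : L,
        (w fun k => e l0 (s k)) * (w fun k => e l0 (bar (s k))) *
          jO l0 (∏ k, ev α (s k))⁻¹ * jO l0 (μ s)⁻¹ = jO l0 a ∧
        (((w fun k => e l0 (s k)) * (w fun k => e l0 (bar (s k))) ≠ 0 → PosC (j a)) ∧
          ∃ t : ℝ, 0 ≤ t ∧ j a = t) := by
      intro s
      by_cases hs : (w fun k => e l0 (s k)) * (w fun k => e l0 (bar (s k))) = 0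
      · refine ⟨0, ?_, fun h => absurd hs h, 0, le_rfl, by simp⟩
        rw [hs, map_zero, zero_mul, zero_mul]
      · have hsi : Function.Injective s := by
          intro k k' hk
          by_contra hne
          refine left_ne_zero_of_mul hs (w.map_eq_zero_of_eq _ ?_ hne)
          rw [hk]
        obtain ⟨a, h2, h3⟩ := hsign s hsi _ _
          (Ln_coef hC0 j hY (e l0) (h1 l0) (h0 l0) (hP.mem _ hwP) hsi) hs
        have h4 := term_pos' (Ω := Ω) (e l0) hα (hμ0 s) (hμr s) h3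
        refine ⟨a * (∏ k, ev α (s k))⁻¹ * (μ s)⁻¹, ?_, fun _ => h4, ?_⟩
        · rw [h2, map_mul, map_mul]
        · obtain ⟨t, ht, ht2⟩ := h4
          exact ⟨t, ht.le, ht2⟩
    choose a ha hap t ht hat using key
    refine ⟨(cD r m : L) * ∑ s, a s, ?_, ?_⟩
    · have h2 : PosC (j (∑ s, a s)) := by
        refine ⟨∑ s, t s, ?_, ?_⟩
        · refine Finset.sum_pos' (fun s _ => ht s) ⟨s0, Finset.mem_univ s0, ?_⟩
          obtain ⟨t', ht', h5⟩ := hap s0 hs0
          rw [hat] at h5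
          have h6 : t s0 = t' := by exact_mod_cast h5
          rw [h6]
          exact ht'
        · rw [map_sum]
          push_cast
          exact Finset.sum_congr rfl fun s _ => hat s
      rw [map_mul, map_ratCast]
      refine PosC.mul ⟨(cD r m : ℝ), by exact_mod_cast cD_pos r m, ?_⟩ h2
      push_cast
      rfl
    · rw [map_mul, map_ratCast, map_sum]
      congr 1
      unfold S1
      exact Finset.sum_congr rfl fun s _ => (ha s).symm
  have hμS : (fun s : Fin r × Fin 2 → Wt Y.X L => jO l0 (μ s)⁻¹) =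
      fun s => ∑ x ∈ S, (d x : Ω l0) * jO l0 (chr s (uu x)) := by
    funext s
    rw [← hd s, map_sum]
    refine Finset.sum_congr rfl fun x _ => ?_
    rw [map_mul, map_ratCast]
  refine ⟨G, ?_, ?_, ?_, ?_⟩
  · -- symmetry
    ext i k
    rw [Matrix.transpose_apply]
    have h2 : ((G k i : ℚ) : Ω l0) = ((G i k : ℚ) : Ω l0) := by
      rw [hGv, hGv, S1_bar (e l0) hα j]
      simp only [hμb]
    exact_mod_cast h2
  · -- positivity
    intro v hv
    set w : (TM (Ω l0) Y) [⋀^Fin r × Fin 2]→ₗ[Ω l0] Ω l0 := ∑ i, ((v i : ℚ) : Ω l0) • z i with hw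
    have hwP : P w := P_comb hP _ _ _ h.mem
    have hsum : (((∑ i, ∑ k, v i * G i k * v k : ℚ)) : Ω l0) = (cD r m : Ω l0) *
        S1 (jO l0) (e l0) α (fun s => jO l0 (μ s)⁻¹) w w := by
      rw [hw, S1_comb_left, Finset.mul_sum, Rat.cast_sum]
      refine Finset.sum_congr rfl fun i _ => ?_
      rw [S1_comb_right, Finset.mul_sum, Finset.mul_sum, Rat.cast_sum]
      refine Finset.sum_congr rfl fun k _ => ?_
      rw [Rat.cast_mul, Rat.cast_mul, hGv]
      ring
    obtain ⟨i0, hi0⟩ : ∃ i, v i ≠ 0 := by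
      by_contra hcon
      push Not at hcon
      exact hv (funext hcon)
    obtain ⟨s0, hs0⟩ : ∃ s : Fin r × Fin 2 → Wt Y.X L,
        (w fun k => e l0 (s k)) * (w fun k => e l0 (bar (s k))) ≠ 0 := by
      refine ne_of_pair hC0 hP hY (e l0) (h1 l0) (h0 l0) hα hrm hwP (h.mem i0) (fun _ => 1) ?_
      intro h2
      have h3 : (cD r m : Ω l0) * S1 (jO l0) (e l0) α (fun _ => 1) w (z i0) =
          ((v i0 * q i0 : ℚ) : Ω l0) := by
        rw [hw, S1_comb_left, Finset.mul_sum]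
        have h4 : ∀ i, (cD r m : Ω l0) * (((v i : ℚ) : Ω l0) *
            S1 (jO l0) (e l0) α (fun _ => 1) (z i) (z i0)) =
            if i = i0 then ((v i * q i : ℚ) : Ω l0) else 0 := by
          intro i
          have h5 := (hasPairing_iff (e l0) (h1 l0) (h0 l0) hY hα hrm (hP.prim _ (h.mem i))
            (hP.prim _ (h.mem i0)) _).1 (h.pair i i0)
          rw [mul_left_comm, h5]
          split_ifs with h6
          · rw [Rat.cast_mul]
          · rw [Rat.cast_zero, mul_zero]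
        rw [Finset.sum_congr rfl fun i _ => h4 i, Finset.sum_ite_eq' Finset.univ i0,
          if_pos (Finset.mem_univ _)]
      rw [h2, mul_zero] at h3
      have h4 : (v i0 * q i0 : ℚ) = 0 := by exact_mod_cast h3.symm
      exact mul_ne_zero hi0 (h.ne i0) h4
    obtain ⟨γ, hγ, hγ2⟩ := hposw w hwP ⟨s0, hs0⟩
    exact rat_of_pos j (jO l0) hγ (hγ2.trans hsum.symm)
  · -- classes which are not numerically trivial
    intro w hwP hnt hall
    obtain ⟨s0, hs0⟩ : ∃ s : Fin r × Fin 2 → Wt Y.X L,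
        (w fun k => e l0 (s k)) * (w fun k => e l0 (bar (s k))) ≠ 0 := by
      by_contra hcon
      push Not at hcon
      exact hnt (numTriv_of hC0 hY (e l0) (h1 l0) (h0 l0) (hP.mem _ hwP) fun s _ => hcon s)
    obtain ⟨γ, hγ, hγ2⟩ := hposw w hwP ⟨s0, hs0⟩
    have h2 : ∀ x, (cD r m : Ω l0) *
        S1 (jO l0) (e l0) α (fun s => jO l0 (chr s (uu x))) w w = 0 := by
      intro x
      have h3 := (hasPairing_iff (e l0) (h1 l0) (h0 l0) hY hα hrm (hP.prim _ hwP)
        (hP.prim _ (P_pb hP x⁻¹ hwP)) _).1 (hall _ (P_pb hP x⁻¹ hwP))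
      rw [S1_pb_right (e l0) (h1 l0) (h0 l0) j, Rat.cast_zero] at h3
      simp only [mul_one] at h3
      exact h3
    have h3 : jO l0 γ = 0 := by
      rw [hγ2, hμS, S1_wt_sum, Finset.mul_sum]
      refine Finset.sum_eq_zero fun x _ => ?_
      rw [mul_left_comm, h2, mul_zero]
    have h4 : γ = 0 := (map_eq_zero (jO l0)).1 h3
    exact hγ.ne (by rw [h4, map_zero])
  · -- the local isometries
    intro l
    obtain ⟨S', d', hd'⟩ := hrep l
    refine ⟨Matrix.of fun i k => ∑ x ∈ S', d' x * ((Φ x i k * (q k)⁻¹ : ℚ) : ℚ_[(l : ℕ)]), ?_⟩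
    ext i k
    rw [mat_comb Φ q hΦt hΦm S d S' d' _ _ (by
      ext i k
      change (((∑ x ∈ S, d x * Φ x i k : ℚ)) : ℚ_[(l : ℕ)]) = _
      rw [Rat.cast_sum]
      exact Finset.sum_congr rfl fun x _ => Rat.cast_mul _ _) rfl]
    apply (algebraMap ℚ_[(l : ℕ)] (Ω l)).injective
    have h2 : algebraMap ℚ_[(l : ℕ)] (Ω l) (∑ t ∈ S' ×ˢ (S ×ˢ S'), d' t.1 *
        (d t.2.1 : ℚ_[(l : ℕ)]) * d' t.2.2 *
        (Φ (t.1 * t.2.1 * t.2.2⁻¹) i k : ℚ_[(l : ℕ)])) = (cD r m : Ω l) *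
        S1 (jO l) (e l) α (fun s => ∑ t ∈ S' ×ˢ (S ×ˢ S'),
          (algebraMap ℚ_[(l : ℕ)] (Ω l) (d' t.1) * (d t.2.1 : Ω l) *
            algebraMap ℚ_[(l : ℕ)] (Ω l) (d' t.2.2)) *
              jO l (chr s (uu (t.1 * t.2.1 * t.2.2⁻¹)))) (Z i l) (Z k l) := by
      rw [S1_wt_sum, Finset.mul_sum, map_sum]
      refine Finset.sum_congr rfl fun t _ => ?_
      rw [map_mul, map_mul, map_mul, map_ratCast, map_ratCast, ← hΦl]
      ring
    rw [h2]
    have h3 : ∀ s : Fin r × Fin 2 → Wt Y.X L, ∑ t ∈ S' ×ˢ (S ×ˢ S'),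
          (algebraMap ℚ_[(l : ℕ)] (Ω l) (d' t.1) * (d t.2.1 : Ω l) *
            algebraMap ℚ_[(l : ℕ)] (Ω l) (d' t.2.2)) *
              jO l (chr s (uu (t.1 * t.2.1 * t.2.2⁻¹))) = jO l (chr s (uu 1)) := by
      intro s
      have e1 : jO l (chr s (uu 1)) = (∑ x ∈ S', algebraMap ℚ_[(l : ℕ)] (Ω l) (d' x) *
          jO l (chr s (uu x))) * ((∑ x ∈ S, (d x : Ω l) * jO l (chr s (uu x))) *
          ∑ x ∈ S', algebraMap ℚ_[(l : ℕ)] (Ω l) (d' x) * jO l (chr s (uu x⁻¹))) := by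
        have e2 : ∑ x ∈ S', algebraMap ℚ_[(l : ℕ)] (Ω l) (d' x) * jO l (chr s (uu x⁻¹)) =
            c l fun k => bar (s k) := by
          rw [← hd']
          exact Finset.sum_congr rfl fun x _ => by rw [chr_bar_uu j]
        have e3 : ∑ x ∈ S, (d x : Ω l) * jO l (chr s (uu x)) = (jO l (μ s))⁻¹ := by
          rw [← map_inv₀, ← hd, map_sum]
          exact Finset.sum_congr rfl fun x _ => by rw [map_mul, map_ratCast]
        have e4 : jO l (μ s) ≠ 0 := (map_ne_zero (jO l)).2 (hμ0 s)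
        rw [hd', e2, e3, chr_uu_one, map_one, mul_left_comm, hcc, inv_mul_cancel₀ e4]
      rw [e1, Finset.sum_mul_sum, Finset.sum_mul_sum, Finset.sum_product]
      refine Finset.sum_congr rfl fun x _ => ?_
      rw [Finset.sum_product]
      refine Finset.sum_congr rfl fun w _ => ?_
      rw [Finset.mul_sum]
      refine Finset.sum_congr rfl fun y _ => ?_
      rw [chr_uu_mul, chr_uu_mul, map_mul, map_mul]
      ring
    rw [funext h3, hΦl, hΦ1, Matrix.diagonal_apply]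
    split_ifs
    · rw [map_ratCast]
    · rw [Rat.cast_zero, map_zero]

end

end Pool.Agent.N202.M4
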