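import Mathlib

/-!
# Rational quadratic forms: two statements
-/

set_option autoImplicit false

namespace Pool.Agent.N202.M4

/-- Part DIA: positive definite rational matrices can be diagonalized. -/
def S_DIA : Prop := ∀ (n : ℕ) (G : Matrix (Fin n) (Fin n) ℚ), G.transpose = G →
  (∀ v : Fin n → ℚ, v ≠ 0 → 0 < ∑ i, ∑ k, v i * G i k * v k) →
  ∃ (P : Matrix (Fin n) (Fin n) ℚ) (b : Fin n → ℚ), (∀ i, 0 < b i) ∧
    P * Matrix.diagonal b * P.transpose = G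

/-- Part EXI: maximal orthogonal families of anisotropic vectors exist. -/
def S_EXI : Prop := ∀ (V : Type) [AddCommGroup V] [Module ℚ V] (B : V → V → ℚ),
  (∀ x y, B x y = B y x) → (∀ x x' y, B (x + x') y = B x y + B x' y) →
  (∀ (a : ℚ) x y, B (a • x) y = a * B x y) → ∀ N : ℕ,
  (∀ (n : ℕ) (z : Fin n → V), (∀ i, B (z i) (z i) ≠ 0) → (∀ i k, i ≠ k → B (z i) (z k) = 0) →
    n ≤ N) →
  ∃ (n : ℕ) (z : Fin n → V), (∀ i, B (z i) (z i) ≠ 0) ∧ (∀ i k, i ≠ k → B (z i) (z k) = 0) ∧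
    ∀ w, (∀ i, B w (z i) = 0) → ∀ w', B w w' = 0

end Pool.Agent.N202.M4
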