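import Pool.Agent.N202.M4.Loc
import Pool.Agent.N202.M4.Stm2

/-!
# The structure of the form on primitive classes
-/

set_option autoImplicit false
set_option linter.unusedSectionVars false
set_option linter.unusedVariables false

namespace Pool.Agent.N202.M4

open NumberField Pool.Agent.H204R3.CM Pool.Agent.W547.KB Pool.Agent.W547.LD Pool.Agent.W547.HR
  Pool.Agent.W495.TA Module Pool.Agent.W976.TA Equiv Pool.Agent.TH117.PO Pool.Agent.N202.QR
  Pool.Agent.TH117.BL
open scoped TensorProduct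

noncomputable section

variable {p : ℕ} [Fact p.Prime] {ν : PadicAlgCl p ≃+* ℂ}

section one

variable {L : Type} [Field L] [NumberField L] [IsCMField L] [IsGalois ℚ L] {j : L →+* ℂ}
  {Ω : Type} [Field Ω] [CharZero Ω]
  {C : (Y : RedAV p ν) → (κ : Type) → ((TM Ω Y) [⋀^κ]→ₗ[Ω] Ω) → Prop}
  {jO : L →+* Ω} {Y : RedAV p ν} {α : Y.X.H1} {r m : ℕ}
  {P : ((TM Ω Y) [⋀^Fin r × Fin 2]→ₗ[Ω] Ω) → Prop}

/-- The rational vector space. -/
def Vsp (hP : IsStableSpace C α m P) : Submodule ℚ ((TM Ω Y) [⋀^Fin r × Fin 2]→ₗ[Ω] Ω) where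
  carrier := {z | P z}
  add_mem' := fun hz hw => hP.add _ _ hz hw
  zero_mem' := hP.zero
  smul_mem' := by
    intro a z hz
    have h1 : a • z = (a : Ω) • z := by
      refine AlternatingMap.ext fun v => ?_
      rw [AlternatingMap.smul_apply, AlternatingMap.smul_apply, Rat.smul_def, smul_eq_mul]
    rw [h1]
    exact hP.smul a z hz

/-- The form on the rational vector space. -/
theorem exists_form (hC : IsCycleSystem Ω C) (hP : IsStableSpace C α m P) (hB : Big Y.X j)
    (e : Basis (Wt Y.X L) Ω (TM Ω Y)) (h1 : ∀ w, co jO w (e w) = 1)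
    (h0 : ∀ w w', w ≠ w' → co jO w (e w') = 0) (hα : IsPolar Y.X α)
    (hrm : 2 * (2 * r + m) = finrank ℚ Y.X.H1) :
    ∃ B : Vsp hP → Vsp hP → ℚ, (∀ x y, B x y = B y x) ∧
      (∀ x x' y, B (x + x') y = B x y + B x' y) ∧ (∀ (a : ℚ) x y, B (a • x) y = a * B x y) ∧
      (∀ x y, HasPairing α m x.1 y.1 (B x y)) ∧
      (∀ x y q, HasPairing α m x.1 y.1 q → q = B x y) ∧
      ∀ (n : ℕ) (z : Fin n → Vsp hP), (∀ i, B (z i) (z i) ≠ 0) →
        (∀ i k, i ≠ k → B (z i) (z k) = 0) →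
          n ≤ Fintype.card (Fin r × Fin 2 → Wt Y.X L) := by
  classical
  have hex : ∀ x y : Vsp hP, ∃ q : ℚ, (cD r m : Ω) * S1 jO e α (fun _ => 1) x.1 y.1 = q :=
    fun x y => pair_rat e h1 h0 hC hB hα hrm (hP.prim _ x.2) (hP.prim _ y.2) (hP.mem _ x.2)
      (hP.mem _ y.2)
  choose B hBv using hex
  refine ⟨B, ?_, ?_, ?_, ?_, ?_, ?_⟩
  · intro x y
    have h2 : ((B x y : ℚ) : Ω) = ((B y x : ℚ) : Ω) := by
      rw [← hBv, ← hBv, S1_bar e hα j]
    exact_mod_cast h2
  · intro x x' y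
    have h2 : ((B (x + x') y : ℚ) : Ω) = ((B x y + B x' y : ℚ) : Ω) := by
      rw [Rat.cast_add, ← hBv, ← hBv, ← hBv, ← mul_add, ← S1_add_left]
      rfl
    exact_mod_cast h2
  · intro a x y
    have h2 : ((B (a • x) y : ℚ) : Ω) = ((a * B x y : ℚ) : Ω) := by
      have h3 : (a • x).1 = (a : Ω) • x.1 := by
        refine AlternatingMap.ext fun v => ?_
        change (a • x.1) v = _
        rw [AlternatingMap.smul_apply, AlternatingMap.smul_apply, Rat.smul_def, smul_eq_mul]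
      rw [Rat.cast_mul, ← hBv, ← hBv, h3, S1_smul_left]
      ring
    exact_mod_cast h2
  · intro x y
    exact (hasPairing_iff e h1 h0 hB hα hrm (hP.prim _ x.2) (hP.prim _ y.2) _).2 (hBv x y)
  · intro x y q hq
    have h2 := (hasPairing_iff e h1 h0 hB hα hrm (hP.prim _ x.2) (hP.prim _ y.2) _).1 hq
    rw [hBv] at h2
    exact_mod_cast h2.symm
  · intro n z hne horth
    have hli : LinearIndependent Ω fun i : Fin n =>
        (fun s : Fin r × Fin 2 → Wt Y.X L => (z i).1 fun k => e (s k)) := by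
      rw [Fintype.linearIndependent_iff]
      intro g hg k
      have h2 : ∑ i, g i * S1 jO e α (fun _ => 1) (z i).1 (z k).1 = 0 := by
        unfold S1
        have h3 : ∀ i, g i * ∑ s : Fin r × Fin 2 → Wt Y.X L, ((z i).1 fun k => e (s k)) *
            ((z k).1 fun k => e (bar (s k))) * jO (∏ k, ev α (s k))⁻¹ * 1 =
            ∑ s : Fin r × Fin 2 → Wt Y.X L, (g i * ((z i).1 fun k => e (s k))) *
              (((z k).1 fun k => e (bar (s k))) * jO (∏ k, ev α (s k))⁻¹) := by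
          intro i
          rw [Finset.mul_sum]
          exact Finset.sum_congr rfl fun s _ => by ring
        rw [Finset.sum_congr rfl fun i _ => h3 i, Finset.sum_comm]
        refine Finset.sum_eq_zero fun s _ => ?_
        rw [← Finset.sum_mul]
        have h4 := congrFun hg s
        rw [Finset.sum_apply] at h4
        have h5 : ∑ i, g i * ((z i).1 fun k => e (s k)) = 0 := h4
        rw [h5, zero_mul]
      have h3 : ∀ i, g i * S1 jO e α (fun _ => 1) (z i).1 (z k).1 =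
          if i = k then g k * S1 jO e α (fun _ => 1) (z k).1 (z k).1 else 0 := by
        intro i
        split_ifs with hik
        · rw [hik]
        · have h4 := hBv (z i) (z k)
          rw [horth i k hik, Rat.cast_zero] at h4
          have h5 : (cD r m : Ω) ≠ 0 := Rat.cast_ne_zero.2 (cD_pos r m).ne'
          rw [(mul_eq_zero.1 h4).resolve_left h5, mul_zero]
      rw [Finset.sum_congr rfl fun i _ => h3 i, Finset.sum_ite_eq' Finset.univ k,
        if_pos (Finset.mem_univ _)] at h2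
      rcases mul_eq_zero.1 h2 with h4 | h4
      · exact h4
      · exfalso
        have h5 := hBv (z k) (z k)
        rw [h4, mul_zero] at h5
        exact hne k (by exact_mod_cast h5.symm)
    have h2 := hli.fintype_card_le_finrank
    rw [Fintype.card_fin, Module.finrank_fintype_fun_eq_card] at h2
    exact h2

/-- Existence of orthogonal bases. -/
theorem exists_basis (hexi : S_EXI) (hC : IsCycleSystem Ω C) (hP : IsStableSpace C α m P)
    (hB : Big Y.X j) (e : Basis (Wt Y.X L) Ω (TM Ω Y)) (h1 : ∀ w, co jO w (e w) = 1)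
    (h0 : ∀ w w', w ≠ w' → co jO w (e w') = 0) (hα : IsPolar Y.X α)
    (hrm : 2 * (2 * r + m) = finrank ℚ Y.X.H1) :
    ∃ (n : ℕ) (z : Fin n → (TM Ω Y) [⋀^Fin r × Fin 2]→ₗ[Ω] Ω) (q : Fin n → ℚ),
      IsOrthBasis α m P z q := by
  classical
  obtain ⟨B, hs, ha, hm, hp, hu, hn⟩ := exists_form hC hP hB e h1 h0 hα hrm
  obtain ⟨n, z, h2, h3, h4⟩ := hexi (Vsp hP) B hs ha hm _ hn
  refine ⟨n, fun i => (z i).1, fun i => B (z i) (z i), fun i => (z i).2, h2, fun i k => ?_,
    fun w hw h5 w' hw' => ?_⟩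
  · have h5 := hp (z i) (z k)
    by_cases hik : i = k
    · subst hik
      rw [if_pos rfl]
      exact h5
    · rw [if_neg hik]
      rw [h3 i k hik] at h5
      exact h5
  · have h6 := h4 ⟨w, hw⟩ (fun i => (hu ⟨w, hw⟩ (z i) 0 (h5 i)).symm) ⟨w', hw'⟩
    have h7 := hp ⟨w, hw⟩ ⟨w', hw'⟩
    rw [h6] at h7
    exact h7

/-- Positivity, if all squares are positive. -/
theorem pos_of_basis (hC : IsCycleSystem Ω C) (hP : IsStableSpace C α m P)
    (hB : Big Y.X j) (e : Basis (Wt Y.X L) Ω (TM Ω Y)) (h1 : ∀ w, co jO w (e w) = 1)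
    (h0 : ∀ w w', w ≠ w' → co jO w (e w') = 0) (hα : IsPolar Y.X α)
    (hrm : 2 * (2 * r + m) = finrank ℚ Y.X.H1)
    {n : ℕ} {z : Fin n → (TM Ω Y) [⋀^Fin r × Fin 2]→ₗ[Ω] Ω} {q : Fin n → ℚ}
    (h : IsOrthBasis α m P z q) (hq : ∀ i, 0 < q i)
    {w : (TM Ω Y) [⋀^Fin r × Fin 2]→ₗ[Ω] Ω} (hw : P w)
    (hnt : ¬ ∀ y, P y → HasPairing α m w y 0) : IsPosClass α m w := by
  classical
  obtain ⟨B, hs, ha, hm, hp, hu, -⟩ := exists_form hC hP hB e h1 h0 hα hrm
  let w' : Vsp hP := ⟨w, hw⟩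
  let z' : Fin n → Vsp hP := fun i => ⟨z i, h.mem i⟩
  have hB0 : ∀ x y : Vsp hP, HasPairing α m x.1 y.1 0 ↔ B x y = 0 := by
    intro x y
    constructor
    · intro h2
      exact (hu x y 0 h2).symm
    · intro h2
      have h3 := hp x y
      rw [h2] at h3
      exact h3
  have hzz : ∀ i k, B (z' i) (z' k) = if i = k then q i else 0 := fun i k =>
    (hu (z' i) (z' k) _ (h.pair i k)).symm
  have hsum : ∀ (T : Finset (Fin n)) (c : Fin n → ℚ) y,
      B (∑ i ∈ T, c i • z' i) y = ∑ i ∈ T, c i * B (z' i) y := by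
    intro T c y
    induction T using Finset.induction_on with
    | empty =>
      have h2 := hm 0 0 y
      rw [zero_smul, zero_mul] at h2
      rw [Finset.sum_empty, Finset.sum_empty, h2]
    | insert i T hi ih => rw [Finset.sum_insert hi, Finset.sum_insert hi, ha, hm, ih]
  let x : Fin n → ℚ := fun i => B w' (z' i)
  let u : Vsp hP := w' + ∑ i, (-(x i / q i)) • z' i
  have hu1 : ∀ y, B u y = B w' y - ∑ i, x i / q i * B (z' i) y := by
    intro y
    change B (w' + ∑ i, (-(x i / q i)) • z' i) y = _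
    rw [ha, hsum, sub_eq_add_neg, ← Finset.sum_neg_distrib]
    congr 1
    exact Finset.sum_congr rfl fun i _ => by ring
  have hu2 : ∀ k, B u (z' k) = 0 := by
    intro k
    rw [hu1]
    have h2 : ∀ i, x i / q i * B (z' i) (z' k) = if i = k then x k else 0 := by
      intro i
      rw [hzz]
      split_ifs with hik
      · subst hik
        have := h.ne i
        field_simp
      · rw [mul_zero]
    rw [Finset.sum_congr rfl fun i _ => h2 i, Finset.sum_ite_eq' Finset.univ k,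
      if_pos (Finset.mem_univ _)]
    exact sub_self _
  have hu3 : ∀ y : Vsp hP, B u y = 0 := by
    intro y
    rw [← hB0]
    exact h.max u.1 u.2 (fun i => (hB0 u (z' i)).2 (hu2 i)) y.1 y.2
  have hww : B w' w' = ∑ i, x i ^ 2 / q i := by
    have h2 := hu1 w'
    rw [hu3] at h2
    have h3 : ∀ i, x i / q i * B (z' i) w' = x i ^ 2 / q i := by
      intro i
      rw [hs (z' i) w']
      change x i / q i * x i = _
      ring
    rw [Finset.sum_congr rfl fun i _ => h3 i] at h2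
    linarith
  refine ⟨B w' w', ?_, hp w' w'⟩
  rw [hww]
  obtain ⟨i0, hi0⟩ : ∃ i, x i ≠ 0 := by
    by_contra hcon
    push Not at hcon
    apply hnt
    intro y hy
    refine (hB0 w' ⟨y, hy⟩).2 ?_
    have h2 := hu1 ⟨y, hy⟩
    rw [hu3] at h2
    have h3 : ∀ i, x i / q i * B (z' i) ⟨y, hy⟩ = 0 := fun i => by rw [hcon i, zero_div, zero_mul]
    rw [Finset.sum_eq_zero fun i _ => h3 i, sub_zero] at h2
    exact h2.symm
  refine Finset.sum_pos' (fun i _ => div_nonneg (sq_nonneg _) (hq i).le)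
    ⟨i0, Finset.mem_univ _, div_pos (by positivity) (hq i0)⟩

end one

/-- **The structure of the form on primitive classes.** -/
theorem structure4 (hdec : S_DEC) (hmod : S_MOD) (hdia : S_DIA) (hexi : S_EXI)
    {Ω : Nat.Primes → Type} [∀ l, Field (Ω l)] [∀ l, CharZero (Ω l)]
    [∀ l : Nat.Primes, Algebra ℚ_[(l : ℕ)] (Ω l)] [∀ l, IsAlgClosed (Ω l)]
    {C : (Y : RedAV p ν) → (κ : Type) → FCl Ω Y κ → Prop} (hC : IsCompatible Ω C)
    (l0 : Nat.Primes) (hR : IsRosatiPositive (Ω l0) (atPrime C l0))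
    (hT : AreTate (Ω l0) (atPrime C l0)) {Y : RedAV p ν} {α : Y.X.H1} (hα : IsPolar Y.X α)
    {r m : ℕ} (hrm : 2 * (2 * r + m) = finrank ℚ Y.X.H1)
    {P : ((TM (Ω l0) Y) [⋀^Fin r × Fin 2]→ₗ[Ω l0] Ω l0) → Prop}
    (hP : IsStableSpace (atPrime C l0) α m P) :
    (∃ (n : ℕ) (z : Fin n → (TM (Ω l0) Y) [⋀^Fin r × Fin 2]→ₗ[Ω l0] Ω l0) (q : Fin n → ℚ),
      IsOrthBasis α m P z q) ∧
    ∀ (n : ℕ) (z : Fin n → (TM (Ω l0) Y) [⋀^Fin r × Fin 2]→ₗ[Ω l0] Ω l0) (q : Fin n → ℚ),
      IsOrthBasis α m P z q →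
        (∃ b : Fin n → ℚ, (∀ i, 0 < b i) ∧ IsLocallyIsometric q b) ∧
        4 ∣ Nat.card {i // q i < 0} ∧
        ((∀ i, 0 < q i) ∨ n < 4 → ∀ w, P w → ¬ IsNumTrivial (Ω l0) (atPrime C l0) w →
          IsPosClass α m w) := by
  classical
  have hC0 := hC.cycle l0
  have hne : Nonempty (Y.X.prod (single (kp p))).I := ⟨Sum.inr ()⟩
  obtain ⟨L, _, _, _, _, j, hj⟩ := exists_cm (Y.X.prod (single (kp p)))
  have hY : Big Y.X j := fun i ψ => hj (Sum.inl i) ψ
  let jO : ∀ l, L →+* Ω l := fun l => ((IsAlgClosed.lift : L →ₐ[ℚ] Ω l) : L →+* Ω l)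
  have hbasis := fun l => Pool.Agent.W67.TA.basis p ν (Ω l) L j (jO l) Y hY
  choose e h1 h0 using hbasis
  -- the words occurring in the lines
  have hTw : ∀ t : Fin r × Fin 2 → Wt Y.X L, Function.Injective t → ∀ c c' : Ω l0,
      Ln (jO l0) (atPrime C l0) Y t c c' → c ≠ 0 →
        ∀ g, ∑ k, tf p ν j (St j (t k)) g = 0 := by
    intro t ht c c' hL hc g
    obtain ⟨z, hz, hs⟩ := exists_class (e l0) (h1 l0) (h0 l0) ht hL hc
    let ε : Fin r × Fin 2 ≃ Fin (2 * r) := finProdFinEquiv.trans (finCongr (mul_comm r 2))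
    obtain ⟨a, ha, h2⟩ := hT (z.domDomCongr ε) (hC0.reindex ε z hz)
    have h3 := balanced (jO l0) Pool.Agent.W366.TA.val hY (e l0) (h1 l0) (h0 l0) a r ha
      (z.domDomCongr ε) h2 (fun k => t (ε.symm k)) (by
        change (z fun k => e l0 (t (ε.symm (ε k)))) ≠ 0
        simp only [ε.symm_apply_apply]
        exact hs) g
    rw [← h3]
    exact (Equiv.sum_comp ε.symm fun k => tf p ν j (St j (t k)) g).symm
  refine ⟨exists_basis hexi hC0 hP hY (e l0) (h1 l0) (h0 l0) hα hrm, fun n z q h => ?_⟩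
  obtain ⟨G, hGt, hGp, hnt, hloc⟩ := mod_four_words hdec hC l0 hR jO hY e h1 h0 hα hrm hTw hP h
  obtain ⟨Q, b, hb, hQ⟩ := hdia n G hGt hGp
  have hiso : IsLocallyIsometric q b := by
    intro l
    obtain ⟨T, hTl⟩ := hloc l
    refine ⟨T * Q.map (fun x => (x : ℚ_[(l : ℕ)])), ?_⟩
    rw [← hTl, ← hQ]
    have e1 : (Q * Matrix.diagonal b * Q.transpose).map (fun x => (x : ℚ_[(l : ℕ)])) =
        Q.map (fun x => (x : ℚ_[(l : ℕ)])) * Matrix.diagonal (fun i => (b i : ℚ_[(l : ℕ)])) *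
          (Q.map (fun x => (x : ℚ_[(l : ℕ)]))).transpose := by
      have e2 : (fun x : ℚ => (x : ℚ_[(l : ℕ)])) = Rat.castHom ℚ_[(l : ℕ)] := rfl
      rw [e2, Matrix.map_mul, Matrix.map_mul, Matrix.transpose_map,
        Matrix.diagonal_map (map_zero _)]
      rfl
    rw [e1, Matrix.transpose_mul]
    simp only [Matrix.mul_assoc]
  have h4 : 4 ∣ Nat.card {i // q i < 0} := hmod n q b h.ne hb fun l hl => hiso ⟨l, hl.out⟩
  refine ⟨⟨b, hb, hiso⟩, h4, fun hpos w hw hwn => ?_⟩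
  have hq : ∀ i, 0 < q i := by
    rcases hpos with h2 | h2
    · exact h2
    · intro i
      have h3 : Nat.card {i // q i < 0} ≤ n := by
        have h5 := Nat.card_le_card_of_injective (Subtype.val : {i // q i < 0} → Fin n)
          Subtype.val_injective
        rwa [Nat.card_eq_fintype_card (α := Fin n), Fintype.card_fin] at h5
      have h5 : Nat.card {i // q i < 0} = 0 := by
        rcases h4 with ⟨k, hk⟩
        omega
      by_contra hneg
      have h6 : q i < 0 := lt_of_le_of_ne (not_lt.1 hneg) (h.ne i)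
      have h7 : Nonempty {i // q i < 0} := ⟨⟨i, h6⟩⟩
      have h8 : 0 < Nat.card {i // q i < 0} := Nat.card_pos
      omega
  exact pos_of_basis hC0 hP hY (e l0) (h1 l0) (h0 l0) hα hrm h hq hw (hnt w hw hwn)

end

end Pool.Agent.N202.M4
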