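import Pool.Agent.N202.M4.Adj

/-!
# Orthogonal bases of primitive classes
-/

set_option autoImplicit false
set_option linter.unusedSectionVars false
set_option linter.unusedVariables false

namespace Pool.Agent.N202.M4

open NumberField Pool.Agent.H204R3.CM Pool.Agent.W547.KB Pool.Agent.W547.LD Pool.Agent.W547.HR
  Pool.Agent.W495.TA Module Pool.Agent.W976.TA Equiv Pool.Agent.TH117.PO Pool.Agent.N202.QR
open scoped TensorProduct

noncomputable section

variable {p : ℕ} [Fact p.Prime] {ν : PadicAlgCl p ≃+* ℂ} {Ω : Type} [Field Ω] [CharZero Ω]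
  {C : (Y : RedAV p ν) → (κ : Type) → ((TM Ω Y) [⋀^κ]→ₗ[Ω] Ω) → Prop}
  {L : Type} [Field L] [NumberField L] [IsCMField L] [IsGalois ℚ L]
  {jO : L →+* Ω} {j : L →+* ℂ} {Y : RedAV p ν}

/-! ### Stable spaces -/

variable {α : Y.X.H1} {r m : ℕ}

theorem IsPrim.add' {z w : (TM Ω Y) [⋀^Fin r × Fin 2]→ₗ[Ω] Ω} (hz : IsPrim α m z)
    (hw : IsPrim α m w) : IsPrim α m (z + w) := by
  intro v
  have h2 : altSum (times (res (z + w)) (powE (castE Ω (riemannForm Y.X α)) (m + 1))) v =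
      altSum (times (res z) (powE (castE Ω (riemannForm Y.X α)) (m + 1))) v +
        altSum (times (res w) (powE (castE Ω (riemannForm Y.X α)) (m + 1))) v := by
    unfold altSum
    rw [← Finset.sum_add_distrib]
    refine Finset.sum_congr rfl fun σ _ => ?_
    unfold times res
    rw [AlternatingMap.add_apply]
    ring
  rw [h2, hz v, hw v, add_zero]

theorem IsPrim.smul' (a : Ω) {z : (TM Ω Y) [⋀^Fin r × Fin 2]→ₗ[Ω] Ω} (hz : IsPrim α m z) :
    IsPrim α m (a • z) := by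
  intro v
  have h2 : altSum (times (res (a • z)) (powE (castE Ω (riemannForm Y.X α)) (m + 1))) v =
      a * altSum (times (res z) (powE (castE Ω (riemannForm Y.X α)) (m + 1))) v := by
    unfold altSum
    rw [Finset.mul_sum]
    refine Finset.sum_congr rfl fun σ _ => ?_
    unfold times res
    rw [AlternatingMap.smul_apply, smul_eq_mul]
    ring
  rw [h2, hz v, mul_zero]

theorem IsPrim.zero' : IsPrim α m (0 : (TM Ω Y) [⋀^Fin r × Fin 2]→ₗ[Ω] Ω) := by
  intro v
  unfold altSum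
  refine Finset.sum_eq_zero fun σ _ => ?_
  unfold times res
  rw [AlternatingMap.zero_apply, zero_mul, mul_zero]

theorem riemann_norm (α : Y.X.H1) {a : Y.X.H1} {h : Y.X.H1 →ₗ[ℚ] Y.X.H1}
    (hh : ∀ x i, h x i = a i * x i)
    (ha : ∀ i, IsCMField.complexConj (Y.X.factor i).E (a i) * a i = 1) (u v : Y.X.H1) :
    riemannForm Y.X α (h u) (h v) = riemannForm Y.X α u v := by
  unfold riemannForm
  refine Finset.sum_congr rfl fun i _ => ?_
  congr 1
  rw [hh, hh, map_mul]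
  linear_combination (α i * IsCMField.complexConj (Y.X.factor i).E (u i) * v i) * ha i

/-- The space of all primitive classes is stable. -/
theorem stable_all (hC : IsCycleSystem Ω C) (α : Y.X.H1) (r m : ℕ) :
    IsStableSpace C α m fun z : (TM Ω Y) [⋀^Fin r × Fin 2]→ₗ[Ω] Ω =>
      C Y (Fin r × Fin 2) z ∧ IsPrim α m z where
  mem z hz := hz.1
  prim z hz := hz.2
  zero := ⟨hC.zero _ _, IsPrim.zero'⟩
  add z w hz hw := ⟨hC.add _ _ hz.1 hw.1, IsPrim.add' hz.2 hw.2⟩
  smul a z hz := ⟨hC.smul a _ hz.1, IsPrim.smul' _ hz.2⟩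
  pull a h hh ha z hz := by
    have h1 : h = mulA a := LinearMap.ext fun x => funext fun i => hh x i
    refine ⟨?_, fun v => ?_⟩
    · rw [h1]
      exact hC.pull (mulA a) (isHom_mulA a) z hz.1
    · rw [← hz.2 fun k => h (v k)]
      unfold altSum
      refine Finset.sum_congr rfl fun σ _ => ?_
      congr 1
      unfold times
      congr 1
      unfold powE castE
      refine Finset.prod_congr rfl fun i _ => ?_
      rw [riemann_norm α hh ha]

section P

variable {P : ((TM Ω Y) [⋀^Fin r × Fin 2]→ₗ[Ω] Ω) → Prop} (hP : IsStableSpace C α m P)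

include hP

theorem P_comb {ι : Type} (T : Finset ι) (a : ι → ℚ)
    (z : ι → (TM Ω Y) [⋀^Fin r × Fin 2]→ₗ[Ω] Ω) (hz : ∀ i, P (z i)) :
    P (∑ i ∈ T, (a i : Ω) • z i) := by
  classical
  induction T using Finset.induction_on with
  | empty =>
    rw [Finset.sum_empty]
    exact hP.zero
  | insert i T hi ih =>
    rw [Finset.sum_insert hi]
    exact hP.add _ _ (hP.smul _ _ (hz i)) ih

theorem P_pb (x : (Y.X.H1)ˣ) {z : (TM Ω Y) [⋀^Fin r × Fin 2]→ₗ[Ω] Ω} (hz : P z) :
    P (pb (uu x) z) :=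
  hP.pull (uu x) (mulA (uu x)) (fun _ _ => rfl) (cj_uu x) z hz

end P

theorem S1_comb_left (e : Basis (Wt Y.X L) Ω (TM Ω Y)) (f : (Fin r × Fin 2 → Wt Y.X L) → Ω)
    {ι : Type} (T : Finset ι) (a : ι → Ω)
    (z : ι → (TM Ω Y) [⋀^Fin r × Fin 2]→ₗ[Ω] Ω) (w : (TM Ω Y) [⋀^Fin r × Fin 2]→ₗ[Ω] Ω) :
    S1 jO e α f (∑ i ∈ T, a i • z i) w = ∑ i ∈ T, a i * S1 jO e α f (z i) w := by
  classical
  induction T using Finset.induction_on with
  | empty =>
    rw [Finset.sum_empty, Finset.sum_empty]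
    unfold S1
    exact Finset.sum_eq_zero fun s _ => by rw [AlternatingMap.zero_apply]; ring
  | insert i T hi ih =>
    rw [Finset.sum_insert hi, Finset.sum_insert hi, S1_add_left, S1_smul_left, ih]

theorem S1_comb_right (e : Basis (Wt Y.X L) Ω (TM Ω Y)) (f : (Fin r × Fin 2 → Wt Y.X L) → Ω)
    {ι : Type} (T : Finset ι) (a : ι → Ω)
    (z : ι → (TM Ω Y) [⋀^Fin r × Fin 2]→ₗ[Ω] Ω) (w : (TM Ω Y) [⋀^Fin r × Fin 2]→ₗ[Ω] Ω) :
    S1 jO e α f w (∑ i ∈ T, a i • z i) = ∑ i ∈ T, a i * S1 jO e α f w (z i) := by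
  classical
  induction T using Finset.induction_on with
  | empty =>
    rw [Finset.sum_empty, Finset.sum_empty]
    unfold S1
    exact Finset.sum_eq_zero fun s _ => by rw [AlternatingMap.zero_apply]; ring
  | insert i T hi ih =>
    rw [Finset.sum_insert hi, Finset.sum_insert hi, S1_add_right, S1_smul_right, ih]

variable (hC : IsCycleSystem Ω C) {P : ((TM Ω Y) [⋀^Fin r × Fin 2]→ₗ[Ω] Ω) → Prop}
  (hP : IsStableSpace C α m P) (hB : Big Y.X j) (e : Basis (Wt Y.X L) Ω (TM Ω Y))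
  (h1 : ∀ w, co jO w (e w) = 1) (h0 : ∀ w w', w ≠ w' → co jO w (e w') = 0)
  (hα : IsPolar Y.X α) (hrm : 2 * (2 * r + m) = finrank ℚ Y.X.H1)

include hC hP hB h1 h0 hα hrm

/-- The matrix of a norm one endomorphism. -/
theorem exists_phi {n : ℕ} {z : Fin n → (TM Ω Y) [⋀^Fin r × Fin 2]→ₗ[Ω] Ω} {q : Fin n → ℚ}
    (h : IsOrthBasis α m P z q) :
    ∃ Φ : (Y.X.H1)ˣ → Fin n → Fin n → ℚ,
      (∀ x i k, (cD r m : Ω) * S1 jO e α (fun s => jO (chr s (uu x))) (z i) (z k) =
        (Φ x i k : Ω)) ∧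
      (∀ i k, Φ 1 i k = if i = k then q i else 0) ∧
      (∀ x i k, Φ x i k = Φ x⁻¹ k i) ∧
      ∀ x y i k, ∑ a, Φ x i a * (q a)⁻¹ * Φ y a k = Φ (x * y) i k := by
  classical
  have hpr := hP.prim
  have hb : ∀ x i, ∀ w, S1 jO e α (fun _ => 1) (pb (uu x) (z i)) w =
      S1 jO e α (fun s => jO (chr s (uu x))) (z i) w := by
    intro x i w
    rw [S1_pb_left e h1 h0]
    simp only [mul_one]
  have hex : ∀ (x : (Y.X.H1)ˣ) i k, ∃ a : ℚ,
      (cD r m : Ω) * S1 jO e α (fun s => jO (chr s (uu x))) (z i) (z k) = a := by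
    intro x i k
    rw [← hb]
    exact pair_rat e h1 h0 hC hB hα hrm (hpr _ (P_pb hP x (h.mem i))) (hpr _ (h.mem k))
      (hP.mem _ (P_pb hP x (h.mem i))) (hP.mem _ (h.mem k))
  choose Φ hΦ using hex
  have hq : ∀ i k, (cD r m : Ω) * S1 jO e α (fun _ => 1) (z i) (z k) =
      ((if i = k then q i else 0 : ℚ) : Ω) := fun i k =>
    (hasPairing_iff e h1 h0 hB hα hrm (hpr _ (h.mem i)) (hpr _ (h.mem k)) _).1 (h.pair i k)
  refine ⟨Φ, hΦ, ?_, ?_, ?_⟩
  · intro i k
    have h2 := hΦ 1 i k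
    have h3 : (fun s : Fin r × Fin 2 → Wt Y.X L => jO (chr s (uu (1 : (Y.X.H1)ˣ)))) =
        fun _ => 1 := funext fun s => by rw [chr_uu_one, map_one]
    rw [h3, hq i k] at h2
    exact_mod_cast h2.symm
  · intro x i k
    have h2 := hΦ x i k
    rw [S1_bar e hα j] at h2
    have h3 : (fun s : Fin r × Fin 2 → Wt Y.X L => jO (chr (fun k => bar (s k)) (uu x))) =
        fun s => jO (chr s (uu x⁻¹)) := funext fun s => by rw [chr_bar_uu j]
    rw [h3, hΦ] at h2
    exact_mod_cast h2.symm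
  · intro x y i k
    -- the difference is orthogonal to the basis
    set w : (TM Ω Y) [⋀^Fin r × Fin 2]→ₗ[Ω] Ω :=
      pb (uu x) (z i) + ∑ a, ((-(Φ x i a * (q a)⁻¹) : ℚ) : Ω) • z a with hw
    have hwP : P w := hP.add _ _ (P_pb hP x (h.mem i)) (P_comb hP _ _ _ h.mem)
    have hS : ∀ u, (cD r m : Ω) * S1 jO e α (fun _ => 1) w u =
        (cD r m : Ω) * S1 jO e α (fun s => jO (chr s (uu x))) (z i) u +
          ∑ a, ((-(Φ x i a * (q a)⁻¹) : ℚ) : Ω) *
            ((cD r m : Ω) * S1 jO e α (fun _ => 1) (z a) u) := by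
      intro u
      rw [hw, S1_add_left, hb, S1_comb_left, mul_add, Finset.mul_sum]
      congr 1
      exact Finset.sum_congr rfl fun a _ => by ring
    have horth : ∀ k, HasPairing α m w (z k) 0 := by
      intro k
      rw [hasPairing_iff e h1 h0 hB hα hrm (hpr _ hwP) (hpr _ (h.mem k)), hS, hΦ]
      have h2 : ∀ a, ((-(Φ x i a * (q a)⁻¹) : ℚ) : Ω) *
          ((cD r m : Ω) * S1 jO e α (fun _ => 1) (z a) (z k)) =
          if a = k then -((Φ x i a : ℚ) : Ω) else 0 := by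
        intro a
        rw [hq]
        split_ifs with h3
        · rw [← Rat.cast_mul, ← Rat.cast_neg]
          congr 1
          have := h.ne a
          field_simp
        · rw [Rat.cast_zero, mul_zero]
      rw [Finset.sum_congr rfl fun a _ => h2 a, Finset.sum_ite_eq' Finset.univ k,
        if_pos (Finset.mem_univ _), add_neg_cancel, Rat.cast_zero]
    have hyP : P (pb (uu y⁻¹) (z k)) := P_pb hP y⁻¹ (h.mem k)
    have hmax := h.max w hwP horth _ hyP
    rw [hasPairing_iff e h1 h0 hB hα hrm (hpr _ hwP) (hpr _ hyP), hS, Rat.cast_zero] at hmax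
    have h4 : ∀ (f : (Fin r × Fin 2 → Wt Y.X L) → Ω) u, S1 jO e α f u (pb (uu y⁻¹) (z k)) =
        S1 jO e α (fun s => jO (chr s (uu y)) * f s) u (z k) := fun f u =>
      S1_pb_right e h1 h0 j α f y u (z k)
    have h5 : (fun s : Fin r × Fin 2 → Wt Y.X L => jO (chr s (uu y)) * jO (chr s (uu x))) =
        fun s => jO (chr s (uu (x * y))) := by
      funext s
      rw [chr_uu_mul, map_mul, mul_comm]
    have h6 : (fun s : Fin r × Fin 2 → Wt Y.X L => jO (chr s (uu y)) * (1 : Ω)) =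
        fun s => jO (chr s (uu y)) := funext fun s => mul_one _
    have h7 : ∀ a, ((-(Φ x i a * (q a)⁻¹) : ℚ) : Ω) *
        ((cD r m : Ω) * S1 jO e α (fun _ => 1) (z a) (pb (uu y⁻¹) (z k))) =
        ((-(Φ x i a * (q a)⁻¹ * Φ y a k) : ℚ) : Ω) := by
      intro a
      rw [h4, h6, hΦ]
      push_cast
      ring
    rw [h4, h5, hΦ, Finset.sum_congr rfl fun a _ => h7 a, ← Rat.cast_sum, ← Rat.cast_add] at hmax
    have h8 : Φ (x * y) i k + ∑ a, -(Φ x i a * (q a)⁻¹ * Φ y a k) = 0 := by exact_mod_cast hmax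
    rw [Finset.sum_neg_distrib] at h8
    linarith

/-- The coefficients of classes orthogonal to each other for all words. -/
theorem ne_of_pair {z w : (TM Ω Y) [⋀^Fin r × Fin 2]→ₗ[Ω] Ω} (hz : P z) (hw : P w)
    (f : (Fin r × Fin 2 → Wt Y.X L) → Ω) (hzw : S1 jO e α f z w ≠ 0) :
    ∃ s : Fin r × Fin 2 → Wt Y.X L, (z fun k => e (s k)) * (z fun k => e (bar (s k))) ≠ 0 := by
  classical
  obtain ⟨s, -, hs⟩ := Finset.exists_ne_zero_of_sum_ne_zero hzw
  have h2 : (z fun k => e (s k)) ≠ 0 := by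
    intro h
    rw [h] at hs
    simp at hs
  have h3 : (w fun k => e (bar (s k))) ≠ 0 := by
    intro h
    rw [h] at hs
    simp at hs
  have hsi : Function.Injective s := by
    intro k k' hk
    by_contra hne
    refine h2 (z.map_eq_zero_of_eq _ ?_ hne)
    rw [hk]
  obtain ⟨l, h4, h5⟩ := two_lines hC j hB hsi (Ln_coef hC j hB e h1 h0 (hP.mem _ hz) hsi)
    (Ln_coef hC j hB e h1 h0 (hP.mem _ hw) hsi)
  have h6 : jO l ≠ 0 := by
    rw [← h4]
    exact mul_ne_zero h2 h3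
  have h7 : jO (cc L l) ≠ 0 :=
    (map_ne_zero jO).2 ((map_ne_zero (cc L)).2 ((map_ne_zero jO).1 h6))
  rw [← h5] at h7
  exact ⟨s, mul_ne_zero h2 (left_ne_zero_of_mul h7)⟩

end

end Pool.Agent.N202.M4
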