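import Pool.Agent.N202.M4.JW

/-!
# Comparison of lines, and properties of exponents
-/

set_option autoImplicit false
set_option linter.unusedSectionVars false
set_option linter.unusedVariables false

namespace Pool.Agent.N202.M4

open NumberField Pool.Agent.H204R3.CM Pool.Agent.W547.KB Pool.Agent.W547.LD Pool.Agent.W547.HR
  Pool.Agent.W495.TA Module Pool.Agent.TH117.PO Pool.Agent.W976.TA Pool.Agent.W417.TA
  Pool.Agent.TH117.BL Pool.Agent.W495.TC Pool.Agent.W495.TB Pool.Agent.TH117.F5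
  Pool.Agent.N202.QR
open scoped TensorProduct

noncomputable section

variable {p : ℕ} [Fact p.Prime] {ν : PadicAlgCl p ≃+* ℂ}
  {L : Type} [Field L] [NumberField L] [IsCMField L] [IsGalois ℚ L] {j : L →+* ℂ}

section sign

variable {Ω : Type} [Field Ω] [CharZero Ω] {jO : L →+* Ω}
  {C : (Y : RedAV p ν) → (κ : Type) → ((TM Ω Y) [⋀^κ]→ₗ[Ω] Ω) → Prop}

/-- Two lines with the same monomial: the products of their coefficients have the same sign. -/
theorem two_prod (hC : IsCycleSystem Ω C) {Y : RedAV p ν} (hB : Big Y.X j) {κ : Type}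
    [Fintype κ] [DecidableEq κ] {I : κ → Wt Y.X L} (hI : Function.Injective I) {c c' a a' : Ω}
    (h : Ln jO C Y I c c') (h' : Ln jO C Y I a a') (hcc : c * c' ≠ 0) {m : L}
    (ha : a * a' = jO m) (hm : m ≠ 0) :
    ∃ μ : L, c * c' = jO μ ∧ PosC (j μ * j m) := by
  obtain ⟨l, h1, h2⟩ := two_lines hC j hB hI h h'
  obtain ⟨μ, h3, -⟩ := two_lines hC j hB hI h h
  have haa : a * a' ≠ 0 := by
    rw [ha]
    exact (map_ne_zero jO).2 hm
  have hl : l ≠ 0 := by
    intro h0
    rw [h0, map_zero] at h1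
    exact mul_ne_zero (left_ne_zero_of_mul hcc) (right_ne_zero_of_mul haa) h1
  refine ⟨μ, h3, ?_⟩
  have h4 : μ * m = l * cc L l := by
    apply jO.injective
    rw [map_mul, map_mul, ← h3, ← ha, ← h1, ← h2]
    ring
  rw [← map_mul, h4]
  exact PosC.norm j hl

/-- The sign of a word, compared with a reference line. -/
theorem sign_div' (hC : IsCycleSystem Ω C) (hR : IsRosatiPositive Ω C) {Y Y' : RedAV p ν}
    (hY : Big Y.X j) (hY' : Big Y'.X j) {κ κ' : Type}
    [Fintype κ] [DecidableEq κ] [Fintype κ'] [DecidableEq κ'] {s : κ → Wt Y.X L}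
    (hs : Function.Injective s) (heven : Even (Fintype.card κ)) {J : κ' → Wt Y'.X L}
    (hJ : Function.Injective J) (hbal : Balanced (fun k => St j (J k)))
    {a a' : Ω} (ha : Ln jO C Y' J a a') {m : L} (ham : a * a' = jO m) (hm : m ≠ 0)
    (hK : IsPos jO C j (prodR Y' Y) (Sum.elim (fun k => inlW (J k)) fun k => inrW (bar (s k))))
    {c c' : Ω} (h : Ln jO C Y s c c') (hcc : c * c' ≠ 0) :
    ∃ μ : L, c * c' = jO μ ∧ PosC (j μ * (∏ k, Pool.Agent.TH117.PO.sgn j (s k)) * j m) := by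
  classical
  obtain ⟨d, d', μK, h1, h2, h3⟩ := hK
  have hdd : d * d' ≠ 0 := by
    rw [h2]
    refine (map_ne_zero jO).2 fun h => ?_
    have h4 := h3.1
    rw [h, map_zero, zero_mul] at h4
    exact h4 rfl
  obtain ⟨δ, hδ, h4⟩ := line_div hC hY hs hJ h h1
  have hcδ : jO (cc L δ) ≠ 0 := (map_ne_zero jO).2 ((map_ne_zero (cc L)).2 hδ)
  have hδ' : jO δ ≠ 0 := (map_ne_zero jO).2 hδ
  have hne1 : d * c * jO δ ≠ 0 := mul_ne_zero (mul_ne_zero (left_ne_zero_of_mul hdd)
    (left_ne_zero_of_mul hcc)) hδ'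
  have hne2 : d' * c' * jO (cc L δ) ≠ 0 := mul_ne_zero (mul_ne_zero (right_ne_zero_of_mul hdd)
    (right_ne_zero_of_mul hcc)) hcδ
  obtain ⟨μJ, h5, h8⟩ := two_prod hC hY' hJ h4 ha (mul_ne_zero hne1 hne2) ham hm
  obtain ⟨l, h7, -⟩ := two_lines hC j hY hs h h
  refine ⟨l, h7, ?_⟩
  have h9 := h3.2 hR
  rw [Fintype.prod_sum_type] at h9
  have e1 : ∏ k, Pool.Agent.TH117.PO.sgn j (Sum.elim (fun k => inlW (J k))
      (fun k => inrW (bar (s k))) (Sum.inl k) : Wt (prodR Y' Y).X L) = 1 := by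
    rw [← prod_sgn_bal hbal]
    rfl
  have e2 : ∏ k, Pool.Agent.TH117.PO.sgn j (Sum.elim (fun k => inlW (J k))
      (fun k => inrW (bar (s k))) (Sum.inr k) : Wt (prodR Y' Y).X L) =
      ∏ k, Pool.Agent.TH117.PO.sgn j (s k) := by
    have e3 : ∏ k, Pool.Agent.TH117.PO.sgn j (Sum.elim (fun k => inlW (J k))
      (fun k => inrW (bar (s k))) (Sum.inr k) : Wt (prodR Y' Y).X L) =
      ∏ k, Pool.Agent.TH117.PO.sgn j (bar (s k)) := rfl
    rw [e3, Finset.prod_congr rfl fun k _ => sgn_bar j (s k)]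
    have e4 : ∀ k, -Pool.Agent.TH117.PO.sgn j (s k) = -1 * Pool.Agent.TH117.PO.sgn j (s k) :=
      fun k => (neg_one_mul _).symm
    rw [Finset.prod_congr rfl fun k _ => e4 k, Finset.prod_mul_distrib, Finset.prod_const,
      Finset.card_univ, heven.neg_one_pow, one_mul]
  rw [e1, e2, one_mul] at h9
  set S : ℂ := ∏ k, Pool.Agent.TH117.PO.sgn j (s k) with hS
  have hSS : S * S = 1 := by
    rw [hS, ← Finset.prod_mul_distrib, Finset.prod_congr rfl fun k _ => sgn_sq j (s k),
      Finset.prod_const, Finset.card_univ, heven.neg_one_pow]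
  have hμ : μJ = μK * l * (δ * cc L δ) := by
    apply jO.injective
    rw [← h5, map_mul, map_mul, map_mul, ← h2, ← h7]
    ring
  have h10 := (h8.mul h9.inv).mul (PosC.norm j hδ).inv
  have hjK : j μK ≠ 0 := by
    intro h
    have := h9.ne
    rw [h, zero_mul] at this
    exact this rfl
  have hjδ : j (δ * cc L δ) ≠ 0 := (PosC.norm j hδ).ne
  have hS0 : S ≠ 0 := fun h => by rw [h, mul_zero] at hSS; exact zero_ne_one hSS
  have h11 : j μJ * j m * (j μK * S)⁻¹ * (j (δ * cc L δ))⁻¹ = j l * S * j m := by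
    rw [hμ, map_mul j (μK * l), map_mul j μK]
    have h12 : S⁻¹ = S := by
      field_simp
      rw [pow_two]
      exact hSS.symm
    rw [mul_inv, h12]
    field_simp
  rwa [h11] at h10

/-- Multiplication of the lines gives a line on the first factor with nonzero coefficients. -/
theorem line_div_ne (hC : IsCycleSystem Ω C) {Y Y' : RedAV p ν}
    (hY : Big Y.X j) {κ κ' : Type}
    [Fintype κ] [DecidableEq κ] [Fintype κ'] [DecidableEq κ'] {s : κ → Wt Y.X L}
    (hs : Function.Injective s) {J : κ' → Wt Y'.X L}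
    (hJ : Function.Injective J)
    (hK : IsPos jO C j (prodR Y' Y) (Sum.elim (fun k => inlW (J k)) fun k => inrW (bar (s k))))
    {c c' : Ω} (h : Ln jO C Y s c c') (hcc : c * c' ≠ 0) :
    ∃ b b' : Ω, Ln jO C Y' J b b' ∧ b * b' ≠ 0 := by
  obtain ⟨d, d', μK, h1, h2, h3⟩ := hK
  have hdd : d * d' ≠ 0 := by
    rw [h2]
    refine (map_ne_zero jO).2 fun h => ?_
    have h4 := h3.1
    rw [h, map_zero, zero_mul] at h4
    exact h4 rfl
  obtain ⟨δ, hδ, h4⟩ := line_div hC hY hs hJ h h1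
  have hcδ : jO (cc L δ) ≠ 0 := (map_ne_zero jO).2 ((map_ne_zero (cc L)).2 hδ)
  have hδ' : jO δ ≠ 0 := (map_ne_zero jO).2 hδ
  have hne1 : d * c * jO δ ≠ 0 := mul_ne_zero (mul_ne_zero (left_ne_zero_of_mul hdd)
    (left_ne_zero_of_mul hcc)) hδ'
  have hne2 : d' * c' * jO (cc L δ) ≠ 0 := mul_ne_zero (mul_ne_zero (right_ne_zero_of_mul hdd)
    (right_ne_zero_of_mul hcc)) hcδ
  exact ⟨_, _, h4, mul_ne_zero hne1 hne2⟩

end sign

/-! ### Exponents -/

section exps

variable {X : CMAV}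

theorem bar_ne (j : L →+* ℂ) (w : Wt X L) : bar w ≠ w := by
  intro h
  have h1 := (Sigma.mk.inj_iff.1 h).2
  have h2 : (cc L • w.2 : (X.factor w.1).E →+* L) = w.2 := eq_of_heq h1
  refine Pool.Agent.TH117.BL.conj_ne (j.comp w.2) (RingHom.ext fun x => ?_)
  have h3 := congrArg j (RingHom.congr_fun h2 x)
  change j (cc L (w.2 x)) = j (w.2 x) at h3
  rw [emb_cc] at h3
  exact h3

theorem actO_one (o : Wt X L → ℤ) : actO (1 : L ≃ₐ[ℚ] L) o = o := by
  funext w
  change o (sw 1⁻¹ w) = o w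
  rw [inv_one, sw_one]

theorem actO_mul (σ τ : L ≃ₐ[ℚ] L) (o : Wt X L → ℤ) : actO (σ * τ) o = actO σ (actO τ o) := by
  funext w
  change o (sw (σ * τ)⁻¹ w) = o (sw τ⁻¹ (sw σ⁻¹ w))
  rw [mul_inv_rev, sw_mul]

theorem actO_inv (σ : L ≃ₐ[ℚ] L) {o o' : Wt X L → ℤ} (h : actO σ o = o') : o = actO σ⁻¹ o' := by
  rw [← h, ← actO_mul, inv_mul_cancel, actO_one]

theorem oc_neg {κ : Type} [Fintype κ] (t : κ → Wt X L) (w : Wt X L) : oc t (bar w) = -oc t w := by
  classical
  unfold oc
  rw [← Finset.sum_neg_distrib]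
  refine Finset.sum_congr rfl fun k _ => ?_
  rw [bar_bar]
  ring

/-- The exponents of the conjugate word. -/
theorem actO_cc {κ : Type} [Fintype κ] (j : L →+* ℂ) (t : κ → Wt X L) :
    actO (cc L) (oc t) = oc fun k => bar (t k) := by
  rw [← oc_sw j]
  rfl

theorem oc_bar' {κ : Type} [Fintype κ] (t : κ → Wt X L) :
    (oc fun k => bar (t k)) = -oc t := by
  rw [oc_bar]
  funext w
  rw [oc_neg]
  rfl

variable [Fintype (Wt X L)]

/-- Sums over the letters of a word. -/
theorem sum_oc (T : Wt X L → ℤ) (hT : ∀ w, T (bar w) = -T w) {κ : Type} [Fintype κ]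
    (t : κ → Wt X L) : ∑ w, oc t w * T w = 2 * ∑ k, T (t k) := by
  classical
  unfold oc
  have h1 : ∀ w, (∑ k, ((if t k = w then (1 : ℤ) else 0) - if t k = bar w then 1 else 0)) * T w =
      ∑ k, ((if t k = w then T w else 0) - if t k = bar w then T w else 0) := by
    intro w
    rw [Finset.sum_mul]
    refine Finset.sum_congr rfl fun k _ => ?_
    rw [sub_mul, ite_mul, ite_mul, one_mul, zero_mul]
  rw [Finset.sum_congr rfl fun w _ => h1 w, Finset.sum_comm, Finset.mul_sum]
  refine Finset.sum_congr rfl fun k _ => ?_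
  rw [Finset.sum_sub_distrib, Finset.sum_ite_eq Finset.univ (t k) T, if_pos (Finset.mem_univ _)]
  have h2 : ∀ w, (if t k = bar w then T w else 0) = if bar (t k) = w then T w else 0 := by
    intro w
    have h3 : t k = bar w ↔ bar (t k) = w := by
      constructor
      · intro h
        rw [h, bar_bar]
      · intro h
        rw [← h, bar_bar]
    simp only [h3]
  rw [Finset.sum_congr rfl fun w _ => h2 w, Finset.sum_ite_eq Finset.univ (bar (t k)) T,
    if_pos (Finset.mem_univ _), hT]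
  ring

/-- The relation of the positive parts of the exponents. -/
theorem rel_toNat (T : Wt X L → ℤ) (hT : ∀ w, T (bar w) = -T w) (o : Wt X L → ℤ)
    (ho : ∀ w, o (bar w) = -o w) : 2 * ∑ w, ((o w).toNat : ℤ) * T w = ∑ w, o w * T w := by
  have h1 : ∑ w, ((o w).toNat : ℤ) * T w = -∑ w, ((-o w).toNat : ℤ) * T w := by
    rw [← Finset.sum_neg_distrib]
    refine Fintype.sum_equiv (Function.Involutive.toPerm (bar : Wt X L → Wt X L) bar_bar) _ _
      fun w => ?_
    change ((o w).toNat : ℤ) * T w = -(((-o (bar w)).toNat : ℤ) * T (bar w))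
    rw [ho, hT, neg_neg]
    ring
  have h2 : ∑ w, o w * T w = (∑ w, ((o w).toNat : ℤ) * T w) - ∑ w, ((-o w).toNat : ℤ) * T w := by
    rw [← Finset.sum_sub_distrib]
    refine Finset.sum_congr rfl fun w _ => ?_
    have h3 : o w = ((o w).toNat : ℤ) - ((-o w).toNat : ℤ) := by omega
    conv_lhs => rw [h3]
    ring
  rw [h2]
  linarith

/-- The number of letters modulo two. -/
theorem even_toNat (j : L →+* ℂ) {κ : Type} [Fintype κ] (t : κ → Wt X L)
    (heven : Even (Fintype.card κ)) : Even (∑ w, (oc t w).toNat) := by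
  classical
  let c : Wt X L → ℕ := fun w => ∑ k, if t k = w then 1 else 0
  have h1 : ∀ w, oc t w = (c w : ℤ) - c (bar w) := by
    intro w
    change oc t w = ((∑ k, if t k = w then 1 else 0 : ℕ) : ℤ) -
      ((∑ k, if t k = bar w then 1 else 0 : ℕ) : ℤ)
    unfold oc
    rw [Finset.sum_sub_distrib]
    push_cast
    rfl
  have h2 : ∑ w, c w = Fintype.card κ := by
    change ∑ w, ∑ k, (if t k = w then 1 else 0) = _
    rw [Finset.sum_comm]
    simp
  have h3 : ∑ w, c w = (∑ w, (oc t w).toNat) + ∑ w, min (c w) (c (bar w)) := by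
    rw [← Finset.sum_add_distrib]
    refine Finset.sum_congr rfl fun w _ => ?_
    rw [h1]
    omega
  have h4 : Even (∑ w, min (c w) (c (bar w))) := by
    rw [← ZMod.natCast_eq_zero_iff_even, Nat.cast_sum]
    refine Finset.sum_involution (fun w _ => bar w) ?_ ?_ ?_ ?_
    · intro w _
      rw [bar_bar, min_comm (c (bar w))]
      exact CharTwo.add_self_eq_zero _
    · intro w _ _
      exact bar_ne j w
    · intro w _
      exact Finset.mem_univ _
    · intro w _
      exact bar_bar w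
  rw [← h2, h3, Nat.even_add] at heven
  exact heven.2 h4

/-- Translation of the counting function of exponents. -/
theorem DD_actO (σ : L ≃ₐ[ℚ] L) (o : Wt X L → ℤ) (f : (L ≃ₐ[ℚ] L) → ℤ) :
    DD (fun w => tf p ν j (St j w)) (fun w => ((actO σ o w).toNat : ℤ)) f =
      DD (fun w => tf p ν j (St j w)) (fun w => ((o w).toNat : ℤ)) fun h => f (h * σ⁻¹) := by
  classical
  unfold DD
  refine Fintype.sum_equiv (swE X σ) _ _ fun w => ?_
  change ((o (sw σ⁻¹ w)).toNat : ℤ) * _ = ((o (sw σ⁻¹ w)).toNat : ℤ) * _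
  congr 1
  have h1 : ∀ g : (L ≃ₐ[ℚ] L) → ℤ, tf p ν j (St j w) = g ↔
      tf p ν j (St j (sw σ⁻¹ w)) = fun h => g (h * σ⁻¹) := by
    intro g
    constructor
    · rintro rfl
      funext h
      exact tf_smul' w σ⁻¹ h
    · intro h2
      funext h
      have h3 := congrFun h2 (h * σ)
      rw [tf_smul', mul_inv_cancel_right] at h3
      exact h3
  refine congrArg₂ (fun a b : ℤ => a - b) ?_ ?_
  · by_cases h2 : tf p ν j (St j w) = f
    · exact (if_pos h2).trans (if_pos ((h1 f).1 h2)).symm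
    · exact (if_neg h2).trans (if_neg fun h3 => h2 ((h1 f).2 h3)).symm
  · by_cases h2 : tf p ν j (St j w) = -f
    · exact (if_pos h2).trans (if_pos ((h1 (-f)).1 h2)).symm
    · exact (if_neg h2).trans (if_neg fun h3 => h2 ((h1 (-f)).2 h3)).symm

end exps

end

end Pool.Agent.N202.M4
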