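import Pool.Agent.N202.M4.Place1
import Pool.Agent.N202.QR.Desc

/-!
# The local data belonging to exponents
-/

set_option autoImplicit false
set_option linter.unusedSectionVars false
set_option linter.unusedVariables false

namespace Pool.Agent.N202.M4

open NumberField Pool.Agent.H204R3.CM Pool.Agent.W547.KB Pool.Agent.W547.LD Pool.Agent.W547.HR
  Pool.Agent.W495.TA Module Pool.Agent.TH117.PO Pool.Agent.W976.TA Pool.Agent.W417.TA
  Pool.Agent.TH117.BL Pool.Agent.W495.TC Pool.Agent.W495.TB Pool.Agent.TH117.F5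
  Pool.Agent.N202.QR
open scoped TensorProduct

noncomputable section

variable {p : ℕ} [Fact p.Prime] {ν : PadicAlgCl p ≃+* ℂ}
  {L : Type} [Field L] [NumberField L] [IsCMField L] [IsGalois ℚ L] {j : L →+* ℂ}

theorem balanced_sw {X : CMAV} {κ : Type} [Fintype κ] {J : κ → Wt X L}
    (hbal : Balanced (fun k => St j (J k))) (σ : L ≃ₐ[ℚ] L) :
    Balanced (fun k => St j (sw σ (J k))) := by
  classical
  intro τ
  rw [← hbal (τ * σ)]
  refine Finset.sum_congr rfl fun k _ => ?_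
  have h1 : τ ∈ St j (sw σ (J k)) ↔ τ * σ ∈ St j (J k) := by
    rw [St_sw, mem_tr]
  by_cases h2 : τ * σ ∈ St j (J k)
  · rw [if_pos h2, if_pos (h1.2 h2)]
  · rw [if_neg h2, if_neg fun h => h2 (h1.1 h)]

theorem sw_injective {X : CMAV} (σ : L ≃ₐ[ℚ] L) : Function.Injective (sw (X := X) σ) :=
  (swE X σ).symm.injective

section K

variable {Ω : Type} [Field Ω] [CharZero Ω] [IsAlgClosed Ω]
  {C : (Y : RedAV p ν) → (κ : Type) → ((TM Ω Y) [⋀^κ]→ₗ[Ω] Ω) → Prop}

/-- The word on the product is positive. -/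
theorem posK (hC : IsCycleSystem Ω C) (jO : L →+* Ω) {Y Y' : RedAV p ν} (hY : Big Y.X j)
    (hY' : Big Y'.X j) [Fintype (Wt Y.X L)] {κ κ' : Type} [Fintype κ] [DecidableEq κ]
    [Fintype κ'] [DecidableEq κ'] {J : κ' → Wt Y'.X L} (hJ : Function.Injective J)
    (hbal : Balanced (fun k => St j (J k))) {o : Wt Y.X L → ℤ}
    (hd : dcnt (fw p ν j J) =
      DD (fun w => tf p ν j (St j w)) fun w => ((o w).toNat : ℤ)) (σ : L ≃ₐ[ℚ] L)
    {t : κ → Wt Y.X L} (ht : Function.Injective t) (heven : Even (Fintype.card κ))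
    (hto : oc t = actO σ o) :
    IsPos jO C j (prodR Y' Y)
      (Sum.elim (fun k => inlW (sw σ (J k))) fun k => inrW (bar (t k))) := by
  classical
  have ht' : Function.Injective fun k => bar (t k) := fun k k' hk => ht (bar_injective hk)
  have hKi : Function.Injective (Sum.elim (fun k => inlW (sw σ (J k)))
      fun k => inrW (bar (t k)) : κ' ⊕ κ → Wt (prodR Y' Y).X L) := by
    refine Function.Injective.sumElim ?_ ?_ ?_
    · intro k k' hk
      refine hJ (sw_injective σ ?_)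
      have h5 := Sigma.mk.inj_iff.1 hk
      exact Sigma.ext (Sum.inl.inj h5.1) h5.2
    · intro k k' hk
      refine ht' ?_
      have h5 := Sigma.mk.inj_iff.1 hk
      exact Sigma.ext (Sum.inr.inj h5.1) h5.2
    · intro k k' hk
      exact Sum.inl_ne_inr (Sigma.mk.inj_iff.1 hk).1
  refine pos_of_alg hC jO j (big_prodR hY' hY) hKi ?_
  refine alg_of_dcnt jO (big_prodR hY' hY) ?_ ?_
  · rw [Fintype.card_sum]
    exact (even_of_bal hbal).add heven
  · have h1 : (fw p ν j (Sum.elim (fun k => inlW (sw σ (J k)))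
        fun k => inrW (bar (t k)) : κ' ⊕ κ → Wt (prodR Y' Y).X L)) =
        Sum.elim (fw p ν j fun k => sw σ (J k)) fun k => -fw p ν j t k := by
      funext k
      rcases k with k | k
      · rfl
      · exact tf_bar (t k)
    rw [h1, dcnt_elim, dcnt_neg, dcnt_fw t, hto]
    funext f
    rw [Pi.add_apply, Pi.neg_apply, DD_actO, dcnt_sw, hd, Pi.zero_apply]
    exact add_neg_cancel _

/-- Words without exponents are positive. -/
theorem pos_zero (hC : IsCycleSystem Ω C) (jO : L →+* Ω) {Y : RedAV p ν} (hY : Big Y.X j)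
    [Fintype (Wt Y.X L)] {κ : Type} [Fintype κ] [DecidableEq κ]
    {t : κ → Wt Y.X L} (ht : Function.Injective t) (heven : Even (Fintype.card κ))
    (hto : oc t = 0) : IsPos jO C j Y t := by
  classical
  refine pos_of_alg hC jO j hY ht (alg_of_dcnt jO hY heven ?_)
  rw [dcnt_fw t, hto]
  exact DD_zero _

end K

section SSl

variable {Ω : Nat.Primes → Type} [∀ l, Field (Ω l)] [∀ l, CharZero (Ω l)]
  [∀ l : Nat.Primes, Algebra ℚ_[(l : ℕ)] (Ω l)]

theorem SS_one (jO : ∀ l, L →+* Ω l) (l : Nat.Primes) : (fun _ => 1) ∈ SS jO l :=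
  AddSubgroup.subset_closure ⟨1, 1, fun σ => by simp⟩

/-- Translation. -/
theorem SS_right (jO : ∀ l, L →+* Ω l) (l : Nat.Primes) (g : L ≃ₐ[ℚ] L)
    {x : (L ≃ₐ[ℚ] L) → Ω l} (hx : x ∈ SS jO l) : (fun σ => x (σ * g)) ∈ SS jO l := by
  induction hx using AddSubgroup.closure_induction with
  | mem x hx =>
    obtain ⟨m, q, h⟩ := hx
    exact AddSubgroup.subset_closure ⟨g m, q, fun σ => h (σ * g)⟩
  | zero => exact AddSubgroup.zero_mem _
  | add x y _ _ h1 h2 => exact AddSubgroup.add_mem _ h1 h2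
  | neg x _ h1 => exact AddSubgroup.neg_mem _ h1

end SSl

/-- The stabilizer of exponents. -/
def stabO {X : CMAV} (o : Wt X L → ℤ) : Subgroup (L ≃ₐ[ℚ] L) where
  carrier := {σ | actO σ o = o}
  one_mem' := actO_one o
  mul_mem' := by
    intro σ τ h1 h2
    change actO (σ * τ) o = o
    rw [actO_mul, show actO τ o = o from h2, show actO σ o = o from h1]
  inv_mem' := by
    intro σ h1
    exact (actO_inv σ h1).symm

section place

variable {Ω : Nat.Primes → Type} [∀ l, Field (Ω l)] [∀ l, CharZero (Ω l)]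
  [∀ l : Nat.Primes, Algebra ℚ_[(l : ℕ)] (Ω l)] [∀ l, IsAlgClosed (Ω l)]
  {C : (Y : RedAV p ν) → (κ : Type) → FCl Ω Y κ → Prop}

/-- The local data belonging to the exponents `o`. -/
structure PData (C : (Y : RedAV p ν) → (κ : Type) → FCl Ω Y κ → Prop) (j : L →+* ℂ)
    (jO : ∀ l, L →+* Ω l) (l0 : Nat.Primes) (Y : RedAV p ν) (κ : Type) [Fintype κ]
    [DecidableEq κ] (o : Wt Y.X L → ℤ) where
  x : ∀ l, (L ≃ₐ[ℚ] L) → Ω l
  μ : L
  ne : μ ≠ 0
  mem : ∀ l, x l ∈ SS jO l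
  inv : ∀ l σ τ, actO τ o = o → x l (σ * τ) = x l σ
  mul : ∀ l σ, x l σ * x l (cc L * σ) = jO l (σ μ)
  sign : ∀ (σ : L ≃ₐ[ℚ] L) (t : κ → Wt Y.X L), Function.Injective t → oc t = actO σ o →
    ∀ c c' : Ω l0, Ln (jO l0) (atPrime C l0) Y t c c' → c * c' ≠ 0 →
      ∃ m : L, c * c' = jO l0 m ∧
        PosC (j m * (∏ k, Pool.Agent.TH117.PO.sgn j (t k)) * j (σ μ))

theorem PData.fix {jO : ∀ l, L →+* Ω l} {l0 : Nat.Primes} {Y : RedAV p ν} {κ : Type} [Fintype κ]
    [DecidableEq κ] {o : Wt Y.X L → ℤ} (P : PData C j jO l0 Y κ o) (σ τ : L ≃ₐ[ℚ] L)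
    (hτ : actO τ o = o) : (σ * τ) P.μ = σ P.μ := by
  apply (jO l0).injective
  rw [← P.mul, ← P.mul, ← mul_assoc, P.inv l0 σ τ hτ, P.inv l0 (cc L * σ) τ hτ]

/-- Existence of the local data. -/
theorem exists_pdata (hdec : S_DEC) (hC : IsCompatible Ω C) (l0 : Nat.Primes)
    (hR : IsRosatiPositive (Ω l0) (atPrime C l0)) (jO : ∀ l, L →+* Ω l)
    {Y : RedAV p ν} (hY : Big Y.X j) [Fintype (Wt Y.X L)]
    {κ : Type} [Fintype κ] [DecidableEq κ] (heven : Even (Fintype.card κ))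
    (hT : ∀ t : κ → Wt Y.X L, Function.Injective t → ∀ c c' : Ω l0,
      Ln (jO l0) (atPrime C l0) Y t c c' → c ≠ 0 → ∀ g, ∑ k, tf p ν j (St j (t k)) g = 0)
    (o : Wt Y.X L → ℤ) : Nonempty (PData C j jO l0 Y κ o) := by
  classical
  have hC0 := hC.cycle l0
  by_cases hex : ∃ (σ : L ≃ₐ[ℚ] L) (t : κ → Wt Y.X L), Function.Injective t ∧
      oc t = actO σ o ∧ ∃ c c' : Ω l0, Ln (jO l0) (atPrime C l0) Y t c c' ∧ c * c' ≠ 0
  swap
  · -- trivial data
    refine ⟨⟨fun _ _ => 1, 1, one_ne_zero, fun l => SS_one jO l, fun _ _ _ _ => rfl,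
      fun l σ => by rw [map_one, map_one, mul_one], fun σ t ht hto c c' h hcc => ?_⟩⟩
    exact absurd ⟨σ, t, ht, hto, c, c', h, hcc⟩ hex
  by_cases ho0 : o = 0
  · -- no exponents
    refine ⟨⟨fun _ _ => 1, 1, one_ne_zero, fun l => SS_one jO l, fun _ _ _ _ => rfl,
      fun l σ => by rw [map_one, map_one, mul_one], fun σ t ht hto c c' h hcc => ?_⟩⟩
    have hto' : oc t = 0 := by
      rw [hto, ho0]
      rfl
    obtain ⟨m, h1, h2⟩ := (pos_zero hC0 (jO l0) hY ht heven hto').line hC0 hY ht h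
      (left_ne_zero_of_mul hcc)
    refine ⟨m, h1, ?_⟩
    rw [map_one, map_one, mul_one]
    exact h2.2 hR
  obtain ⟨σ0, t0, ht0, hto0, c0, c0', hL0, hcc0⟩ := hex
  -- the properties of the exponents
  have ho : o = actO σ0⁻¹ (oc t0) := actO_inv σ0 hto0.symm
  have ho' : o = oc fun k => sw σ0⁻¹ (t0 k) := by
    rw [ho, oc_sw j]
  set t1 : κ → Wt Y.X L := fun k => sw σ0⁻¹ (t0 k) with ht1
  have hrel1 : ∀ g, ∑ k, tf p ν j (St j (t1 k)) g = 0 := by
    intro g
    rw [← hT t0 ht0 c0 c0' hL0 (left_ne_zero_of_mul hcc0) (g * σ0⁻¹)]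
    exact Finset.sum_congr rfl fun k _ => tf_smul' _ _ _
  have hrel : ∀ g, ∑ w, (((o w).toNat : ℕ) : ℤ) * tf p ν j (St j w) g = 0 := by
    intro g
    have hTb : ∀ w : Wt Y.X L, tf p ν j (St j (bar w)) g = -tf p ν j (St j w) g := by
      intro w
      rw [tf_bar]
      rfl
    have h1 := rel_toNat (fun w => tf p ν j (St j w) g) hTb o (fun w => by
      rw [ho']
      exact oc_neg t1 w)
    have h2 := sum_oc (fun w => tf p ν j (St j w) g) hTb t1
    rw [← ho'] at h2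
    rw [h2, hrel1 g, mul_zero] at h1
    omega
  have heven1 : Even (∑ w, (o w).toNat) := by
    rw [ho']
    exact even_toNat j t1 heven
  have hcN : cc L ∉ stabO o := by
    intro h
    have h1 : actO (cc L) o = o := h
    apply ho0
    have h2 : actO (cc L) o = -o := by
      rw [ho', actO_cc j, oc_bar']
    rw [h2] at h1
    funext w
    have h3 := congrFun h1 w
    rw [Pi.neg_apply] at h3
    rw [Pi.zero_apply]
    omega
  obtain ⟨m0, Y', hY', J, hJ, hbal, hJN, hd⟩ := exists_Jg hdec ν j (stabO o) hcN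
    (fun w => (o w).toNat) (fun σ hσ w => by
      have h1 : actO σ o = o := hσ
      have h2 : o (sw σ⁻¹ (sw σ w)) = o (sw σ w) := congrFun h1 (sw σ w)
      rw [← sw_mul, inv_mul_cancel, sw_one] at h2
      rw [h2]) hrel heven1
  -- a class with nonzero coefficients
  have hinj : ∀ σ : L ≃ₐ[ℚ] L, Function.Injective fun k => sw σ (J k) := fun σ =>
    (sw_injective σ).comp hJ
  have hKp : ∀ (σ : L ≃ₐ[ℚ] L) (t : κ → Wt Y.X L), Function.Injective t → oc t = actO σ o →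
      IsPos (jO l0) (atPrime C l0) j (prodR Y' Y)
        (Sum.elim (fun k => inlW (sw σ (J k))) fun k => inrW (bar (t k))) :=
    fun σ t ht hto => posK hC0 (jO l0) hY hY' hJ hbal hd σ ht heven hto
  obtain ⟨b, b', hb, hbb⟩ := line_div_ne hC0 hY ht0 (hinj σ0) (hKp σ0 t0 ht0 hto0) hL0 hcc0
  have hbasis := fun l => Pool.Agent.W67.TA.basis p ν (Ω l) L j (jO l) Y' hY'
  choose e h1 h0 using hbasis
  obtain ⟨_, ⟨z, hz, rfl⟩, hz1, hz2⟩ := exists_both (e l0) (h1 l0) (h0 l0) hC0 j hY'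
    (hinj σ0) hb hbb
  have hC' : IsFam (fun i : Nat.Primes × (L ≃ₐ[ℚ] L) => Ω i.1) (rep (L ≃ₐ[ℚ] L) C) :=
    hC.toIsFam.rep 1
  let e' : ∀ i : Nat.Primes × (L ≃ₐ[ℚ] L), Basis (Wt Y'.X L) (Ω i.1) (TM (Ω i.1) Y') := fun i =>
    (e i.1).reindex (swE Y'.X i.2)
  have he' : ∀ (i : Nat.Primes × (L ≃ₐ[ℚ] L)) (w : Wt Y'.X L), e' i w = e i.1 (sw i.2 w) := by
    intro i w
    exact Basis.reindex_apply _ _ _
  have h1' : ∀ i w, co (jS jO i) w (e' i w) = 1 := by
    intro i w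
    rw [he', co_jS]
    exact h1 _ _
  have h0' : ∀ i w w', w ≠ w' → co (jS jO i) w (e' i w') = 0 := by
    intro i w w' hw
    rw [he', co_jS]
    exact h0 _ _ _ fun h => hw (sw_injective _ h)
  -- a rational vector where the monomial does not vanish
  obtain ⟨v0, hv0⟩ : ∃ v, mono J v ≠ 0 := by
    by_contra hcon
    push Not at hcon
    have h2 : monoO (jO l0) J = 0 := by
      refine Pool.Agent.W417.TA.ext_tmul fun v => ?_
      rw [Pool.Agent.W417.TA.monoO_tmul, hcon, map_zero]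
      rfl
    have h3 := monoO_self (e l0) (h1 l0) (h0 l0) hJ
    rw [h2] at h3
    exact zero_ne_one h3
  set D : L := mono J v0 with hD
  let c : ∀ i : Nat.Primes × (L ≃ₐ[ℚ] L), Ω i.1 := fun i => z i.1 fun k => e i.1 (sw i.2 (J k))
  let c' : ∀ i : Nat.Primes × (L ≃ₐ[ℚ] L), Ω i.1 := fun i =>
    z i.1 fun k => e i.1 (sw i.2 (bar (J k)))
  have hzr : rep (L ≃ₐ[ℚ] L) C Y' _ (fun i => z i.1) := ⟨z, hz, fun i => rfl⟩
  have hJb : Function.Injective fun k => bar (J k) := fun k k' h => hJ (bar_injective h)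
  have hLn : LnF (rep (L ≃ₐ[ℚ] L) C) (jS jO) Y' J c := by
    have h2 := LnF_coef hC' j hY' e' h1' h0' hzr hJ
    have h3 : (fun i : Nat.Primes × (L ≃ₐ[ℚ] L) => z i.1 fun k => e' i (J k)) = c := by
      funext i
      simp only [he']
      rfl
    rw [h3] at h2
    exact h2
  have hLn' : LnF (rep (L ≃ₐ[ℚ] L) C) (jS jO) Y' (fun k => bar (J k)) c' := by
    have h2 := LnF_coef hC' j hY' e' h1' h0' hzr hJb
    have h3 : (fun i : Nat.Primes × (L ≃ₐ[ℚ] L) => z i.1 fun k => e' i (bar (J k))) = c' := by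
      funext i
      simp only [he']
      rfl
    rw [h3] at h2
    exact h2
  have hne : Nonempty (Nat.Primes × (L ≃ₐ[ℚ] L)) := ⟨(l0, 1)⟩
  obtain ⟨m, hm⟩ := two_linesF hC' j hY' hJ hLn hLn'
  have hm' : ∀ l σ, c (l, σ) * c' (l, σ) = jO l (σ m) := fun l σ => hm (l, σ)
  have hm0 : m ≠ 0 := by
    intro h
    have h2 := hm' l0 σ0
    rw [h, map_zero, map_zero] at h2
    rcases mul_eq_zero.1 h2 with h3 | h3
    · exact hz1 h3
    · apply hz2
      refine Eq.trans ?_ h3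
      change (z l0 fun k => e l0 (bar (sw σ0 (J k)))) = z l0 fun k => e l0 (sw σ0 (bar (J k)))
      congr 1
      funext k
      rw [sw_bar j]
  have hinv : ∀ x : L, cc L (cc L x) = x := cc_invol
  have hcomm : ∀ (σ : L ≃ₐ[ℚ] L) (x : L), cc L (σ x) = σ (cc L x) := fun σ x =>
    DFunLike.congr_fun (cc_comm j σ) x
  have hccc : ∀ l σ, c (l, cc L * σ) = c' (l, σ) := by
    intro l σ
    change (z l fun k => e l (sw (cc L * σ) (J k))) = z l fun k => e l (sw σ (bar (J k)))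
    congr 1
    funext k
    rw [sw_cc, sw_bar j]
  have hperm : ∀ (τ : L ≃ₐ[ℚ] L), actO τ o = o → ∃ ε : ℤ, ε * ε = 1 ∧ τ D = ε * D ∧
      ∀ l σ, c (l, σ * τ) = ε * c (l, σ) := by
    intro τ hτ
    obtain ⟨π, hπ⟩ := hJN τ hτ
    refine ⟨(Equiv.Perm.sign π : ℤ), ?_, ?_, fun l σ => ?_⟩
    · rw [← Units.val_mul, Int.units_mul_self, Units.val_one]
    · rw [hD, ← mono_sw]
      have h2 : (fun k => sw τ (J k)) = J ∘ π := funext hπ
      rw [h2, mono_perm]
    · change (z l fun k => e l (sw (σ * τ) (J k))) = _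
      have h2 : (fun k => e l (sw (σ * τ) (J k))) = fun k =>
          (fun k' => e l (sw σ (J k'))) (π k) := by
        funext k
        dsimp only
        rw [sw_mul, hπ]
      rw [h2]
      have h3 := (z l).map_perm (fun k' => e l (sw σ (J k'))) π
      rw [Units.smul_def, zsmul_eq_mul] at h3
      exact h3
  refine ⟨⟨fun l σ => jO l (σ D) * c (l, σ), D * cc L D * m,
    mul_ne_zero (mul_ne_zero hv0 ((map_ne_zero (cc L)).2 hv0)) hm0,
    fun l => SS_smul jO l D (coef_mem hC jO j hY' hJ hbal hLn l), ?_, ?_, ?_⟩⟩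
  · intro l σ τ hτ
    obtain ⟨ε, h2, h3, h4⟩ := hperm τ hτ
    dsimp only
    have h5 : (σ * τ) D = ε * σ D := by
      change σ (τ D) = _
      rw [h3, map_mul, map_intCast]
    have h6 : ((ε : ℤ) : Ω l) * ((ε : ℤ) : Ω l) = 1 := by
      rw [← Int.cast_mul, h2, Int.cast_one]
    rw [h5, h4, map_mul, map_intCast]
    linear_combination (jO l (σ D) * c (l, σ)) * h6
  · intro l σ
    dsimp only
    have h5 : (cc L * σ) D = σ (cc L D) := hcomm σ D
    rw [hccc, h5, map_mul, map_mul, map_mul, map_mul, ← hm']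
    ring
  · intro σ t ht hto d d' hL hdd
    have hc0 := Ln_coef hC0 j hY' (e l0) (h1 l0) (h0 l0) ⟨z, hz, rfl⟩ (hinj σ)
    have h2 : (z l0 fun k => e l0 (sw σ (J k))) * (z l0 fun k => e l0 (bar (sw σ (J k)))) =
        jO l0 (σ m) := by
      rw [← hm' l0 σ]
      change _ = (z l0 fun k => e l0 (sw σ (J k))) * z l0 fun k => e l0 (sw σ (bar (J k)))
      congr 2
      funext k
      rw [sw_bar j]
    obtain ⟨μ, h3, h4⟩ := sign_div' hC0 hR hY hY' ht heven (hinj σ) (balanced_sw hbal σ) hc0 h2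
      ((map_ne_zero σ).2 hm0) (hKp σ t ht hto) hL hdd
    refine ⟨μ, h3, ?_⟩
    have h5 : σ (D * cc L D * m) = σ D * cc L (σ D) * σ m := by
      rw [map_mul, map_mul, hcomm]
    have h6 := h4.mul (PosC.norm j ((map_ne_zero σ).2 hv0 : σ D ≠ 0))
    rw [h5, map_mul j (σ D * cc L (σ D))]
    have h7 : j μ * (∏ k, Pool.Agent.TH117.PO.sgn j (t k)) *
        (j (σ D * cc L (σ D)) * j (σ m)) =
        j μ * (∏ k, Pool.Agent.TH117.PO.sgn j (t k)) * j (σ m) * j (σ D * cc L (σ D)) := by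
      ring
    rw [h7]
    exact h6

end place

end

end Pool.Agent.N202.M4
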